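import Pool.Agent.BIL.C0

/-!
# [BIL-C1] the area of a parallelogram
-/

set_option autoImplicit false

open MeasureTheory Set Filter Topology

namespace BIL

theorem c1_dir_ang (w : ℂ) : (‖w‖ : ℂ) * dir (ang w) = w := by
  have h : dir (ang w) = Complex.exp (Complex.arg w * Complex.I) := by
    unfold dir ang
    rw [AddCircle.toCircle_apply_mk, Circle.coe_exp]
    have hpi : (2 * Real.pi) ≠ 0 := (Real.two_pi_pos).ne'
    rw [div_self hpi, one_mul]
  rw [h, Complex.norm_mul_exp_arg_mul_I]

/-- [C1a] For real `x`, `y`: `(dir θ).re = cos x`, `(dir θ).im = sin x` for `θ = x`. `dir θ = (dir (θ - ang w)) * (w / ‖w‖)`, so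
`Im (conj w * dir θ) = ‖w‖ * (dir (θ - ang w)).im`. (`dir (ang w) = w / ‖w‖`: `Complex.norm_mul_exp_arg_mul_I`; `dir` of a sum is the product:
`AddCircle.toCircle_add`.) -/
theorem im_dir (w : ℂ) (θ : Ang) : (dir θ).im * w.re - (dir θ).re * w.im = ‖w‖ * (dir (θ - ang w)).im := by
  have h2 : (dir (ang w)) * (starRingEnd ℂ (dir (ang w))) = 1 := by
    rw [Complex.mul_conj]
    unfold dir
    rw [Circle.normSq_coe]
    norm_num
  have h3 : dir θ = dir (θ - ang w) * dir (ang w) := by
    unfold dir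
    rw [← Circle.coe_mul, ← AddCircle.toCircle_add, sub_add_cancel]
  have h4 : (starRingEnd ℂ w) * dir θ = (‖w‖ : ℂ) * dir (θ - ang w) := by
    have h5 : starRingEnd ℂ w = (‖w‖ : ℂ) * starRingEnd ℂ (dir (ang w)) := by
      conv_lhs => rw [← c1_dir_ang w]
      rw [map_mul, Complex.conj_ofReal]
    rw [h5, h3]
    linear_combination ((‖w‖ : ℂ) * dir (θ - ang w)) * h2
  have h6 := congrArg Complex.im h4
  rw [Complex.mul_im, Complex.conj_re, Complex.conj_im, Complex.im_ofReal_mul] at h6
  linarith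

/-- [C1b] The set is the image of the rectangle `[0, 1] × [0, ε]` under `(s, τ) ↦ a + s (b - a) - τ dir θ`, an affine map with determinant
`± Im (conj (b - a) * dir θ)` (identify `ℂ` with `ℝ × ℝ` by `Complex.measurableEquivRealProd`, which is volume preserving:
`Complex.volume_preserving_equiv_real_prod`; `MeasureTheory.Measure.addHaar_image_linearMap`, the determinant of a linear map of `ℝ × ℝ` or of `Fin 2 → ℝ` by a matrix; a
translation preserves the volume). The absolute value of the determinant is `‖b - a‖ * |(dir (θ - ang (b - a))).im|` by [C1a]. -/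
theorem vol_par (a b : ℂ) (θ : Ang) {ε : ℝ} (hε : 0 ≤ ε) :
    volume {x : ℂ | ∃ τ ∈ Icc 0 ε, x + τ * dir θ ∈ segment ℝ a b} ≤
      ENNReal.ofReal (ε * ‖b - a‖ * |(dir (θ - ang (b - a))).im|) := by
  obtain ⟨w, hw⟩ : ∃ w, w = b - a := ⟨_, rfl⟩
  obtain ⟨d, hd⟩ : ∃ d, d = dir θ := ⟨_, rfl⟩
  let L : ℂ →ₗ[ℝ] ℂ :=
    { toFun := fun z => z.re * w - z.im * d
      map_add' := fun x y => by
        simp only [Complex.add_re, Complex.add_im, Complex.ofReal_add]
        ring
      map_smul' := fun r x => by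
        rw [Complex.smul_re, Complex.smul_im, smul_eq_mul, smul_eq_mul, Complex.ofReal_mul,
          Complex.ofReal_mul, RingHom.id_apply, Complex.real_smul]
        ring }
  have hL : ∀ z : ℂ, L z = z.re * w - z.im * d := fun z => rfl
  have hdet : LinearMap.det L = -(d.im * w.re - d.re * w.im) := by
    rw [← LinearMap.det_toMatrix Complex.basisOneI L, Matrix.det_fin_two]
    simp only [LinearMap.toMatrix_apply, Complex.coe_basisOneI, Complex.coe_basisOneI_repr,
      Matrix.cons_val_zero, Matrix.cons_val_one, hL]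
    simp
    ring
  have hR : volume (Complex.measurableEquivRealProd ⁻¹' (Icc (0 : ℝ) 1 ×ˢ Icc (0 : ℝ) ε)) =
      ENNReal.ofReal ε := by
    rw [Complex.volume_preserving_equiv_real_prod.measure_preimage
      (measurableSet_Icc.prod measurableSet_Icc).nullMeasurableSet,
      Measure.volume_eq_prod, Measure.prod_prod, Real.volume_Icc, Real.volume_Icc]
    simp
  have hsub : {x : ℂ | ∃ τ ∈ Icc 0 ε, x + τ * dir θ ∈ segment ℝ a b} ⊆
      (fun x => -a + x) ⁻¹'
        (L '' (Complex.measurableEquivRealProd ⁻¹' (Icc (0 : ℝ) 1 ×ˢ Icc (0 : ℝ) ε))) := by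
    rintro x ⟨τ, hτ, hx⟩
    rw [segment_eq_image'] at hx
    obtain ⟨s, hs, hsx⟩ := hx
    refine ⟨⟨s, τ⟩, ⟨hs, hτ⟩, ?_⟩
    rw [hL, hd, hw]
    simp only [Complex.real_smul] at hsx
    show (s : ℂ) * (b - a) - (τ : ℂ) * dir θ = -a + x
    linear_combination hsx
  refine (measure_mono hsub).trans ?_
  rw [measure_preimage_add, Measure.addHaar_image_linearMap, hR, hdet, hd, im_dir, abs_neg, abs_mul,
    abs_of_nonneg (norm_nonneg _), ← ENNReal.ofReal_mul (by positivity), hw]
  apply le_of_eq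
  congr 1
  ring

end BIL
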