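import Pool.Agent.BIL.L1a

/-!
# [BIL-L1b] the area of a neighbourhood of the boundary
-/

set_option autoImplicit false

open MeasureTheory Set Filter Topology

namespace BIL

/-- [L1b] `frontier P` is the union of the finitely many sides; it is compact and nonempty (`P` is compact with
nonempty interior, so it is neither empty nor the whole plane; `ℂ` is connected). If `infDist x (frontier P) ≤ ε` then
the distance is attained (`IsCompact.exists_infDist_eq_dist`) at a point of some side, so
`infDist x (segment ℝ (a i) (b i)) ≤ ε` for some `i`; sum `vol_seg` over `i`. -/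
theorem vol_frontier {n : ℕ} {P : Set ℂ} {a b : Fin n → ℂ} (hP : IsPolygon P a b) :
    ∃ C > 0, ∀ ε : ℝ, 0 < ε → ε ≤ 1 →
      volume {x : ℂ | Metric.infDist x (frontier P) ≤ ε} ≤ ENNReal.ofReal (C * ε) := by
  have hne : (frontier P).Nonempty := by
    rw [nonempty_iff_ne_empty]
    intro h0
    have h1 : IsClopen P := isClopen_iff_frontier_eq_empty.2 h0
    rcases isClopen_iff.1 h1 with h2 | h2
    · have := hP.int_nonempty
      rw [h2, interior_empty] at this
      exact this.ne_empty rfl
    · have h3 := hP.compact
      rw [h2] at h3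
      exact noncompact_univ ℂ h3
  have hc : IsCompact (frontier P) := hP.compact.of_isClosed_subset isClosed_frontier
    hP.compact.isClosed.frontier_subset
  refine ⟨(∑ i, 4 * Real.pi * (‖b i - a i‖ + 3)) + 1, by positivity, fun ε h0 h1 => ?_⟩
  have hsub : {x : ℂ | Metric.infDist x (frontier P) ≤ ε} ⊆
      ⋃ i ∈ (Finset.univ : Finset (Fin n)),
        {x : ℂ | Metric.infDist x (segment ℝ (a i) (b i)) ≤ ε} := by
    intro x hx
    obtain ⟨y, hy, hyx⟩ := hc.exists_infDist_eq_dist hne x
    rw [hP.frontier_eq, mem_iUnion] at hy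
    obtain ⟨i, hi⟩ := hy
    simp only [mem_iUnion]
    refine ⟨i, Finset.mem_univ i, ?_⟩
    have h2 : Metric.infDist x (segment ℝ (a i) (b i)) ≤ dist x y :=
      Metric.infDist_le_dist_of_mem hi
    exact h2.trans (by rw [← hyx]; exact hx)
  refine (measure_mono hsub).trans ((measure_biUnion_finset_le _ _).trans ?_)
  refine (Finset.sum_le_sum fun i _ => vol_seg (a i) (b i) h0 h1).trans ?_
  rw [← ENNReal.ofReal_sum_of_nonneg (fun i _ => by positivity)]
  refine ENNReal.ofReal_le_ofReal ?_
  rw [← Finset.sum_mul]
  nlinarith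


end BIL
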