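import Pool.Agent.BIL.Defs

/-!
# [BIL-C0] definitions for the second theorem
-/

set_option autoImplicit false

open MeasureTheory Set Filter Topology

namespace BIL

/-- The phase points with direction in `W` whose straight trajectory meets the segment `[a, b]` within time `ε`. -/
def Hit (W : Set Ang) (a b : ℂ) (ε : ℝ) : Set (ℂ × Ang) :=
  {z | z.2 ∈ W ∧ ∃ τ ∈ Icc 0 ε, z.1 + τ * dir z.2 ∈ segment ℝ a b}

/-- The set `{A' + k A : -q ≤ k < q}`, `A = 2 A'`; it is the set of the odd multiples `j A'`, `|j| < 2 q`. -/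
def SS (A' : Ang) (q : ℕ) : Set Ang :=
  {y | ∃ k : ℤ, -(q : ℤ) ≤ k ∧ k < q ∧ y = A' + k • ((2 : ℕ) • A')}

/-- The distance to `SS A' q`. -/
noncomputable def DD (A' : Ang) (q : ℕ) (y : Ang) : ℝ := Metric.infDist y (SS A' q)

end BIL
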