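import Pool.Agent.BIL.C0

/-!
# [BIL-C2] the change of a function of the direction along an orbit, second version
-/

set_option autoImplicit false

open MeasureTheory Set Filter Topology

namespace BIL

/-- [C2a] The proof is the same as that of `orbit_step` in `L2a.lean` (complete there; copy it). If there is no boundary time in `(s, t]` the left side is `0`.
Otherwise there is exactly one, `τ`, `(γ τ).1` is in the side `i` (`openSegment_subset_segment`), `(γ t).2 = (γ τ).2 = 2 • ang (b i - a i) - (γ s).2` and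
`(γ τ).1 = (γ s).1 + (τ - s) * dir (γ s).2`. If `(γ s).2 ∉ W i` the left side is `0`; if it is in `W i` then `γ s ∈ Hit (W i) (a i) (b i) (t - s)` (with `τ - s` as the time),
and the sum is at least its term `i`, which is `η` (`Finset.single_le_sum`). -/
theorem orbit_step2 {n : ℕ} {P : Set ℂ} {a b : Fin n → ℂ} {γ : ℝ → ℂ × Ang} (hγ : IsOrbit P a b γ)
    {s t : ℝ} (hst : s < t) {f : Ang → ℝ} {W : Fin n → Set Ang} {η : ℝ} (hη : 0 ≤ η)
    (hf : ∀ i θ, |f ((2 : ℕ) • ang (b i - a i) - θ) - f θ| ≤ η)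
    (hf2 : ∀ i θ, θ ∉ W i → f ((2 : ℕ) • ang (b i - a i) - θ) = f θ)
    (hone : ∀ τ ∈ Ioc s t, ∀ τ' ∈ Ioc s t, (γ τ).1 ∈ frontier P → (γ τ').1 ∈ frontier P → τ = τ') :
    |f (γ t).2 - f (γ s).2| ≤
      ∑ i, (Hit (W i) (a i) (b i) (t - s)).indicator (fun _ => η) (γ s) := by
  have hnn : 0 ≤ ∑ i, (Hit (W i) (a i) (b i) (t - s)).indicator (fun _ => η) (γ s) :=
    Finset.sum_nonneg fun i _ => Set.indicator_nonneg (fun _ _ => hη) _
  by_cases hno : ∀ τ ∈ Ioc s t, (γ τ).1 ∉ frontier P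
  · rw [(hγ.free s t hst.le hno).1, sub_self, abs_zero]
    exact hnn
  push Not at hno
  obtain ⟨τ, hτ, hτP⟩ := hno
  have hbefore : ∀ u, s < u → u < τ → (γ u).2 = (γ s).2 ∧
      (γ u).1 = (γ s).1 + (u - s) * dir (γ s).2 := by
    intro u hu1 hu2
    refine hγ.free s u hu1.le ?_
    intro v hv hvP
    have := hone v ⟨hv.1, (hv.2.trans hu2.le).trans hτ.2⟩ τ hτ hvP hτP
    rw [this] at hv
    exact absurd hv.2 (not_le.2 hu2)
  have hafter : (γ t).2 = (γ τ).2 := by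
    refine (hγ.free τ t hτ.2 ?_).1
    intro v hv hvP
    have := hone v ⟨hτ.1.trans hv.1, hv.2⟩ τ hτ hvP hτP
    rw [this] at hv
    exact lt_irrefl _ hv.1
  obtain ⟨i, hseg, -, ε, hε, hr⟩ := hγ.refl τ hτP
  obtain ⟨u, hu1, hu2⟩ : ∃ u, max s (τ - ε) < u ∧ u < τ := exists_between (max_lt hτ.1 (by linarith))
  have hτ2 : (γ τ).2 = (2 : ℕ) • ang (b i - a i) - (γ s).2 := by
    rw [hr u ⟨lt_of_le_of_lt (le_max_right _ _) hu1, hu2⟩,
      (hbefore u (lt_of_le_of_lt (le_max_left _ _) hu1) hu2).1]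
  have hpos : (γ τ).1 = (γ s).1 + (τ - s) * dir (γ s).2 := by
    have h1 : Tendsto (fun u : ℝ => (γ u).1) (𝓝[<] τ) (𝓝 (γ τ).1) :=
      (hγ.cont.tendsto τ).mono_left nhdsWithin_le_nhds
    have h2 : Tendsto (fun u : ℝ => (γ s).1 + ((u : ℂ) - s) * dir (γ s).2) (𝓝[<] τ)
        (𝓝 ((γ s).1 + ((τ : ℂ) - s) * dir (γ s).2)) := by
      have h3 : Continuous (fun u : ℝ => (γ s).1 + ((u : ℂ) - s) * dir (γ s).2) := by fun_prop
      exact (h3.tendsto τ).mono_left nhdsWithin_le_nhds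
    refine tendsto_nhds_unique h1 (h2.congr' ?_)
    have h4 : Ioo s τ ∈ 𝓝[<] τ := Ioo_mem_nhdsLT hτ.1
    filter_upwards [h4] with u hu
    exact (hbefore u hu.1 hu.2).2.symm
  by_cases hW : (γ s).2 ∈ W i
  · have hmem : γ s ∈ Hit (W i) (a i) (b i) (t - s) := by
      refine ⟨hW, τ - s, ⟨by linarith [hτ.1], by linarith [hτ.2]⟩, ?_⟩
      rw [Complex.ofReal_sub, ← hpos]
      exact openSegment_subset_segment ℝ _ _ hseg
    rw [hafter, hτ2]
    refine (hf i _).trans ?_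
    have h5 := Finset.single_le_sum
      (f := fun j => (Hit (W j) (a j) (b j) (t - s)).indicator (fun _ => η) (γ s))
      (fun j _ => Set.indicator_nonneg (fun _ _ => hη) _) (Finset.mem_univ i)
    rw [Set.indicator_of_mem hmem] at h5
    exact h5
  · rw [hafter, hτ2, hf2 i _ hW, sub_self, abs_zero]
    exact hnn

/-- [C2b] The proof is the same as that of `orbit_sum` in `L2b.lean` (complete there; copy it), with `orbit_step2` in place of `orbit_step`. -/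
theorem orbit_sum2 {n : ℕ} {P : Set ℂ} {a b : Fin n → ℂ} {γ : ℝ → ℂ × Ang} (hγ : IsOrbit P a b γ)
    {t : ℝ} (ht : 0 < t) {f : Ang → ℝ} {W : Fin n → Set Ang} {η : ℝ} (hη : 0 ≤ η)
    (hf : ∀ i θ, |f ((2 : ℕ) • ang (b i - a i) - θ) - f θ| ≤ η)
    (hf2 : ∀ i θ, θ ∉ W i → f ((2 : ℕ) • ang (b i - a i) - θ) = f θ) :
    ∀ᶠ K : ℕ in atTop, |f (γ t).2 - f (γ 0).2| ≤ ∑ k ∈ Finset.range K, ∑ i,
      (Hit (W i) (a i) (b i) (t / K)).indicator (fun _ => η) (γ (k * t / K)) := by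
  have hfin := hγ.finite 0 t
  -- a gap between the boundary times
  obtain ⟨δ, hδ, hgap⟩ : ∃ δ > 0, ∀ τ ∈ Icc 0 t, ∀ τ' ∈ Icc 0 t, (γ τ).1 ∈ frontier P →
      (γ τ').1 ∈ frontier P → τ < τ' → δ ≤ τ' - τ := by
    have h1 : ({p : ℝ × ℝ | (p.1 ∈ Icc 0 t ∧ (γ p.1).1 ∈ frontier P) ∧
        (p.2 ∈ Icc 0 t ∧ (γ p.2).1 ∈ frontier P)}).Finite := (hfin.prod hfin).subset (fun p hp => hp)
    have h2 : ({x : ℝ | ∃ p : ℝ × ℝ, ((p.1 ∈ Icc 0 t ∧ (γ p.1).1 ∈ frontier P) ∧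
        (p.2 ∈ Icc 0 t ∧ (γ p.2).1 ∈ frontier P)) ∧ p.1 < p.2 ∧ x = p.2 - p.1}).Finite := by
      refine (h1.image (fun p => p.2 - p.1)).subset ?_
      rintro x ⟨p, hp, -, rfl⟩
      exact ⟨p, hp, rfl⟩
    rcases Set.eq_empty_or_nonempty {x : ℝ | ∃ p : ℝ × ℝ, ((p.1 ∈ Icc 0 t ∧ (γ p.1).1 ∈ frontier P) ∧
        (p.2 ∈ Icc 0 t ∧ (γ p.2).1 ∈ frontier P)) ∧ p.1 < p.2 ∧ x = p.2 - p.1} with h3 | h3
    · refine ⟨1, one_pos, ?_⟩
      intro τ hτ τ' hτ' hP hP' hlt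
      exfalso
      have : τ' - τ ∈ {x : ℝ | ∃ p : ℝ × ℝ, ((p.1 ∈ Icc 0 t ∧ (γ p.1).1 ∈ frontier P) ∧
        (p.2 ∈ Icc 0 t ∧ (γ p.2).1 ∈ frontier P)) ∧ p.1 < p.2 ∧ x = p.2 - p.1} :=
        ⟨(τ, τ'), ⟨⟨hτ, hP⟩, ⟨hτ', hP'⟩⟩, hlt, rfl⟩
      rw [h3] at this
      exact this
    · obtain ⟨x, hx, hmin⟩ := h2.exists_minimal h3
      obtain ⟨p, hp, hlt, rfl⟩ := hx
      refine ⟨p.2 - p.1, sub_pos.2 hlt, ?_⟩
      intro τ hτ τ' hτ' hP hP' hlt'
      by_contra hcon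
      have h4 := hmin ⟨(τ, τ'), ⟨⟨hτ, hP⟩, ⟨hτ', hP'⟩⟩, hlt', rfl⟩ (not_le.1 hcon).le
      exact hcon h4
  filter_upwards [eventually_gt_atTop ⌈t / δ⌉₊] with K hK
  have hK0 : 0 < K := lt_of_le_of_lt (Nat.zero_le _) hK
  have hKr : (0 : ℝ) < K := by exact_mod_cast hK0
  have hKt : t / K < δ := by
    have h1 : t / δ < K := lt_of_le_of_lt (Nat.le_ceil _) (by exact_mod_cast hK)
    rw [div_lt_iff₀ hKr]
    rw [div_lt_iff₀ hδ] at h1
    linarith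
  have htK : 0 < t / K := div_pos ht hKr
  have hstep : ∀ k ∈ Finset.range K, |f (γ ((k + 1 : ℕ) * t / K)).2 - f (γ (k * t / K)).2| ≤
      ∑ i, (Hit (W i) (a i) (b i) (t / K)).indicator (fun _ => η) (γ (k * t / K)) := by
    intro k hk
    have hk' : ((k + 1 : ℕ) : ℝ) ≤ K := by exact_mod_cast Finset.mem_range.1 hk
    have hsub : ((k + 1 : ℕ) : ℝ) * t / K - k * t / K = t / K := by
      push_cast
      ring
    have hlt : (k : ℝ) * t / K < ((k + 1 : ℕ) : ℝ) * t / K := by linarith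
    have hlow : (0 : ℝ) ≤ k * t / K := by positivity
    have hup : ((k + 1 : ℕ) : ℝ) * t / K ≤ t := by
      rw [div_le_iff₀ hKr]
      nlinarith
    have h1 := orbit_step2 hγ hlt hη hf hf2 (fun τ hτ τ' hτ' hP hP' => ?_)
    · rwa [hsub] at h1
    · have m1 : τ ∈ Icc 0 t := ⟨hlow.trans hτ.1.le, hτ.2.trans hup⟩
      have m2 : τ' ∈ Icc 0 t := ⟨hlow.trans hτ'.1.le, hτ'.2.trans hup⟩
      rcases lt_trichotomy τ τ' with h | h | h
      · have := hgap τ m1 τ' m2 hP hP' h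
        linarith [hτ.1, hτ'.2]
      · exact h
      · have := hgap τ' m2 τ m1 hP' hP h
        linarith [hτ'.1, hτ.2]
  calc |f (γ t).2 - f (γ 0).2|
      = |∑ k ∈ Finset.range K, (f (γ ((k + 1 : ℕ) * t / K)).2 - f (γ (k * t / K)).2)| := by
        rw [Finset.sum_range_sub (fun k : ℕ => f (γ ((k : ℝ) * t / K)).2)]
        have e1 : (K : ℝ) * t / K = t := by field_simp
        have e2 : ((0 : ℕ) : ℝ) * t / K = 0 := by simp
        rw [e1, e2]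
    _ ≤ ∑ k ∈ Finset.range K, |f (γ ((k + 1 : ℕ) * t / K)).2 - f (γ (k * t / K)).2| :=
        Finset.abs_sum_le_sum_abs _ _
    _ ≤ _ := Finset.sum_le_sum hstep

end BIL
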