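import Pool.Agent.BIL.Defs

/-!
# [BIL-L1c] the Liouville measure is a probability measure
-/

set_option autoImplicit false

open MeasureTheory Set Filter Topology

namespace BIL

/-- [L1c] `P ×ˢ univ` has finite nonzero volume (`P` is compact with nonempty interior, the circle has volume `2 π`). -/
theorem vol_ne {n : ℕ} {P : Set ℂ} {a b : Fin n → ℂ} (hP : IsPolygon P a b) :
    volume P ≠ 0 ∧ volume P ≠ ⊤ ∧ (volume : Measure (ℂ × Ang)) (P ×ˢ univ) ≠ 0 ∧
      (volume : Measure (ℂ × Ang)) (P ×ˢ univ) ≠ ⊤ := by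
  have h1 : volume P ≠ 0 := by
    intro h
    have h2 : volume (interior P) = 0 := measure_mono_null interior_subset h
    exact (isOpen_interior.measure_pos volume hP.int_nonempty).ne' h2
  have h2 : volume P ≠ ⊤ := hP.compact.measure_lt_top.ne
  have h3 : (volume : Measure (ℂ × Ang)) (P ×ˢ univ) = volume P * volume (univ : Set Ang) := by
    rw [Measure.volume_eq_prod, Measure.prod_prod]
  have h4 : volume (univ : Set Ang) = ENNReal.ofReal (2 * Real.pi) := AddCircle.measure_univ _
  refine ⟨h1, h2, ?_, ?_⟩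
  · rw [h3, h4]
    refine mul_ne_zero h1 ?_
    rw [Ne, ENNReal.ofReal_eq_zero, not_le]
    exact Real.two_pi_pos
  · rw [h3, h4]
    exact ENNReal.mul_ne_top h2 ENNReal.ofReal_ne_top

/-- [L1d] `liou P` is a probability measure (`ProbabilityTheory.cond_isProbabilityMeasure`, from [L1c]). -/
theorem liou_prob {n : ℕ} {P : Set ℂ} {a b : Fin n → ℂ} (hP : IsPolygon P a b) :
    IsProbabilityMeasure (liou P) := by
  obtain ⟨-, -, h3, h4⟩ := vol_ne hP
  exact ProbabilityTheory.cond_isProbabilityMeasure_of_finite h3 h4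

end BIL
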