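import Pool.Agent.BIL.C1
import Pool.Agent.BIL.L1c

/-!
# [BIL-C3] the measure of the set Hit
-/

set_option autoImplicit false

open MeasureTheory Set Filter Topology

namespace BIL

/-- [C3a] The set of the `z` with `∃ τ ∈ Icc 0 ε, z.1 + τ * dir z.2 ∈ segment` is closed: it is the projection of the closed set
`{(z, τ) | ...}` along the compact interval `[0, ε]` (`isClosedMap_fst_of_compactSpace`-type lemma, or a sequence argument; or
`IsCompact` / `Metric.infDist`). `{z | z.2 ∈ W}` is measurable. -/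
theorem hit_meas {W : Set Ang} (hW : MeasurableSet W) (a b : ℂ) (ε : ℝ) :
    MeasurableSet (Hit W a b ε) := by
  have hdir : Continuous dir := continuous_subtype_val.comp AddCircle.continuous_toCircle
  have hseg : IsClosed (segment ℝ a b) := by
    have hc : IsCompact (segment ℝ a b) := by
      rw [segment_eq_image']
      exact isCompact_Icc.image (by fun_prop)
    exact hc.isClosed
  have h1 : IsClosed {p : (ℂ × Ang) × Icc (0 : ℝ) ε |
      p.1.1 + ((p.2 : ℝ) : ℂ) * dir p.1.2 ∈ segment ℝ a b} := by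
    refine hseg.preimage ?_
    refine (continuous_fst.comp continuous_fst).add ((Complex.continuous_ofReal.comp
      (continuous_subtype_val.comp continuous_snd)).mul (hdir.comp
        (continuous_snd.comp continuous_fst)))
  have h2 := isClosedMap_fst_of_compactSpace (X := ℂ × Ang) (Y := Icc (0 : ℝ) ε) _ h1
  have h3 : Hit W a b ε = {z : ℂ × Ang | z.2 ∈ W} ∩ (Prod.fst ''
      {p : (ℂ × Ang) × Icc (0 : ℝ) ε |
        p.1.1 + ((p.2 : ℝ) : ℂ) * dir p.1.2 ∈ segment ℝ a b}) := by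
    ext z
    constructor
    · rintro ⟨hz, τ, hτ, h⟩
      exact ⟨hz, (z, ⟨τ, hτ⟩), h, rfl⟩
    · rintro ⟨hz, p, hp, rfl⟩
      exact ⟨hz, p.2, p.2.2, hp⟩
  rw [h3]
  exact (measurable_snd hW).inter h2.measurableSet

/-- [C3b] By Tonelli (`Measure.prod_apply_symm` for `volume.prod volume`) the volume of `Hit W a b ε` is `∫⁻ θ in W, volume {x | ∃ τ ∈ Icc 0 ε, ...}`, which by `vol_par` is at
most `ofReal (ε ‖b - a‖ w) * volume W ≤ ofReal (ε ‖b - a‖ w) * ofReal ω`. `liou P S ≤ (volume (P ×ˢ univ))⁻¹ * volume S`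
(`ProbabilityTheory.cond_apply`, `vol_ne`). Take for `C` the maximum over `i` of `1 + ‖b i - a i‖ / vol`, or the sum. -/
theorem liou_hit {n : ℕ} {P : Set ℂ} {a b : Fin n → ℂ} (hP : IsPolygon P a b) :
    ∃ C > 0, ∀ (i : Fin n) (W : Set Ang) (w ω ε : ℝ), MeasurableSet W → 0 ≤ w → 0 ≤ ω → 0 ≤ ε →
      (∀ θ ∈ W, |(dir (θ - ang (b i - a i))).im| ≤ w) → volume W ≤ ENNReal.ofReal ω →
      liou P (Hit W (a i) (b i) ε) ≤ ENNReal.ofReal (C * (ε * w * ω)) := by
  obtain ⟨-, -, hv0, hv1⟩ := vol_ne hP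
  set V : ENNReal := (volume : Measure (ℂ × Ang)) (P ×ˢ univ) with hV
  have hVr : 0 < V.toReal := ENNReal.toReal_pos hv0 hv1
  refine ⟨1 + (∑ i, ‖b i - a i‖) * V.toReal⁻¹, by positivity, ?_⟩
  intro i W w ω ε hW hw hω hε hWw hWω
  -- the volume of `Hit`
  have h1 : (volume : Measure (ℂ × Ang)) (Hit W (a i) (b i) ε) ≤
      ENNReal.ofReal (ε * ‖b i - a i‖ * w * ω) := by
    rw [Measure.volume_eq_prod, Measure.prod_apply_symm (hit_meas hW _ _ _)]
    have h2 : ∀ θ : Ang, volume ((fun x : ℂ => (x, θ)) ⁻¹' Hit W (a i) (b i) ε) ≤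
        W.indicator (fun _ => ENNReal.ofReal (ε * ‖b i - a i‖ * w)) θ := by
      intro θ
      by_cases hθ : θ ∈ W
      · rw [Set.indicator_of_mem hθ]
        have h3 : ((fun x : ℂ => (x, θ)) ⁻¹' Hit W (a i) (b i) ε) ⊆
            {x : ℂ | ∃ τ ∈ Icc 0 ε, x + τ * dir θ ∈ segment ℝ (a i) (b i)} := fun x hx => hx.2
        refine (measure_mono h3).trans ((vol_par (a i) (b i) θ hε).trans ?_)
        refine ENNReal.ofReal_le_ofReal ?_
        exact mul_le_mul_of_nonneg_left (hWw θ hθ) (by positivity)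
      · rw [Set.indicator_of_notMem hθ]
        have h3 : ((fun x : ℂ => (x, θ)) ⁻¹' Hit W (a i) (b i) ε) = ∅ := by
          ext x
          simp only [mem_preimage, mem_empty_iff_false, iff_false]
          exact fun h => hθ h.1
        rw [h3, measure_empty]
    refine (lintegral_mono h2).trans ?_
    rw [lintegral_indicator hW, setLIntegral_const]
    refine (mul_le_mul_right hWω _).trans ?_
    rw [← ENNReal.ofReal_mul (by positivity)]
  have h2 : liou P (Hit W (a i) (b i) ε) ≤ V⁻¹ * ENNReal.ofReal (ε * ‖b i - a i‖ * w * ω) := by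
    unfold liou
    rw [ProbabilityTheory.cond_apply' (hit_meas hW _ _ _)]
    exact mul_le_mul_right ((measure_mono inter_subset_right).trans h1) _
  refine h2.trans ?_
  have h3 : V⁻¹ = ENNReal.ofReal (V.toReal⁻¹) := by
    rw [ENNReal.ofReal_inv_of_pos hVr, ENNReal.ofReal_toReal hv1]
  rw [h3, ← ENNReal.ofReal_mul (by positivity)]
  refine ENNReal.ofReal_le_ofReal ?_
  have h4 : ‖b i - a i‖ ≤ ∑ j, ‖b j - a j‖ :=
    Finset.single_le_sum (f := fun j => ‖b j - a j‖) (fun j _ => norm_nonneg _) (Finset.mem_univ i)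
  have h5 : 0 ≤ V.toReal⁻¹ * (ε * w * ω) := by positivity
  have h6 : 0 ≤ ε * w * ω := by positivity
  calc V.toReal⁻¹ * (ε * ‖b i - a i‖ * w * ω) = ‖b i - a i‖ * (V.toReal⁻¹ * (ε * w * ω)) := by ring
    _ ≤ (∑ j, ‖b j - a j‖) * (V.toReal⁻¹ * (ε * w * ω)) := mul_le_mul_of_nonneg_right h4 h5
    _ ≤ (1 + (∑ i, ‖b i - a i‖) * V.toReal⁻¹) * (ε * w * ω) := by nlinarith

end BIL
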