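import Pool.Agent.BIL.C2
import Pool.Agent.BIL.C3

/-!
# [BIL-C4] functions of the direction that change only at grazing collisions
-/

set_option autoImplicit false

open MeasureTheory Set Filter Topology

namespace BIL

/-- [C4] As `near_inv` in `L3.lean` (complete there; adapt it), with `orbit_sum2` in place of `orbit_sum` and `liou_hit` in place of `liou_frontier`: the constant is
`n * C + 1` with `C` from `liou_hit`; `∫⁻ G_K = ∑ k ∈ range K, ∑ i, ofReal η * liou P (Hit (W i) (a i) (b i) (t / K)) ≤ K * n * η * C * (t / K) * w * ω = n C t η w ω`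
for all `K ≥ 1`. -/
theorem near_inv2 {n : ℕ} {P : Set ℂ} {a b : Fin n → ℂ} (hP : IsPolygon P a b) :
    ∃ C > 0, ∀ φ, IsBilliardFlow P a b φ → ∀ (f : Ang → ℝ) (W : Fin n → Set Ang) (η w ω : ℝ),
      (∀ i, MeasurableSet (W i)) → 0 ≤ η → 0 ≤ w → 0 ≤ ω →
      (∀ i θ, |f ((2 : ℕ) • ang (b i - a i) - θ) - f θ| ≤ η) →
      (∀ i θ, θ ∉ W i → f ((2 : ℕ) • ang (b i - a i) - θ) = f θ) →
      (∀ i, ∀ θ ∈ W i, |(dir (θ - ang (b i - a i))).im| ≤ w) →
      (∀ i, volume (W i) ≤ ENNReal.ofReal ω) → ∀ t : ℝ, 0 < t →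
      ∫⁻ z, ENNReal.ofReal |f (φ t z).2 - f z.2| ∂(liou P) ≤
        ENNReal.ofReal (C * t * (η * w * ω)) := by
  obtain ⟨C, hC, hCb⟩ := liou_hit hP
  refine ⟨n * C + 1, by positivity, ?_⟩
  intro φ hφ f W η w ω hWm hη hw hω hf hf2 hWw hWω t ht
  classical
  -- the sets
  set D : ℕ → Fin n → Set (ℂ × Ang) := fun K i => Hit (W i) (a i) (b i) (t / K) with hD
  have hDm : ∀ K i, MeasurableSet (D K i) := fun K i => hit_meas (hWm i) _ _ _
  set G : ℕ → ℂ × Ang → ENNReal := fun K z => ∑ k ∈ Finset.range K, ∑ i,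
    (D K i).indicator (fun _ => ENNReal.ofReal η) (φ (k * t / K) z) with hG
  have hGm : ∀ K, Measurable (G K) := by
    intro K
    refine Finset.measurable_fun_sum _ fun k _ => Finset.measurable_fun_sum _ fun i _ => ?_
    exact (measurable_const.indicator (hDm K i)).comp (hφ.mp _).measurable
  have hle : ∀ᵐ z ∂(liou P), ENNReal.ofReal |f (φ t z).2 - f z.2| ≤ liminf (fun K => G K z) atTop := by
    filter_upwards [hφ.orbit, hφ.zero] with z hz hz0
    have h1 := orbit_sum2 hz ht hη hf hf2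
    refine le_liminf_of_le (by isBoundedDefault) ?_
    filter_upwards [h1] with K hK
    have hz0' : (φ 0 z).2 = z.2 := by rw [hz0]
    rw [hz0'] at hK
    refine (ENNReal.ofReal_le_ofReal hK).trans ?_
    rw [ENNReal.ofReal_sum_of_nonneg (fun k _ => Finset.sum_nonneg fun i _ =>
      Set.indicator_nonneg (fun _ _ => hη) _)]
    refine Finset.sum_le_sum fun k _ => ?_
    rw [ENNReal.ofReal_sum_of_nonneg (fun i _ => Set.indicator_nonneg (fun _ _ => hη) _)]
    refine Finset.sum_le_sum fun i _ => ?_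
    by_cases hm : φ (k * t / K) z ∈ D K i
    · rw [Set.indicator_of_mem hm, Set.indicator_of_mem (show φ (k * t / K) z ∈
        Hit (W i) (a i) (b i) (t / K) from hm)]
    · rw [Set.indicator_of_notMem (show φ (k * t / K) z ∉
        Hit (W i) (a i) (b i) (t / K) from hm), ENNReal.ofReal_zero]
      exact bot_le
  have hfatou : ∫⁻ z, liminf (fun K => G K z) atTop ∂(liou P) ≤
      liminf (fun K => ∫⁻ z, G K z ∂(liou P)) atTop := lintegral_liminf_le hGm
  have hint : ∀ K : ℕ, 0 < K → ∫⁻ z, G K z ∂(liou P) ≤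
      ENNReal.ofReal ((n * C + 1) * t * (η * w * ω)) := by
    intro K hK
    have h0 : (0 : ℝ) < K := Nat.cast_pos.2 hK
    have hε : 0 ≤ t / K := (div_pos ht h0).le
    have h1 : ∀ (k : ℕ) (i : Fin n),
        ∫⁻ z, (D K i).indicator (fun _ => ENNReal.ofReal η) (φ (k * t / K) z) ∂(liou P)
        ≤ ENNReal.ofReal η * ENNReal.ofReal (C * (t / K * w * ω)) := by
      intro k i
      have h2 : ∀ z, (D K i).indicator (fun _ => ENNReal.ofReal η) (φ (k * t / K) z)
          = (φ (k * t / K) ⁻¹' D K i).indicator (fun _ => ENNReal.ofReal η) z := fun z => rfl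
      rw [lintegral_congr h2, lintegral_indicator ((hφ.mp _).measurable (hDm K i)),
        setLIntegral_const, (hφ.mp _).measure_preimage (hDm K i).nullMeasurableSet]
      exact mul_le_mul_right (hCb i (W i) w ω (t / K) (hWm i) hw hω hε (hWw i) (hWω i)) _
    rw [hG]
    show ∫⁻ z, ∑ k ∈ Finset.range K, ∑ i,
      (D K i).indicator (fun _ => ENNReal.ofReal η) (φ (k * t / K) z) ∂(liou P) ≤ _
    have h3 : ∀ (k : ℕ) (i : Fin n), Measurable (fun z : ℂ × Ang =>
        (D K i).indicator (fun _ => ENNReal.ofReal η) (φ (k * t / K) z)) := fun k i =>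
      (measurable_const.indicator (hDm K i)).comp (hφ.mp _).measurable
    rw [lintegral_finsetSum (Finset.range K)
      (fun k _ => Finset.measurable_fun_sum _ fun i _ => h3 k i)]
    have h4 : ∀ k ∈ Finset.range K, ∫⁻ z, ∑ i,
        (D K i).indicator (fun _ => ENNReal.ofReal η) (φ (k * t / K) z) ∂(liou P) ≤
        ∑ _i : Fin n, ENNReal.ofReal η * ENNReal.ofReal (C * (t / K * w * ω)) := by
      intro k _
      rw [lintegral_finsetSum Finset.univ (fun i _ => h3 k i)]
      exact Finset.sum_le_sum fun i _ => h1 k i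
    refine (Finset.sum_le_sum h4).trans ?_
    rw [Finset.sum_const, Finset.sum_const, Finset.card_range, Finset.card_univ, Fintype.card_fin,
      nsmul_eq_mul, nsmul_eq_mul, ← ENNReal.ofReal_mul hη,
      ← ENNReal.ofReal_natCast, ← ENNReal.ofReal_natCast, ← ENNReal.ofReal_mul (Nat.cast_nonneg n),
      ← ENNReal.ofReal_mul h0.le]
    apply ENNReal.ofReal_le_ofReal
    have e1 : (K : ℝ) * (n * (η * (C * (t / K * w * ω)))) = n * C * t * (η * w * ω) := by
      field_simp
    rw [e1]
    have h5 : 0 ≤ t * (η * w * ω) := by positivity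
    nlinarith
  calc ∫⁻ z, ENNReal.ofReal |f (φ t z).2 - f z.2| ∂(liou P)
      ≤ ∫⁻ z, liminf (fun K => G K z) atTop ∂(liou P) := lintegral_mono_ae hle
    _ ≤ liminf (fun K => ∫⁻ z, G K z ∂(liou P)) atTop := hfatou
    _ ≤ ENNReal.ofReal ((n * C + 1) * t * (η * w * ω)) := by
        refine liminf_le_of_frequently_le' ?_
        refine Eventually.frequently ?_
        filter_upwards [eventually_ge_atTop 1] with K hK
        exact hint K hK


end BIL
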