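import Mathlib

/-!
# MP_613dd8_an [BIL]: polygonal billiards, definitions
-/

set_option autoImplicit false

open MeasureTheory Set Filter Topology

namespace BIL

instance factTwoPi : Fact (0 < 2 * Real.pi) := ⟨Real.two_pi_pos⟩

/-- Angles modulo `2π`. -/
abbrev Ang : Type := AddCircle (2 * Real.pi)

/-- The unit vector `e^{iθ}`. -/
noncomputable def dir (θ : Ang) : ℂ := (AddCircle.toCircle θ : ℂ)

/-- The angle of the vector `w`. -/
noncomputable def ang (w : ℂ) : Ang := (Complex.arg w : Ang)

/-- `P` is a polygon with the sides `[a i, b i]`: a compact set with nonempty interior whose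
boundary is the union of the sides. -/
structure IsPolygon {n : ℕ} (P : Set ℂ) (a b : Fin n → ℂ) : Prop where
  compact : IsCompact P
  int_nonempty : (interior P).Nonempty
  ne : ∀ i, a i ≠ b i
  frontier_eq : frontier P = ⋃ i, segment ℝ (a i) (b i)

/-- `γ = (position, direction)` is a billiard orbit in `P`: the position is a continuous curve in `P`;
it is on the boundary at finitely many times in every bounded interval; as long as it is not on the
boundary the point moves with unit speed in the given direction; when it is on the boundary it is in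
the interior of exactly one side and the direction is reflected in the line of this side (the
directions at this time and immediately before it are symmetric). -/
structure IsOrbit {n : ℕ} (P : Set ℂ) (a b : Fin n → ℂ) (γ : ℝ → ℂ × Ang) : Prop where
  mem : ∀ t, (γ t).1 ∈ P
  cont : Continuous fun t => (γ t).1
  finite : ∀ s t : ℝ, {τ | τ ∈ Icc s t ∧ (γ τ).1 ∈ frontier P}.Finite
  free : ∀ s t : ℝ, s ≤ t → (∀ τ ∈ Ioc s t, (γ τ).1 ∉ frontier P) →
    (γ t).2 = (γ s).2 ∧ (γ t).1 = (γ s).1 + (t - s) * dir (γ s).2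
  refl : ∀ τ : ℝ, (γ τ).1 ∈ frontier P → ∃ i, (γ τ).1 ∈ openSegment ℝ (a i) (b i) ∧
    (∀ j, j ≠ i → (γ τ).1 ∉ segment ℝ (a j) (b j)) ∧
    ∃ ε > 0, ∀ s ∈ Ioo (τ - ε) τ, (γ τ).2 = (2 : ℕ) • ang (b i - a i) - (γ s).2

/-- The normalised Lebesgue measure on `P × S¹`. -/
noncomputable def liou (P : Set ℂ) : Measure (ℂ × Ang) :=
  ProbabilityTheory.cond (volume : Measure (ℂ × Ang)) (P ×ˢ univ)

/-- `φ` is a billiard flow of the polygon `P`: a flow of measure preserving maps (defined almost
everywhere) whose orbits are billiard orbits for almost every initial point. -/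
structure IsBilliardFlow {n : ℕ} (P : Set ℂ) (a b : Fin n → ℂ) (φ : ℝ → ℂ × Ang → ℂ × Ang) :
    Prop where
  mp : ∀ t, MeasurePreserving (φ t) (liou P) (liou P)
  zero : ∀ᵐ z ∂(liou P), φ 0 z = z
  add : ∀ s t, ∀ᵐ z ∂(liou P), φ (s + t) z = φ s (φ t z)
  orbit : ∀ᵐ z ∂(liou P), IsOrbit P a b fun t => φ t z

/-- The correlation at time `t` of an observable that depends on the direction only. -/
noncomputable def corr (P : Set ℂ) (φ : ℝ → ℂ × Ang → ℂ × Ang) (g : Ang → ℝ) (t : ℝ) : ℝ :=
  ∫ z, g (φ t z).2 * g z.2 ∂(liou P) - (∫ z, g z.2 ∂(liou P)) ^ 2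

/-- The function `cos (m (θ - c))` of the angle. -/
noncomputable def cosm (m : ℕ) (c θ : Ang) : ℝ := (dir (m • (θ - c))).re

end BIL
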