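import Pool.Agent.BIL.C0

/-!
# [BIL-E1] a good approximation and the covering radius
-/

set_option autoImplicit false

open MeasureTheory Set Filter Topology

namespace BIL

/-- [E1] Let `q ≥ 1` be the smallest number with `‖q • A‖ ≤ 2π / (Q + 1)`; it is at most `Q` by Dirichlet's theorem
(`AddCircle.exists_norm_nsmul_le`). Let `x` be a real representative of `A`; `q x = 2π p + e` with `p : ℤ`, `|e| = ‖q • A‖` (`AddCircle.norm_eq`). `p` and `q` are
coprime: if `d > 1` divides both, then `(q / d) x = 2π (p / d) + e / d`, so `‖(q / d) • A‖ ≤ |e| / d` contradicts the minimality of `q`.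

For `y` let `l` be an integer with `|y - 2π l / q| ≤ π / q` (`y` a real representative) and `0 ≤ k < q` with `k p ≡ l mod q`. Then
`k x = 2π k p / q + k e / q`, and `2π k p / q ≡ 2π l / q` mod `2π`, so
`‖y - k • A‖ ≤ π / q + k |e| / q ≤ π / q + 2π / (Q + 1) ≤ 3π / q`. -/
theorem good_approx (A : Ang) {Q : ℕ} (hQ : 0 < Q) :
    ∃ q : ℕ, 0 < q ∧ q ≤ Q ∧ ‖q • A‖ ≤ 2 * Real.pi / (Q + 1) ∧
      ∀ y : Ang, ∃ k : ℕ, k < q ∧ ‖y - k • A‖ ≤ 3 * Real.pi / q := by
  classical
  have hpi := Real.pi_pos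
  have hQr : (0 : ℝ) < Q := by exact_mod_cast hQ
  have hnorm : ∀ x : ℝ, ‖(x : Ang)‖ ≤ |x| := fun x => by
    have := QuotientAddGroup.norm_mk_le_norm (S := AddSubgroup.zmultiples (2 * Real.pi)) (m := x)
    exact this
  -- the smallest `q`
  have hex : ∃ q : ℕ, 0 < q ∧ ‖q • A‖ ≤ 2 * Real.pi / (Q + 1) := by
    obtain ⟨j, hj, h⟩ := AddCircle.exists_norm_nsmul_le (T := 2 * Real.pi) A hQ
    refine ⟨j, hj.1, ?_⟩
    push_cast at h
    exact h
  have hmin : ∀ m : ℕ, m < Nat.find hex → 0 < m → ¬ ‖m • A‖ ≤ 2 * Real.pi / (Q + 1) :=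
    fun m hm h0 h => Nat.find_min hex hm ⟨h0, h⟩
  obtain ⟨hq0, hqn⟩ := Nat.find_spec hex
  have hqQ : Nat.find hex ≤ Q := by
    obtain ⟨j, hj, h⟩ := AddCircle.exists_norm_nsmul_le (T := 2 * Real.pi) A hQ
    refine (Nat.find_min' hex ⟨hj.1, ?_⟩).trans hj.2
    push_cast at h
    exact h
  obtain ⟨q, hq⟩ : ∃ q, q = Nat.find hex := ⟨_, rfl⟩
  rw [← hq] at hmin hq0 hqn hqQ
  have hqr : (0 : ℝ) < q := by exact_mod_cast hq0
  obtain ⟨x, rfl⟩ := QuotientAddGroup.mk_surjective A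
  have hcoe : ∀ (m : ℕ), m • ((x : ℝ) : Ang) = ((m * x : ℝ) : Ang) := fun m => by
    rw [← nsmul_eq_mul, AddCircle.coe_nsmul]
  have hper : ∀ (y : ℝ) (m : ℤ), ((y + 2 * Real.pi * m : ℝ) : Ang) = (y : Ang) := fun y m => by
    rw [AddCircle.coe_add]
    have : ((2 * Real.pi * m : ℝ) : Ang) = 0 := by
      rw [mul_comm _ (m : ℝ), ← zsmul_eq_mul, AddCircle.coe_zsmul, AddCircle.coe_period, smul_zero]
    rw [this, add_zero]
  set p : ℤ := round ((2 * Real.pi)⁻¹ * (q * x)) with hp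
  set e : ℝ := q * x - p * (2 * Real.pi) with he
  have hen : |e| ≤ 2 * Real.pi / (Q + 1) := by
    have h1 := AddCircle.norm_eq (p := 2 * Real.pi) (x := (q * x : ℝ))
    rw [he, hp, ← h1, ← hcoe]
    exact hqn
  have hqx : q * x = 2 * Real.pi * p + e := by
    rw [he]
    ring
  -- coprime
  have hcop : IsCoprime p (q : ℤ) := by
    rw [Int.isCoprime_iff_gcd_eq_one]
    by_contra hne
    obtain ⟨d, hd⟩ : ∃ d, d = Int.gcd p q := ⟨_, rfl⟩
    rw [← hd] at hne
    have hd0 : d ≠ 0 := by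
      intro h0
      rw [h0] at hd
      have := (Int.gcd_eq_zero_iff.1 hd.symm).2
      omega
    have hd2 : 2 ≤ d := by omega
    obtain ⟨p', hp'⟩ : (d : ℤ) ∣ p := hd ▸ Int.gcd_dvd_left ..
    obtain ⟨q', hq'⟩ : (d : ℤ) ∣ (q : ℤ) := hd ▸ Int.gcd_dvd_right ..
    have hq'0 : 0 < q' := by
      have h1 : (0 : ℤ) < d * q' := by
        rw [← hq']
        exact_mod_cast hq0
      have h2 : (0 : ℤ) < d := by omega
      exact (mul_pos_iff_of_pos_left h2).1 h1
    obtain ⟨q'', rfl⟩ : ∃ n : ℕ, q' = n := ⟨q'.toNat, by omega⟩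
    have hq''0 : 0 < q'' := by omega
    have hqd : q = d * q'' := by exact_mod_cast hq'
    have hlt : q'' < q := by
      rw [hqd]
      nlinarith
    refine hmin q'' hlt hq''0 ?_
    have hdr : (0 : ℝ) < d := by
      have : 0 < d := by omega
      exact_mod_cast this
    have hdr2 : (1 : ℝ) ≤ d := by
      have : 1 ≤ d := by omega
      exact_mod_cast this
    have h3 : (q'' * x : ℝ) = e / d + 2 * Real.pi * p' := by
      have h4 : (q : ℝ) = d * q'' := by exact_mod_cast hqd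
      have h5 : (p : ℝ) = d * p' := by exact_mod_cast hp'
      rw [h4, h5] at hqx
      field_simp
      linarith
    show ‖q'' • ((x : ℝ) : Ang)‖ ≤ _
    rw [hcoe, h3, hper]
    refine (hnorm _).trans ?_
    rw [abs_div, abs_of_pos hdr]
    exact (div_le_self (abs_nonneg _) hdr2).trans hen
  refine ⟨q, hq0, hqQ, hqn, fun y => ?_⟩
  obtain ⟨Y, rfl⟩ := QuotientAddGroup.mk_surjective y
  obtain ⟨u, v, huv⟩ := hcop
  set l : ℤ := round (Y * q / (2 * Real.pi)) with hl
  have hqz : (0 : ℤ) < q := by exact_mod_cast hq0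
  have hk0 : 0 ≤ (u * l) % (q : ℤ) := Int.emod_nonneg _ hqz.ne'
  have hkq : (u * l) % (q : ℤ) < q := Int.emod_lt_of_pos _ hqz
  obtain ⟨k, hk⟩ : ∃ k : ℕ, (u * l) % (q : ℤ) = k := ⟨((u * l) % (q : ℤ)).toNat, by omega⟩
  rw [hk] at hkq
  have hkq' : k < q := by exact_mod_cast hkq
  -- `l - k p = q m`
  obtain ⟨m, hm⟩ : ∃ m : ℤ, l - k * p = q * m := by
    have h1 : u * l = q * ((u * l) / q) + k := by
      rw [← hk]
      exact (Int.mul_ediv_add_emod _ _).symm
    refine ⟨v * l + ((u * l) / q) * p, ?_⟩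
    have h2 : l = (u * p + v * q) * l := by rw [huv, one_mul]
    have h3 : (k : ℤ) = u * l - q * ((u * l) / q) := by omega
    calc l - k * p = (u * p + v * q) * l - (u * l - q * ((u * l) / q)) * p := by rw [← h2, h3]
      _ = q * (v * l + ((u * l) / q) * p) := by ring
  refine ⟨k, hkq', ?_⟩
  show ‖((Y : ℝ) : Ang) - k • ((x : ℝ) : Ang)‖ ≤ _
  rw [hcoe, ← AddCircle.coe_sub]
  have hmr : (l : ℝ) - k * p = q * m := by exact_mod_cast hm
  have h4 : Y - k * x = ((Y - 2 * Real.pi * l / q) - k * e / q) + 2 * Real.pi * m := by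
    have h5 : x = (2 * Real.pi * p + e) / q := by
      rw [← hqx]
      field_simp
    have h6 : (m : ℝ) = (l - k * p) / q := by
      rw [hmr]
      field_simp
    rw [h6]
    nth_rewrite 1 [h5]
    field_simp
    ring
  rw [h4, hper]
  refine (hnorm _).trans ((abs_sub _ _).trans ?_)
  have h7 : |Y - 2 * Real.pi * l / q| ≤ Real.pi / q := by
    have h8 := abs_sub_round (Y * q / (2 * Real.pi))
    rw [← hl] at h8
    have h9 : Y - 2 * Real.pi * l / q = (Y * q / (2 * Real.pi) - l) * (2 * Real.pi / q) := by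
      field_simp
    rw [h9, abs_mul, abs_of_pos (by positivity : 0 < 2 * Real.pi / q)]
    calc |Y * q / (2 * Real.pi) - l| * (2 * Real.pi / q) ≤ 1 / 2 * (2 * Real.pi / q) :=
          mul_le_mul_of_nonneg_right h8 (by positivity)
      _ = Real.pi / q := by ring
  have h8 : |(k : ℝ) * e / q| ≤ 2 * Real.pi / q := by
    rw [abs_div, abs_mul, Nat.abs_cast, abs_of_pos hqr]
    have h9 : (k : ℝ) ≤ q := by exact_mod_cast hkq'.le
    have h10 : |e| ≤ 2 * Real.pi / q := by
      refine hen.trans (div_le_div_of_nonneg_left (by positivity) hqr ?_)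
      have : (q : ℝ) ≤ Q := by exact_mod_cast hqQ
      linarith
    calc (k : ℝ) * |e| / q ≤ q * (2 * Real.pi / q) / q := by gcongr
      _ = 2 * Real.pi / q := by field_simp
  have h11 : 3 * Real.pi / q = Real.pi / q + 2 * Real.pi / q := by ring
  rw [h11]
  exact add_le_add h7 h8

end BIL
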