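import Pool.Agent.BIL.C0

/-!
# [BIL-E2] the distance function DD: first facts
-/

set_option autoImplicit false

open MeasureTheory Set Filter Topology

namespace BIL

/-- [E2a] The set `SS` is nonempty and finite. -/
theorem SS_fin (A' : Ang) {q : ℕ} (hq : 0 < q) : (SS A' q).Finite ∧ (SS A' q).Nonempty ∧
    (SS A' q).ncard ≤ 2 * q := by
  have e : SS A' q = (fun k : ℤ => A' + k • ((2 : ℕ) • A')) '' (Set.Ico (-(q : ℤ)) q) := by
    ext y
    constructor
    · rintro ⟨k, h1, h2, h3⟩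
      exact ⟨k, ⟨h1, h2⟩, h3.symm⟩
    · rintro ⟨k, ⟨h1, h2⟩, h3⟩
      exact ⟨k, h1, h2, h3.symm⟩
  have hf : (Set.Ico (-(q : ℤ)) q).Finite := Set.finite_Ico _ _
  refine ⟨?_, ?_, ?_⟩
  · rw [e]
    exact hf.image _
  · exact ⟨A' + (0 : ℤ) • ((2 : ℕ) • A'), 0, by omega, by omega, rfl⟩
  · rw [e]
    refine (Set.ncard_image_le hf).trans ?_
    rw [← Finset.coe_Ico, Set.ncard_coe_finset, Int.card_Ico]
    omega


/-- [E2b] `Metric.lipschitz_infDist_pt`. -/
theorem DD_lip (A' : Ang) (q : ℕ) : LipschitzWith 1 (DD A' q) := by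
  exact Metric.lipschitz_infDist_pt _


/-- [E2c] `SS A' q` is symmetric: `-(A' + k (2 A')) = A' + (-k - 1) (2 A')`. -/
theorem DD_neg (A' y : Ang) (q : ℕ) : DD A' q (-y) = DD A' q y := by
  have hiso : Isometry (fun x : Ang => -x) := Isometry.of_dist_eq fun x y => dist_neg_neg x y
  have e : (fun x : Ang => -x) '' SS A' q = SS A' q := by
    have h1 : ∀ x ∈ SS A' q, -x ∈ SS A' q := by
      rintro x ⟨k, h1, h2, h3⟩
      refine ⟨-k - 1, by omega, by omega, ?_⟩
      rw [h3, two_nsmul, sub_smul, neg_smul, one_smul]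
      abel
    ext x
    constructor
    · rintro ⟨y, hy, rfl⟩
      exact h1 y hy
    · intro hx
      exact ⟨-x, h1 x hx, neg_neg x⟩
  have h := Metric.infDist_image hiso (x := y) (t := SS A' q)
  rw [e] at h
  exact h


end BIL
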