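import Pool.Agent.BIL.E2

/-!
# [BIL-E2b] the distance function DD: reflections
-/

set_option autoImplicit false

open MeasureTheory Set Filter Topology

namespace BIL

/-- the middle part of `SS` -/
def E2b_S0 (A' : Ang) (q : ℕ) : Set Ang :=
  {y | ∃ k : ℤ, -(q : ℤ) < k ∧ k < q ∧ y = A' + k • ((2 : ℕ) • A')}

theorem E2b_S0_fin (A' : Ang) (q : ℕ) : (E2b_S0 A' q).Finite := by
  have h : E2b_S0 A' q ⊆ (fun k : ℤ => A' + k • ((2 : ℕ) • A')) '' (Set.Ioo (-(q : ℤ)) q) := by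
    rintro y ⟨k, h1, h2, rfl⟩
    exact ⟨k, ⟨h1, h2⟩, rfl⟩
  exact ((Set.finite_Ioo _ _).image _).subset h

theorem E2b_S0_mem (A' : Ang) {q : ℕ} (hq : 0 < q) : A' ∈ E2b_S0 A' q :=
  ⟨0, by omega, by omega, by simp⟩

theorem E2b_SS (A' : Ang) {q : ℕ} (hq : 0 < q) :
    SS A' q = E2b_S0 A' q ∪ {A' - q • ((2 : ℕ) • A')} := by
  ext y
  constructor
  · rintro ⟨k, h1, h2, rfl⟩
    rcases eq_or_lt_of_le h1 with h3 | h3
    · right
      rw [← h3, Set.mem_singleton_iff, neg_smul, natCast_zsmul, sub_eq_add_neg]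
    · left
      exact ⟨k, h3, h2, rfl⟩
  · rintro (⟨k, h1, h2, rfl⟩ | h)
    · exact ⟨k, h1.le, h2, rfl⟩
    · rw [Set.mem_singleton_iff] at h
      exact ⟨-(q : ℤ), le_refl _, by omega, by rw [h, neg_smul, natCast_zsmul, sub_eq_add_neg]⟩

/-- The distance to a union of a finite nonempty set and a point. -/
theorem E2b_inf (S : Set Ang) (hS : S.Nonempty) (x y : Ang) :
    Metric.infDist y (S ∪ {x}) = min (Metric.infDist y S) ‖y - x‖ := by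
  unfold Metric.infDist
  rw [Metric.infEDist_union, Metric.infEDist_singleton]
  rw [ENNReal.toReal_min (Metric.infEDist_ne_top hS) (edist_ne_top _ _), edist_dist,
    ENNReal.toReal_ofReal dist_nonneg, dist_eq_norm]

theorem E2b_DD (A' y : Ang) {q : ℕ} (hq : 0 < q) :
    DD A' q y = min (Metric.infDist y (E2b_S0 A' q)) ‖y - (A' - q • ((2 : ℕ) • A'))‖ := by
  unfold DD
  rw [E2b_SS A' hq, E2b_inf _ ⟨_, E2b_S0_mem A' hq⟩]

/-- the reflected set: `2 A' - S₀ = S₀` -/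
theorem E2b_S0_refl (A' : Ang) (q : ℕ) (z : Ang) :
    z ∈ E2b_S0 A' q ↔ (2 : ℕ) • A' - z ∈ E2b_S0 A' q := by
  have h : ∀ z, z ∈ E2b_S0 A' q → (2 : ℕ) • A' - z ∈ E2b_S0 A' q := by
    rintro z ⟨k, h1, h2, rfl⟩
    refine ⟨-k, by omega, by omega, ?_⟩
    rw [neg_smul, two_nsmul]
    abel
  refine ⟨h z, fun hz => ?_⟩
  have := h _ hz
  rwa [sub_sub_cancel] at this

theorem E2b_inf_refl (A' y : Ang) (q : ℕ) :
    Metric.infDist ((2 : ℕ) • A' - y) (E2b_S0 A' q) = Metric.infDist y (E2b_S0 A' q) := by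
  unfold Metric.infDist
  congr 1
  apply le_antisymm
  · rw [Metric.le_infEDist]
    intro z hz
    refine (Metric.infEDist_le_edist_of_mem ((E2b_S0_refl A' q z).1 hz)).trans (le_of_eq ?_)
    rw [edist_dist, edist_dist, dist_eq_norm, dist_eq_norm, ← norm_neg (y - z)]
    congr 2
    abel
  · rw [Metric.le_infEDist]
    intro z hz
    refine (Metric.infEDist_le_edist_of_mem ((E2b_S0_refl A' q z).1 hz)).trans (le_of_eq ?_)
    rw [edist_dist, edist_dist, dist_eq_norm, dist_eq_norm, ← norm_neg]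
    congr 2
    abel

theorem E2b_DD_refl (A' y : Ang) {q : ℕ} (hq : 0 < q) :
    DD A' q ((2 : ℕ) • A' - y) =
      min (Metric.infDist y (E2b_S0 A' q)) ‖y - (A' + q • ((2 : ℕ) • A'))‖ := by
  rw [E2b_DD A' _ hq, E2b_inf_refl]
  congr 1
  rw [← norm_neg, two_nsmul]
  congr 1
  abel

theorem DD_refl (A' y : Ang) {q : ℕ} (hq : 0 < q) :
    |DD A' q ((2 : ℕ) • A' - y) - DD A' q y| ≤ ‖q • ((2 : ℕ) • A')‖ := by
  rw [E2b_DD_refl A' y hq, E2b_DD A' y hq]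
  set s := Metric.infDist y (E2b_S0 A' q) with hs
  have hs1 : s ≤ ‖y - A'‖ := by
    rw [← dist_eq_norm]
    exact Metric.infDist_le_dist_of_mem (E2b_S0_mem A' hq)
  have h1 : ‖y - A'‖ ≤ ‖y - (A' - q • ((2 : ℕ) • A'))‖ + ‖q • ((2 : ℕ) • A')‖ := by
    have h2 : y - A' = (y - (A' - q • ((2 : ℕ) • A'))) - q • ((2 : ℕ) • A') := by abel
    calc ‖y - A'‖ = ‖(y - (A' - q • ((2 : ℕ) • A'))) - q • ((2 : ℕ) • A')‖ := by rw [← h2]
      _ ≤ _ := norm_sub_le _ _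
  have h2 : ‖y - A'‖ ≤ ‖y - (A' + q • ((2 : ℕ) • A'))‖ + ‖q • ((2 : ℕ) • A')‖ := by
    have h2 : y - A' = (y - (A' + q • ((2 : ℕ) • A'))) + q • ((2 : ℕ) • A') := by abel
    calc ‖y - A'‖ = ‖(y - (A' + q • ((2 : ℕ) • A'))) + q • ((2 : ℕ) • A')‖ := by rw [← h2]
      _ ≤ _ := norm_add_le _ _
  have h0 := norm_nonneg (q • ((2 : ℕ) • A'))
  rw [abs_le]
  constructor
  · rcases min_choice s ‖y - (A' + q • ((2 : ℕ) • A'))‖ with h | h
    · rw [h]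
      have := min_le_left s ‖y - (A' - q • ((2 : ℕ) • A'))‖
      linarith
    · rw [h]
      have := min_le_left s ‖y - (A' - q • ((2 : ℕ) • A'))‖
      linarith
  · rcases min_choice s ‖y - (A' - q • ((2 : ℕ) • A'))‖ with h | h
    · rw [h]
      have := min_le_left s ‖y - (A' + q • ((2 : ℕ) • A'))‖
      linarith
    · rw [h]
      have := min_le_left s ‖y - (A' + q • ((2 : ℕ) • A'))‖
      linarith

theorem E2b_s_le (A' y : Ang) {q : ℕ} {κ : ℝ} (hq : 0 < q)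
    (hκ : ∀ y : Ang, ∃ k : ℕ, k < q ∧ ‖y - k • ((2 : ℕ) • A')‖ ≤ κ) :
    Metric.infDist y (E2b_S0 A' q) ≤ κ := by
  obtain ⟨k, hk, h1⟩ := hκ (y - A')
  have h2 : A' + (k : ℤ) • ((2 : ℕ) • A') ∈ E2b_S0 A' q := ⟨k, by omega, by exact_mod_cast hk, rfl⟩
  refine (Metric.infDist_le_dist_of_mem h2).trans ?_
  rw [dist_eq_norm, natCast_zsmul]
  have h3 : y - (A' + k • ((2 : ℕ) • A')) = y - A' - k • ((2 : ℕ) • A') := by abel
  rw [h3]
  exact h1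

theorem DD_refl_eq (A' y : Ang) {q : ℕ} {κ : ℝ} (hq : 0 < q)
    (hκ : ∀ y : Ang, ∃ k : ℕ, k < q ∧ ‖y - k • ((2 : ℕ) • A')‖ ≤ κ)
    (hy : κ + ‖q • ((2 : ℕ) • A')‖ ≤ ‖y - A'‖) :
    DD A' q ((2 : ℕ) • A' - y) = DD A' q y := by
  rw [E2b_DD_refl A' y hq, E2b_DD A' y hq]
  have hs := E2b_s_le A' y hq hκ
  have h1 : ‖y - A'‖ ≤ ‖y - (A' - q • ((2 : ℕ) • A'))‖ + ‖q • ((2 : ℕ) • A')‖ := by
    have h2 : y - A' = (y - (A' - q • ((2 : ℕ) • A'))) - q • ((2 : ℕ) • A') := by abel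
    calc ‖y - A'‖ = ‖(y - (A' - q • ((2 : ℕ) • A'))) - q • ((2 : ℕ) • A')‖ := by rw [← h2]
      _ ≤ _ := norm_sub_le _ _
  have h2 : ‖y - A'‖ ≤ ‖y - (A' + q • ((2 : ℕ) • A'))‖ + ‖q • ((2 : ℕ) • A')‖ := by
    have h2 : y - A' = (y - (A' + q • ((2 : ℕ) • A'))) + q • ((2 : ℕ) • A') := by abel
    calc ‖y - A'‖ = ‖(y - (A' + q • ((2 : ℕ) • A'))) + q • ((2 : ℕ) • A')‖ := by rw [← h2]
      _ ≤ _ := norm_add_le _ _
  rw [min_eq_left (by linarith), min_eq_left (by linarith)]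

theorem DD_le (A' y : Ang) {q : ℕ} {κ : ℝ}
    (hκ : ∀ y : Ang, ∃ k : ℕ, k < q ∧ ‖y - k • ((2 : ℕ) • A')‖ ≤ κ) :
    0 ≤ DD A' q y ∧ DD A' q y ≤ κ := by
  refine ⟨Metric.infDist_nonneg, ?_⟩
  have hq : 0 < q := by
    obtain ⟨k, hk, -⟩ := hκ 0
    omega
  rw [E2b_DD A' y hq]
  exact (min_le_left _ _).trans (E2b_s_le A' y hq hκ)

end BIL
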