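import Pool.Agent.BIL.C0

/-!
# [BIL-E3] distance functions on the circle
-/

set_option autoImplicit false

open MeasureTheory Set Filter Topology

namespace BIL

theorem E3_norm_le (r : ℝ) : ‖(r : Ang)‖ ≤ |r| := by
  have h := QuotientAddGroup.norm_mk_le_norm (S := AddSubgroup.zmultiples (2 * Real.pi)) (m := r)
  rwa [Real.norm_eq_abs] at h

theorem E3_rep (u : Ang) : ∃ r : ℝ, (r : Ang) = u ∧ |r| = ‖u‖ := by
  obtain ⟨x, rfl⟩ := QuotientAddGroup.mk_surjective u
  change ∃ r : ℝ, (r : Ang) = (x : Ang) ∧ |r| = ‖(x : Ang)‖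
  rw [AddCircle.norm_eq]
  refine ⟨x - round ((2 * Real.pi)⁻¹ * x) * (2 * Real.pi), ?_, rfl⟩
  rw [AddCircle.coe_sub, sub_eq_self, ← zsmul_eq_mul, AddCircle.coe_zsmul, AddCircle.coe_period,
    smul_zero]

/-- [E3a] A point `y` with nearest point `x ∈ S` at distance `d ≥ s`: `y - x` has the representative `±d`, `0 ≤ d ≤ π`. If it is `+d` then `‖(y - s) - x‖ = d - s`, so
`infDist (y - s) S ≤ infDist y S - s`, and if it is `-d` then `infDist (y + s) S ≤ infDist y S - s`. -/
theorem move (S : Set Ang) (hS : S.Finite) (hS' : S.Nonempty) (y : Ang) {s : ℝ} (hs : 0 ≤ s)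
    (hy : s ≤ Metric.infDist y S) :
    Metric.infDist (y - (s : Ang)) S ≤ Metric.infDist y S - s ∨
      Metric.infDist (y + (s : Ang)) S ≤ Metric.infDist y S - s := by
  obtain ⟨x, hx, hd⟩ := hS.isCompact.exists_infDist_eq_dist hS' y
  obtain ⟨r, hr, hr2⟩ := E3_rep (y - x)
  rw [hd] at hy ⊢
  have hdn : dist y x = |r| := by rw [hr2, dist_eq_norm]
  rw [hdn] at hy ⊢
  rcases le_total 0 r with h0 | h0
  · left
    refine (Metric.infDist_le_dist_of_mem hx).trans ?_
    have e : y - (s : Ang) - x = ((r - s : ℝ) : Ang) := by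
      rw [AddCircle.coe_sub, hr]
      abel
    rw [dist_eq_norm, e]
    refine (E3_norm_le _).trans (le_of_eq ?_)
    rw [abs_of_nonneg h0] at hy ⊢
    exact abs_of_nonneg (by linarith)
  · right
    refine (Metric.infDist_le_dist_of_mem hx).trans ?_
    have e : y + (s : Ang) - x = ((r + s : ℝ) : Ang) := by
      rw [AddCircle.coe_add, hr]
      abel
    rw [dist_eq_norm, e]
    refine (E3_norm_le _).trans (le_of_eq ?_)
    rw [abs_of_nonpos h0] at hy ⊢
    rw [abs_of_nonpos (by linarith)]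
    ring

/-- [E3b] The set where `infDist y S < s` is the union of at most `N` balls of radius `s` (`AddCircle.volume_closedBall` gives volume `≤ 2 s` each). -/
theorem vol_near (S : Set Ang) (hS : S.Finite) (hS' : S.Nonempty) {N : ℕ} (hN : S.ncard ≤ N) {s : ℝ}
    (hs : 0 ≤ s) : volume {y : Ang | Metric.infDist y S < s} ≤ ENNReal.ofReal (N * (2 * s)) := by
  have hsub : {y : Ang | Metric.infDist y S < s} ⊆ ⋃ x ∈ hS.toFinset, Metric.closedBall x s := by
    intro y hy
    have hy' : Metric.infDist y S < s := hy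
    obtain ⟨x, hx, hd⟩ := hS.isCompact.exists_infDist_eq_dist hS' y
    refine mem_iUnion₂.2 ⟨x, (hS.mem_toFinset).2 hx, ?_⟩
    rw [Metric.mem_closedBall, ← hd]
    exact hy'.le
  have hcard : hS.toFinset.card ≤ N := by
    rw [← Set.ncard_eq_toFinset_card S hS]
    exact hN
  calc volume {y : Ang | Metric.infDist y S < s} ≤
      volume (⋃ x ∈ hS.toFinset, Metric.closedBall x s) := measure_mono hsub
    _ ≤ ∑ x ∈ hS.toFinset, volume (Metric.closedBall x s) := measure_biUnion_finset_le _ _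
    _ ≤ ∑ _x ∈ hS.toFinset, ENNReal.ofReal (2 * s) := by
        refine Finset.sum_le_sum fun x _ => ?_
        rw [AddCircle.volume_closedBall]
        exact ENNReal.ofReal_le_ofReal (min_le_right _ _)
    _ = (hS.toFinset.card : ENNReal) * ENNReal.ofReal (2 * s) := by
        rw [Finset.sum_const, nsmul_eq_mul]
    _ ≤ (N : ENNReal) * ENNReal.ofReal (2 * s) := by
        gcongr
    _ = ENNReal.ofReal (N * (2 * s)) := by
        rw [ENNReal.ofReal_mul (Nat.cast_nonneg N), ENNReal.ofReal_natCast]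

end BIL
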