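import Pool.Agent.BIL.E3

/-!
# [BIL-E3c] the variance of a distance function
-/

set_option autoImplicit false

open MeasureTheory Set Filter Topology

namespace BIL

/-- [E3c] Lower bound for the variance: `D y = infDist y S`, `s = π / (2 N)`. By [E3a] for `D y ≥ s`:
`(D (y - s) - D y)² + (D (y + s) - D y)² ≥ s²`; by [E3b] the set `D ≥ s` has volume at least `2π - 2 N s = π`. So `∫ (D (y - s) - D y)² + ∫ (D (y + s) - D y)² ≥ π s²`; the two
integrals are equal (translation invariance), and for every constant `m`,
`(D (y + s) - D y)² ≤ 2 (D (y + s) - m)² + 2 (D y - m)²`, so `π s² / 2 ≤ ∫ (D (y + s) - D y)² ≤ 4 ∫ (D - m)²`. Hence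
`∫ (D - m)² ≥ π s² / 8 = π³ / (32 N²)`. -/
theorem var_ge (S : Set Ang) (hS : S.Finite) (hS' : S.Nonempty) {N : ℕ} (hN : S.ncard ≤ N)
    (hN0 : 0 < N) (m : ℝ) :
    Real.pi ^ 3 / (32 * (N : ℝ) ^ 2) ≤ ∫ y : Ang, (Metric.infDist y S - m) ^ 2 := by
  have hNr : (0 : ℝ) < N := by exact_mod_cast hN0
  have hpi := Real.pi_pos
  set s : ℝ := Real.pi / (2 * N) with hs
  have hs0 : 0 < s := by positivity
  have hD : Continuous (fun y : Ang => Metric.infDist y S) := Metric.continuous_infDist_pt S
  have hint : ∀ F : Ang → ℝ, Continuous F → Integrable F (volume : Measure Ang) := fun F hF =>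
    hF.integrable_of_hasCompactSupport (HasCompactSupport.of_compactSpace F)
  have hp : Continuous (fun y : Ang => Metric.infDist (y + (s : Ang)) S) :=
    hD.comp (continuous_id.add continuous_const)
  have hm : Continuous (fun y : Ang => Metric.infDist (y - (s : Ang)) S) :=
    hD.comp (continuous_id.sub continuous_const)
  have hGm : MeasurableSet {y : Ang | s ≤ Metric.infDist y S} :=
    (isClosed_le continuous_const hD).measurableSet
  have hG : Real.pi ≤ (volume {y : Ang | s ≤ Metric.infDist y S}).toReal := by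
    have h1 : volume {y : Ang | Metric.infDist y S < s} ≤ ENNReal.ofReal Real.pi := by
      refine (vol_near S hS hS' hN hs0.le).trans (le_of_eq ?_)
      congr 1
      rw [hs]
      field_simp
    have h2 : volume (univ : Set Ang) = ENNReal.ofReal (2 * Real.pi) := AddCircle.measure_univ _
    have h3 : ({y : Ang | s ≤ Metric.infDist y S})ᶜ = {y : Ang | Metric.infDist y S < s} := by
      ext y
      simp
    have h4 : ENNReal.ofReal (2 * Real.pi) ≤ volume {y : Ang | s ≤ Metric.infDist y S} +
        ENNReal.ofReal Real.pi := by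
      rw [← h2, ← measure_add_measure_compl hGm, h3]
      exact add_le_add_right h1 _
    have h5 : volume {y : Ang | s ≤ Metric.infDist y S} ≠ ⊤ :=
      ne_top_of_le_ne_top (by rw [h2]; exact ENNReal.ofReal_ne_top) (measure_mono (subset_univ _))
    have h6 := ENNReal.toReal_mono (ENNReal.add_ne_top.2 ⟨h5, ENNReal.ofReal_ne_top⟩) h4
    rw [ENNReal.toReal_ofReal (by positivity), ENNReal.toReal_add h5 ENNReal.ofReal_ne_top,
      ENNReal.toReal_ofReal hpi.le] at h6
    linarith
  have hpt : ∀ y ∈ {y : Ang | s ≤ Metric.infDist y S}, s ^ 2 ≤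
      (Metric.infDist (y - (s : Ang)) S - Metric.infDist y S) ^ 2 +
      (Metric.infDist (y + (s : Ang)) S - Metric.infDist y S) ^ 2 := by
    intro y hy
    rcases move S hS hS' y hs0.le hy with h | h
    · have h1 : s ^ 2 ≤ (Metric.infDist (y - (s : Ang)) S - Metric.infDist y S) ^ 2 := by
        nlinarith
      nlinarith [sq_nonneg (Metric.infDist (y + (s : Ang)) S - Metric.infDist y S)]
    · have h1 : s ^ 2 ≤ (Metric.infDist (y + (s : Ang)) S - Metric.infDist y S) ^ 2 := by
        nlinarith
      nlinarith [sq_nonneg (Metric.infDist (y - (s : Ang)) S - Metric.infDist y S)]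
  have hA : Real.pi * s ^ 2 ≤ ∫ y : Ang, ((Metric.infDist (y - (s : Ang)) S - Metric.infDist y S) ^ 2 +
      (Metric.infDist (y + (s : Ang)) S - Metric.infDist y S) ^ 2) := by
    have hI : Integrable (fun y : Ang =>
        ((Metric.infDist (y - (s : Ang)) S - Metric.infDist y S) ^ 2 +
        (Metric.infDist (y + (s : Ang)) S - Metric.infDist y S) ^ 2)) (volume : Measure Ang) :=
      hint _ (((hm.sub hD).pow 2).add ((hp.sub hD).pow 2))
    calc Real.pi * s ^ 2 ≤ (volume {y : Ang | s ≤ Metric.infDist y S}).toReal * s ^ 2 :=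
          mul_le_mul_of_nonneg_right hG (by positivity)
      _ = ∫ y in {y : Ang | s ≤ Metric.infDist y S}, s ^ 2 := by
          rw [setIntegral_const, smul_eq_mul]
          rfl
      _ ≤ ∫ y in {y : Ang | s ≤ Metric.infDist y S},
          ((Metric.infDist (y - (s : Ang)) S - Metric.infDist y S) ^ 2 +
          (Metric.infDist (y + (s : Ang)) S - Metric.infDist y S) ^ 2) := by
          refine setIntegral_mono_on ?_ hI.integrableOn hGm hpt
          exact (hint _ continuous_const).integrableOn
      _ ≤ _ := setIntegral_le_integral hI (Eventually.of_forall fun y => by positivity)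
  have hB : ∫ y : Ang, (Metric.infDist (y - (s : Ang)) S - Metric.infDist y S) ^ 2 =
      ∫ y : Ang, (Metric.infDist (y + (s : Ang)) S - Metric.infDist y S) ^ 2 := by
    rw [← integral_add_right_eq_self (μ := (volume : Measure Ang))
      (fun y : Ang => (Metric.infDist (y - (s : Ang)) S - Metric.infDist y S) ^ 2) (s : Ang)]
    refine integral_congr_ae (Eventually.of_forall fun y => ?_)
    show (Metric.infDist (y + (s : Ang) - (s : Ang)) S - Metric.infDist (y + (s : Ang)) S) ^ 2 = _
    rw [add_sub_cancel_right]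
    ring
  have hC : ∫ y : Ang, (Metric.infDist (y + (s : Ang)) S - Metric.infDist y S) ^ 2 ≤
      4 * ∫ y : Ang, (Metric.infDist y S - m) ^ 2 := by
    have h1 : ∫ y : Ang, (Metric.infDist (y + (s : Ang)) S - m) ^ 2 =
        ∫ y : Ang, (Metric.infDist y S - m) ^ 2 :=
      integral_add_right_eq_self (μ := (volume : Measure Ang))
        (fun y : Ang => (Metric.infDist y S - m) ^ 2) (s : Ang)
    have hI1 : Integrable (fun y : Ang => 2 * (Metric.infDist (y + (s : Ang)) S - m) ^ 2)
        (volume : Measure Ang) := hint _ (continuous_const.mul ((hp.sub continuous_const).pow 2))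
    have hI2 : Integrable (fun y : Ang => 2 * (Metric.infDist y S - m) ^ 2)
        (volume : Measure Ang) := hint _ (continuous_const.mul ((hD.sub continuous_const).pow 2))
    calc ∫ y : Ang, (Metric.infDist (y + (s : Ang)) S - Metric.infDist y S) ^ 2
        ≤ ∫ y : Ang, (2 * (Metric.infDist (y + (s : Ang)) S - m) ^ 2 +
            2 * (Metric.infDist y S - m) ^ 2) := by
          refine integral_mono (hint _ ((hp.sub hD).pow 2)) (hI1.add hI2) fun y => ?_
          show (Metric.infDist (y + (s : Ang)) S - Metric.infDist y S) ^ 2 ≤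
            2 * (Metric.infDist (y + (s : Ang)) S - m) ^ 2 + 2 * (Metric.infDist y S - m) ^ 2
          nlinarith [sq_nonneg ((Metric.infDist (y + (s : Ang)) S - m) + (Metric.infDist y S - m))]
      _ = 4 * ∫ y : Ang, (Metric.infDist y S - m) ^ 2 := by
          rw [integral_add hI1 hI2, integral_const_mul, integral_const_mul, h1]
          ring
  have hJ1 : Integrable (fun y : Ang => (Metric.infDist (y - (s : Ang)) S - Metric.infDist y S) ^ 2)
      (volume : Measure Ang) := hint _ ((hm.sub hD).pow 2)
  have hJ2 : Integrable (fun y : Ang => (Metric.infDist (y + (s : Ang)) S - Metric.infDist y S) ^ 2)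
      (volume : Measure Ang) := hint _ ((hp.sub hD).pow 2)
  rw [integral_add hJ1 hJ2, hB] at hA
  have hfin : Real.pi ^ 3 / (32 * (N : ℝ) ^ 2) = Real.pi * s ^ 2 / 8 := by
    rw [hs]
    field_simp
    ring
  rw [hfin]
  linarith

end BIL
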