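import Pool.Agent.BIL.L4a

/-!
# [BIL-E4] doubling of the angle
-/

set_option autoImplicit false

open MeasureTheory Set Filter Topology

namespace BIL

/-- [E4a] `θ ↦ 2 θ` preserves the volume of the circle (`MeasureTheory.measurePreserving_zsmul`/`nsmul`-type lemmas for
compact connected groups: `AddCircle` has `ergodic_nsmul`, `measurePreserving_nsmul`; note that the volume on `AddCircle` is `2π` times the normalised Haar measure, `AddCircle.volume_eq_smul_haarAddCircle`),
and so does `θ ↦ θ - c`. -/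
theorem mp_double (c : Ang) :
    MeasurePreserving (fun θ : Ang => (2 : ℕ) • (θ - c)) volume volume := by
  have h1 : MeasurePreserving (fun y : Ang => (2 : ℕ) • y) volume volume :=
    (AddCircle.ergodic_nsmul (T := 2 * Real.pi) (n := 2) one_lt_two).toMeasurePreserving
  exact h1.comp (measurePreserving_sub_right (volume : Measure Ang) c)

/-- [E4b] From [E4a] and `AddCircle.volume_closedBall`. -/
theorem vol_W (β : Ang) {w : ℝ} (hw : 0 ≤ w) :
    volume {θ : Ang | ‖(2 : ℕ) • (θ - β)‖ < w} ≤ ENNReal.ofReal (2 * w) := by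
  have h1 : {θ : Ang | ‖(2 : ℕ) • (θ - β)‖ < w} =
      (fun θ : Ang => (2 : ℕ) • (θ - β)) ⁻¹' Metric.ball 0 w := by
    ext θ
    rw [mem_ofPred_eq, mem_preimage, mem_ball_zero_iff]
  rw [h1, (mp_double β).measure_preimage Metric.isOpen_ball.measurableSet.nullMeasurableSet]
  refine (measure_mono Metric.ball_subset_closedBall).trans ?_
  rw [AddCircle.volume_closedBall]
  exact ENNReal.ofReal_le_ofReal (min_le_right _ _)

theorem E4_dir_im (x : ℝ) : (dir (x : Ang)).im = Real.sin x := by
  unfold dir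
  rw [AddCircle.toCircle_apply_mk, div_self Real.two_pi_pos.ne', one_mul, Circle.coe_exp,
    Complex.exp_ofReal_mul_I_im]

/-- [E4c] For `u = x` mod `2π`: `|sin x|` is `π`-periodic and `|sin x| ≤ |x - π k|` for every integer `k`; the norm of `2 u` is `|2 x - 2π k|` for the nearest `k` (`AddCircle.norm_eq`). -/
theorem im_le (u : Ang) : |(dir u).im| ≤ ‖(2 : ℕ) • u‖ / 2 := by
  obtain ⟨x, rfl⟩ := QuotientAddGroup.mk_surjective u
  change |(dir (x : Ang)).im| ≤ ‖(2 : ℕ) • (x : Ang)‖ / 2
  rw [← AddCircle.coe_nsmul, nsmul_eq_mul, AddCircle.norm_eq, E4_dir_im]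
  set k : ℤ := round ((2 * Real.pi)⁻¹ * (((2 : ℕ) : ℝ) * x)) with hk
  have h1 : |Real.sin (x - k * Real.pi)| = |Real.sin x| := by
    rw [Real.sin_sub_int_mul_pi, abs_mul, abs_zpow, abs_neg, abs_one, one_zpow, one_mul]
  have h2 : |Real.sin (x - k * Real.pi)| ≤ |x - k * Real.pi| := Real.abs_sin_le_abs
  have h3 : ((2 : ℕ) : ℝ) * x - k * (2 * Real.pi) = 2 * (x - k * Real.pi) := by
    push_cast
    ring
  rw [h3, abs_mul, abs_two, mul_div_cancel_left₀ _ (two_ne_zero), ← h1]
  exact h2

end BIL
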