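import Pool.Agent.BIL.L1c

/-!
# [BIL-E4d] integrals of functions of the direction
-/

set_option autoImplicit false

open MeasureTheory Set Filter Topology

namespace BIL

/-- [E4d] Integrals of a function of the direction with respect to `liou P` are means over the circle:
`liou P = (volume (P ×ˢ univ))⁻¹ • ((volume.restrict P).prod volume)` (`Measure.prod_restrict`), `integral_prod_symm`/`integral_prod_mul`-type lemmas and
`volume (P ×ˢ univ) = volume P * 2π`. -/
theorem liou_int {n : ℕ} {P : Set ℂ} {a b : Fin n → ℂ} (hP : IsPolygon P a b) (g : Ang → ℝ)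
    (hg : Continuous g) :
    ∫ z, g z.2 ∂(liou P) = (2 * Real.pi)⁻¹ * ∫ θ : Ang, g θ := by
  obtain ⟨h1, h2, h3, h4⟩ := vol_ne hP
  have h5 : (volume : Measure (ℂ × Ang)) (P ×ˢ univ) = volume P * volume (univ : Set Ang) := by
    rw [Measure.volume_eq_prod, Measure.prod_prod]
  have h6 : volume (univ : Set Ang) = ENNReal.ofReal (2 * Real.pi) := AddCircle.measure_univ _
  have h7 : (volume : Measure (ℂ × Ang)).restrict (P ×ˢ univ) =
      (volume.restrict P).prod (volume : Measure Ang) := by
    rw [Measure.volume_eq_prod, ← Measure.prod_restrict, Measure.restrict_univ]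
  have hP0 : (volume P).toReal ≠ 0 := (ENNReal.toReal_ne_zero).2 ⟨h1, h2⟩
  unfold liou ProbabilityTheory.cond
  rw [integral_smul_measure, h7]
  have h8 : ∫ z : ℂ × Ang, g z.2 ∂((volume.restrict P).prod (volume : Measure Ang)) =
      (volume P).toReal * ∫ θ : Ang, g θ := by
    have h9 := integral_prod_mul (μ := volume.restrict P) (ν := (volume : Measure Ang))
      (fun _ : ℂ => (1 : ℝ)) g
    simp only [one_mul] at h9
    rw [h9]
    simp [Measure.real]
  rw [h8, h5, h6, smul_eq_mul, ENNReal.toReal_inv, ENNReal.toReal_mul,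
    ENNReal.toReal_ofReal Real.two_pi_pos.le, mul_inv]
  field_simp

end BIL
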