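import Pool.Agent.BIL.L1c

/-!
# [BIL-E5a] correlation and variance
-/

set_option autoImplicit false

open MeasureTheory Set Filter Topology

namespace BIL

/-- [E5a] With `X = f z.2`, `Y = f (φ t z).2`, `M = ∫ X = ∫ Y` (`(hφ.mp t).integral_comp'`-type lemma; measure preserving), everything bounded:
`corr = ∫ X Y - M² = ∫ (X - M)² - (1/2) ∫ (X - Y)²`, because `∫ Y² = ∫ X²`; and `(X - Y)² ≤ κ |X - Y|` as `0 ≤ X, Y ≤ κ`. -/
theorem corr_ge_var {n : ℕ} {P : Set ℂ} {a b : Fin n → ℂ} (hP : IsPolygon P a b)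
    {φ : ℝ → ℂ × Ang → ℂ × Ang} (hφ : IsBilliardFlow P a b φ) {f : Ang → ℝ} (hf : Continuous f)
    {κ E V t : ℝ} (hκ : ∀ θ, 0 ≤ f θ ∧ f θ ≤ κ) (hE : 0 ≤ E)
    (h1 : ∫⁻ z, ENNReal.ofReal |f (φ t z).2 - f z.2| ∂(liou P) ≤ ENNReal.ofReal E)
    (hV : ∀ m : ℝ, V ≤ ∫ z, (f z.2 - m) ^ 2 ∂(liou P)) :
    V - κ * E / 2 ≤ corr P φ f t := by
  have hprob : IsProbabilityMeasure (liou P) := liou_prob hP
  have hmp := hφ.mp t
  have hκ0 : 0 ≤ κ := (hκ 0).1.trans (hκ 0).2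
  have hXm : Measurable fun z : ℂ × Ang => f z.2 := (hf.comp continuous_snd).measurable
  have hYm : Measurable fun z : ℂ × Ang => f (φ t z).2 := hXm.comp hmp.measurable
  have hint : ∀ g : ℂ × Ang → ℝ, Measurable g → (∃ C, ∀ z, |g z| ≤ C) → Integrable g (liou P) := by
    intro g hg ⟨C, hC⟩
    exact Integrable.of_bound hg.aestronglyMeasurable C
      (Filter.Eventually.of_forall fun z => by rw [Real.norm_eq_abs]; exact hC z)
  have hpres : ∀ g : ℂ × Ang → ℝ, Measurable g →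
      ∫ z, g (φ t z) ∂(liou P) = ∫ z, g z ∂(liou P) := by
    intro g hg
    have h2 := MeasureTheory.integral_map (μ := liou P) (φ := φ t) hmp.measurable.aemeasurable
      (f := g) hg.aestronglyMeasurable
    rw [hmp.map_eq] at h2
    exact h2.symm
  have hXb : ∀ z : ℂ × Ang, |f z.2| ≤ κ := fun z => by
    rw [abs_of_nonneg (hκ z.2).1]; exact (hκ z.2).2
  have iX : Integrable (fun z : ℂ × Ang => f z.2) (liou P) := hint _ hXm ⟨κ, hXb⟩
  have iX2 : Integrable (fun z : ℂ × Ang => f z.2 ^ 2) (liou P) := by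
    refine hint _ (hXm.pow_const 2) ⟨κ ^ 2, fun z => ?_⟩
    rw [abs_pow]
    exact pow_le_pow_left₀ (abs_nonneg _) (hXb z) 2
  have iY2 : Integrable (fun z : ℂ × Ang => f (φ t z).2 ^ 2) (liou P) := by
    refine hint _ (hYm.pow_const 2) ⟨κ ^ 2, fun z => ?_⟩
    rw [abs_pow]
    exact pow_le_pow_left₀ (abs_nonneg _) (hXb (φ t z)) 2
  have habs : ∀ z : ℂ × Ang, |f (φ t z).2 - f z.2| ≤ κ := by
    intro z
    rw [abs_le]
    constructor
    · linarith [(hκ (φ t z).2).1, (hκ z.2).2]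
    · linarith [(hκ (φ t z).2).2, (hκ z.2).1]
  have iD : Integrable (fun z : ℂ × Ang => |f (φ t z).2 - f z.2|) (liou P) := by
    refine hint _ (hYm.sub hXm).abs ⟨κ, fun z => ?_⟩
    rw [abs_abs]
    exact habs z
  have iD2 : Integrable (fun z : ℂ × Ang => (f (φ t z).2 - f z.2) ^ 2) (liou P) := by
    refine hint _ ((hYm.sub hXm).pow_const 2) ⟨κ ^ 2, fun z => ?_⟩
    rw [abs_pow]
    exact pow_le_pow_left₀ (abs_nonneg _) (habs z) 2
  have hY2 : ∫ z, f (φ t z).2 ^ 2 ∂(liou P) = ∫ z, f z.2 ^ 2 ∂(liou P) :=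
    hpres (fun z => f z.2 ^ 2) (hXm.pow_const 2)
  have hD1 : ∫ z, |f (φ t z).2 - f z.2| ∂(liou P) ≤ E := by
    rw [integral_eq_lintegral_of_nonneg_ae (Filter.Eventually.of_forall fun z => abs_nonneg _)
      iD.aestronglyMeasurable]
    exact ENNReal.toReal_le_of_le_ofReal hE h1
  have hD2 : ∫ z, (f (φ t z).2 - f z.2) ^ 2 ∂(liou P) ≤ κ * E := by
    calc ∫ z, (f (φ t z).2 - f z.2) ^ 2 ∂(liou P)
        ≤ ∫ z, κ * |f (φ t z).2 - f z.2| ∂(liou P) := by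
          apply integral_mono iD2 (iD.const_mul κ)
          intro z
          simp only
          rw [← sq_abs, sq]
          exact mul_le_mul_of_nonneg_right (habs z) (abs_nonneg _)
      _ = κ * ∫ z, |f (φ t z).2 - f z.2| ∂(liou P) := integral_const_mul _ _
      _ ≤ κ * E := mul_le_mul_of_nonneg_left hD1 hκ0
  have hXY : ∫ z, f (φ t z).2 * f z.2 ∂(liou P) =
      ∫ z, f z.2 ^ 2 ∂(liou P) - (∫ z, (f (φ t z).2 - f z.2) ^ 2 ∂(liou P)) / 2 := by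
    have h2 : ∀ z : ℂ × Ang, f (φ t z).2 * f z.2 =
        (1 / 2) * (f (φ t z).2 ^ 2 + f z.2 ^ 2 - (f (φ t z).2 - f z.2) ^ 2) := fun z => by ring
    simp_rw [h2]
    have h4 : ∫ z, (f (φ t z).2 ^ 2 + f z.2 ^ 2 - (f (φ t z).2 - f z.2) ^ 2) ∂(liou P) =
        ∫ z, (f (φ t z).2 ^ 2 + f z.2 ^ 2) ∂(liou P) -
          ∫ z, (f (φ t z).2 - f z.2) ^ 2 ∂(liou P) := integral_sub (iY2.add iX2) iD2
    rw [integral_const_mul, h4]
    have h3 : ∫ z, (f (φ t z).2 ^ 2 + f z.2 ^ 2) ∂(liou P) =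
        ∫ z, f (φ t z).2 ^ 2 ∂(liou P) + ∫ z, f z.2 ^ 2 ∂(liou P) := integral_add iY2 iX2
    rw [h3, hY2]
    ring
  have hvar := hV (∫ z, f z.2 ∂(liou P))
  have hvar2 : ∫ z, (f z.2 - ∫ z, f z.2 ∂(liou P)) ^ 2 ∂(liou P) =
      ∫ z, f z.2 ^ 2 ∂(liou P) - (∫ z, f z.2 ∂(liou P)) ^ 2 := by
    set M := ∫ z, f z.2 ∂(liou P) with hM
    have h2 : ∀ z : ℂ × Ang, (f z.2 - M) ^ 2 = f z.2 ^ 2 - (2 * M) * f z.2 + M ^ 2 :=
      fun z => by ring
    simp_rw [h2]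
    have h3 : ∫ z, (f z.2 ^ 2 - (2 * M) * f z.2 + M ^ 2) ∂(liou P) =
        ∫ z, (f z.2 ^ 2 - (2 * M) * f z.2) ∂(liou P) + ∫ _z, M ^ 2 ∂(liou P) :=
      integral_add (iX2.sub (iX.const_mul _)) (integrable_const _)
    rw [h3, integral_sub iX2 (iX.const_mul _), integral_const_mul, ← hM]
    simp
    ring
  unfold corr
  rw [hXY]
  rw [hvar2] at hvar
  linarith

end BIL
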