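import Pool.Agent.BIL.C4
import Pool.Agent.BIL.E1
import Pool.Agent.BIL.E2b
import Pool.Agent.BIL.E3c
import Pool.Agent.BIL.E4
import Pool.Agent.BIL.E4d
import Pool.Agent.BIL.E5a

/-!
# [BIL-E5b] correlations in polygons with one skew direction
-/

set_option autoImplicit false

open MeasureTheory Set Filter Topology

namespace BIL

theorem E5b_corr (P : Set ℂ) (φ : ℝ → ℂ × Ang → ℂ × Ang) (f : Ang → ℝ) (t : ℝ) :
    corr P φ (fun θ => 1 / 2 * f θ) t = 1 / 4 * corr P φ f t := by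
  unfold corr
  have e1 : ∫ z, 1 / 2 * f (φ t z).2 * (1 / 2 * f z.2) ∂(liou P) =
      1 / 4 * ∫ z, f (φ t z).2 * f z.2 ∂(liou P) := by
    rw [← integral_const_mul]
    congr 1
    funext z
    ring
  have e2 : ∫ z, 1 / 2 * f z.2 ∂(liou P) = 1 / 2 * ∫ z, f z.2 ∂(liou P) := integral_const_mul _ _
  rw [e1, e2]
  ring

theorem E5b_var {n : ℕ} {P : Set ℂ} {a b : Fin n → ℂ} (hP : IsPolygon P a b) (c A' : Ang) {q : ℕ}
    (hq : 0 < q) (m : ℝ) :
    Real.pi ^ 2 / (256 * (q : ℝ) ^ 2) ≤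
      ∫ z, (DD A' q ((2 : ℕ) • (z.2 - c)) - m) ^ 2 ∂(liou P) := by
  obtain ⟨s1, s2, s3⟩ := SS_fin A' hq
  have hcont : Continuous (DD A' q) := (DD_lip A' q).continuous
  have h1 := liou_int hP (fun θ => (DD A' q ((2 : ℕ) • (θ - c)) - m) ^ 2) (by fun_prop)
  have h2 : ∫ θ : Ang, (DD A' q ((2 : ℕ) • (θ - c)) - m) ^ 2 = ∫ y : Ang, (DD A' q y - m) ^ 2 := by
    have hmp := mp_double c
    have h3 : ∫ y : Ang, (DD A' q y - m) ^ 2 ∂(Measure.map (fun θ : Ang => (2 : ℕ) • (θ - c)) volume) =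
        ∫ θ : Ang, (DD A' q ((2 : ℕ) • (θ - c)) - m) ^ 2 :=
      integral_map hmp.aemeasurable (by
        have : Continuous fun y : Ang => (DD A' q y - m) ^ 2 := by fun_prop
        exact this.aestronglyMeasurable)
    rw [← h3, hmp.map_eq]
  have h4 := var_ge (SS A' q) s1 s2 s3 (by omega) m
  have h5 : (2 * Real.pi)⁻¹ * (Real.pi ^ 3 / (32 * ((2 * q : ℕ) : ℝ) ^ 2)) =
      Real.pi ^ 2 / (256 * (q : ℝ) ^ 2) := by
    have hq' : (q : ℝ) ≠ 0 := by exact_mod_cast hq.ne'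
    have hpi := Real.pi_ne_zero
    push_cast
    field_simp
    norm_num
  have h6 : ∫ z, (DD A' q ((2 : ℕ) • (z.2 - c)) - m) ^ 2 ∂(liou P) =
      (2 * Real.pi)⁻¹ * ∫ y : Ang, (DD A' q y - m) ^ 2 := by
    rw [← h2]
    exact h1
  rw [h6, ← h5]
  apply mul_le_mul_of_nonneg_left _ (by positivity)
  exact h4

theorem E5b_lip (c A' : Ang) (q : ℕ) :
    LipschitzWith 1 fun θ : Ang => 1 / 2 * DD A' q ((2 : ℕ) • (θ - c)) := by
  apply LipschitzWith.of_dist_le_mul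
  intro θ θ'
  have h1 := (DD_lip A' q).dist_le_mul ((2 : ℕ) • (θ - c)) ((2 : ℕ) • (θ' - c))
  have h2 : dist ((2 : ℕ) • (θ - c)) ((2 : ℕ) • (θ' - c)) ≤ 2 * dist θ θ' := by
    rw [dist_eq_norm, dist_eq_norm]
    have e : (2 : ℕ) • (θ - c) - (2 : ℕ) • (θ' - c) = (2 : ℕ) • (θ - θ') := by
      rw [← nsmul_sub]
      congr 1
      abel
    rw [e]
    have h3 : ‖(2 : ℕ) • (θ - θ')‖ ≤ (2 : ℕ) * ‖θ - θ'‖ := norm_nsmul_le
    exact_mod_cast h3
  rw [Real.dist_eq] at h1 ⊢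
  have e2 : 1 / 2 * DD A' q ((2 : ℕ) • (θ - c)) - 1 / 2 * DD A' q ((2 : ℕ) • (θ' - c)) =
      1 / 2 * (DD A' q ((2 : ℕ) • (θ - c)) - DD A' q ((2 : ℕ) • (θ' - c))) := by ring
  rw [e2, abs_mul]
  have e3 : |(1 / 2 : ℝ)| = 1 / 2 := by norm_num
  rw [e3]
  rw [NNReal.coe_one] at h1 ⊢
  linarith

/-- the estimate for one `q` -/
theorem E5b_main {n : ℕ} {P : Set ℂ} {a b : Fin n → ℂ} (hP : IsPolygon P a b) (c β : Ang)
    (hs : ∀ i, (4 : ℕ) • (ang (b i - a i) - c) = 0 ∨ (2 : ℕ) • (ang (b i - a i) - β) = 0)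
    {C₀ : ℝ} (hC₀ : 0 < C₀) {φ : ℝ → ℂ × Ang → ℂ × Ang}
    (hnear : ∀ (f : Ang → ℝ) (W : Fin n → Set Ang) (η w ω : ℝ),
      (∀ i, MeasurableSet (W i)) → 0 ≤ η → 0 ≤ w → 0 ≤ ω →
      (∀ i θ, |f ((2 : ℕ) • ang (b i - a i) - θ) - f θ| ≤ η) →
      (∀ i θ, θ ∉ W i → f ((2 : ℕ) • ang (b i - a i) - θ) = f θ) →
      (∀ i, ∀ θ ∈ W i, |(dir (θ - ang (b i - a i))).im| ≤ w) →
      (∀ i, volume (W i) ≤ ENNReal.ofReal ω) → ∀ t : ℝ, 0 < t →
      ∫⁻ z, ENNReal.ofReal |f (φ t z).2 - f z.2| ∂(liou P) ≤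
        ENNReal.ofReal (C₀ * t * (η * w * ω)))
    (hφ : IsBilliardFlow P a b φ) {A' : Ang} (hA' : A' = (2 : ℕ) • (β - c)) {q Q : ℕ} (hq : 0 < q)
    (hqQ : q ≤ Q) (hr : ‖q • ((2 : ℕ) • A')‖ ≤ 2 * Real.pi / (Q + 1))
    (hκ : ∀ y : Ang, ∃ k : ℕ, k < q ∧ ‖y - k • ((2 : ℕ) • A')‖ ≤ 3 * Real.pi / q) {t : ℝ}
    (ht : 0 < t) :
    Real.pi ^ 2 / (256 * (q : ℝ) ^ 2) - 3 * Real.pi / q *
      (C₀ * t * (2 * Real.pi / (Q + 1) * (5 * Real.pi / (2 * q)) * (10 * Real.pi / q))) / 2 ≤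
      corr P φ (fun θ => DD A' q ((2 : ℕ) • (θ - c))) t := by
  have hpi := Real.pi_pos
  have hqR : (0 : ℝ) < q := by exact_mod_cast hq
  have hqQR : (q : ℝ) ≤ Q := by exact_mod_cast hqQ
  have hQ0 : (0 : ℝ) < (Q : ℝ) + 1 := by positivity
  have hrq : ‖q • ((2 : ℕ) • A')‖ ≤ 2 * Real.pi / q :=
    hr.trans (div_le_div_of_nonneg_left (by positivity) hqR (by linarith))
  have hkr : 3 * Real.pi / q + ‖q • ((2 : ℕ) • A')‖ ≤ 5 * Real.pi / q := by
    have : 3 * Real.pi / q + 2 * Real.pi / q = 5 * Real.pi / q := by ring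
    linarith
  have hcont : Continuous (DD A' q) := (DD_lip A' q).continuous
  set W : Fin n → Set Ang := fun i => {θ | (4 : ℕ) • (ang (b i - a i) - c) ≠ 0 ∧
    ‖(2 : ℕ) • (θ - β)‖ < 3 * Real.pi / q + ‖q • ((2 : ℕ) • A')‖} with hW
  have hcase1 : ∀ i θ, (4 : ℕ) • (ang (b i - a i) - c) = 0 →
      DD A' q ((2 : ℕ) • ((2 : ℕ) • ang (b i - a i) - θ - c)) = DD A' q ((2 : ℕ) • (θ - c)) := by
    intro i θ h
    have e : (2 : ℕ) • ((2 : ℕ) • ang (b i - a i) - θ - c) =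
        (4 : ℕ) • (ang (b i - a i) - c) - (2 : ℕ) • (θ - c) := by
      simp only [succ_nsmul, zero_nsmul]
      abel
    rw [e, h, zero_sub, DD_neg]
  have hcase2 : ∀ i θ, (2 : ℕ) • (ang (b i - a i) - β) = 0 →
      (2 : ℕ) • ((2 : ℕ) • ang (b i - a i) - θ - c) = (2 : ℕ) • A' - (2 : ℕ) • (θ - c) := by
    intro i θ h
    have e : (2 : ℕ) • ((2 : ℕ) • ang (b i - a i) - θ - c) =
        (2 : ℕ) • ((2 : ℕ) • (ang (b i - a i) - β)) + ((2 : ℕ) • A' - (2 : ℕ) • (θ - c)) := by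
      rw [hA']
      simp only [succ_nsmul, zero_nsmul]
      abel
    rw [e, h, nsmul_zero, zero_add]
  have hcase3 : ∀ i (θ : Ang), (2 : ℕ) • (ang (b i - a i) - β) = 0 →
      (2 : ℕ) • (θ - ang (b i - a i)) = (2 : ℕ) • (θ - β) := by
    intro i θ h
    have e : (2 : ℕ) • (θ - ang (b i - a i)) =
        (2 : ℕ) • (θ - β) - (2 : ℕ) • (ang (b i - a i) - β) := by
      simp only [succ_nsmul, zero_nsmul]
      abel
    rw [e, h, sub_zero]
  have h1 := hnear (fun θ => DD A' q ((2 : ℕ) • (θ - c))) W (2 * Real.pi / (Q + 1))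
    (5 * Real.pi / (2 * q)) (10 * Real.pi / q) (by
      intro i
      have hm : MeasurableSet {θ : Ang | ‖(2 : ℕ) • (θ - β)‖ <
          3 * Real.pi / q + ‖q • ((2 : ℕ) • A')‖} :=
        (isOpen_lt (by fun_prop) continuous_const).measurableSet
      by_cases h : (4 : ℕ) • (ang (b i - a i) - c) = 0
      · have : W i = ∅ := by
          ext θ
          simp [hW, h]
        rw [this]
        exact MeasurableSet.empty
      · have : W i = {θ : Ang | ‖(2 : ℕ) • (θ - β)‖ <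
            3 * Real.pi / q + ‖q • ((2 : ℕ) • A')‖} := by
          ext θ
          simp [hW, h]
        rw [this]
        exact hm) (by positivity) (by positivity) (by positivity) (by
      intro i θ
      rcases hs i with h | h
      · simp only [hcase1 i θ h, sub_self, abs_zero]
        positivity
      · simp only [hcase2 i θ h]
        exact (DD_refl A' _ hq).trans hr) (by
      intro i θ hθ
      by_cases h : (4 : ℕ) • (ang (b i - a i) - c) = 0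
      · exact hcase1 i θ h
      · have h2 : (2 : ℕ) • (ang (b i - a i) - β) = 0 := (hs i).resolve_left h
        have h3 : 3 * Real.pi / q + ‖q • ((2 : ℕ) • A')‖ ≤ ‖(2 : ℕ) • (θ - β)‖ := by
          by_contra hc
          exact hθ ⟨h, not_le.1 hc⟩
        have e : (2 : ℕ) • (θ - β) = (2 : ℕ) • (θ - c) - A' := by
          rw [hA']
          simp only [succ_nsmul, zero_nsmul]
          abel
        rw [e] at h3
        simp only [hcase2 i θ h2]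
        exact DD_refl_eq A' _ hq hκ h3) (by
      rintro i θ ⟨h, h3⟩
      have h2 : (2 : ℕ) • (ang (b i - a i) - β) = 0 := (hs i).resolve_left h
      have h4 := im_le (θ - ang (b i - a i))
      rw [hcase3 i θ h2] at h4
      have e : 5 * Real.pi / (2 * q) = 5 * Real.pi / q / 2 := by
        field_simp
      rw [e]
      linarith) (by
      intro i
      have hsub : W i ⊆ {θ : Ang | ‖(2 : ℕ) • (θ - β)‖ <
          3 * Real.pi / q + ‖q • ((2 : ℕ) • A')‖} := fun θ hθ => hθ.2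
      refine (measure_mono hsub).trans ((vol_W β (by positivity)).trans ?_)
      apply ENNReal.ofReal_le_ofReal
      have e : 10 * Real.pi / q = 2 * (5 * Real.pi / q) := by ring
      rw [e]
      linarith) t ht
  have hcf : Continuous fun θ : Ang => DD A' q ((2 : ℕ) • (θ - c)) := by fun_prop
  exact corr_ge_var hP hφ hcf (fun θ => DD_le A' _ hκ) (by positivity) h1
    (fun m => E5b_var hP c A' hq m)

/-- [E5b] Put `A' = 2 • (β - c)`, `A = 2 • A'`, `q` from `good_approx A hQ`, `κ = 3π / q`, `r = ‖q • A‖ ≤ 2π / (Q + 1) ≤ 2π / q`, `f θ = DD A' q (2 • (θ - c))`,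
`W i = ∅` if `4 • (β_i - c) = 0` and `W i = {θ | ‖2 • (θ - β)‖ < κ + r}` otherwise, where `β_i = ang (b i - a i)`. Reflection in a side of the first kind:
`2 • (2 • β_i - θ - c) = 4 • (β_i - c) - 2 • (θ - c) = - 2 • (θ - c)`, `f` is invariant by `DD_neg`. Second kind: `2 • β_i = 2 • β` and
`2 • (2 • β - θ - c) = A - 2 • (θ - c)`: the change of `f` is at most `r` (`DD_refl`) and `0` if `‖2 • (θ - c) - A'‖ = ‖2 • (θ - β)‖ ≥ κ + r` (`DD_refl_eq`). On `W i`: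
`|(dir (θ - β_i)).im| ≤ ‖2 • (θ - β_i)‖ / 2 = ‖2 • (θ - β)‖ / 2 ≤ (κ + r) / 2 ≤ 5π / (2 q) = w` (`im_le`) and `volume (W i) ≤ 2 (κ + r) ≤ 10π / q = ω` (`vol_W`). So by `near_inv2` (constant `C₀`) with
`η = 2π / (Q + 1)`: `∫⁻ |f(φ_t) - f| ≤ E = C₀ t η w ω = C₀ t (50 π³ / (q² (Q + 1)))`.

The variance: by `liou_int`, `mp_double` and `var_ge` (`N = 2 q`): `∫ (f - m)² ≥ (2π)⁻¹ π³ / (128 q²) = V`, `V = π² / (256 q²)`. By `corr_ge_var`:
`corr ≥ π² / (256 q²) - (3π / (2 q)) * C₀ t * 50 π³ / (q² (Q + 1)) ≥ π² / (512 q²)` if `t ≤ q Q / (38400 π² C₀)` (because `(3π / 2) * 50 π³ * 512 / π² = 38400 π²`). `f` is `2`-Lipschitz (`DD_lip`, `norm_nsmul_le`);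
`g = f / 2`, `corr g = corr f / 4 ≥ π² / (2048 q²)`. So `C = min (π² / 2048) (1 / (38400 π² C₀))` works. -/
theorem part_C0 {n : ℕ} {P : Set ℂ} {a b : Fin n → ℂ} (hP : IsPolygon P a b) (c β : Ang)
    (hs : ∀ i, (4 : ℕ) • (ang (b i - a i) - c) = 0 ∨ (2 : ℕ) • (ang (b i - a i) - β) = 0) :
    ∃ C > 0, ∀ φ, IsBilliardFlow P a b φ → ∀ Q : ℕ, 0 < Q → ∃ q : ℕ, 0 < q ∧ q ≤ Q ∧
      ∃ g : Ang → ℝ, LipschitzWith 1 g ∧
        ∀ s : ℝ, 0 < s → s ≤ C * (q * Q) → C / (q : ℝ) ^ 2 ≤ corr P φ g s := by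
  obtain ⟨C₀, hC₀, hnear⟩ := near_inv2 hP
  have hpi := Real.pi_pos
  refine ⟨min (Real.pi ^ 2 / 2048) (1 / (38400 * Real.pi ^ 2 * C₀)), by positivity, ?_⟩
  intro φ hφ Q hQ
  set A' : Ang := (2 : ℕ) • (β - c) with hA'
  obtain ⟨q, hq, hqQ, hr, hκ⟩ := good_approx ((2 : ℕ) • A') hQ
  have hqR : (0 : ℝ) < q := by exact_mod_cast hq
  have hqQR : (q : ℝ) ≤ Q := by exact_mod_cast hqQ
  have hQR : (0 : ℝ) < Q := by linarith
  refine ⟨q, hq, hqQ, fun θ => 1 / 2 * DD A' q ((2 : ℕ) • (θ - c)), E5b_lip c A' q, ?_⟩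
  intro t ht0 ht
  have h1 := E5b_main hP c β hs hC₀ (hnear φ hφ) hφ hA' hq hqQ hr hκ ht0
  have h2 := E5b_corr P φ (fun θ => DD A' q ((2 : ℕ) • (θ - c))) t
  rw [h2]
  have ht2 : t ≤ 1 / (38400 * Real.pi ^ 2 * C₀) * (q * Q) :=
    ht.trans (mul_le_mul_of_nonneg_right (min_le_right _ _) (by positivity))
  have h3 : 3 * Real.pi / q *
      (C₀ * t * (2 * Real.pi / (Q + 1) * (5 * Real.pi / (2 * q)) * (10 * Real.pi / q))) / 2 ≤
      Real.pi ^ 2 / (512 * (q : ℝ) ^ 2) := by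
    have e1 : 3 * Real.pi / q *
        (C₀ * t * (2 * Real.pi / (Q + 1) * (5 * Real.pi / (2 * q)) * (10 * Real.pi / q))) / 2 =
        75 * Real.pi ^ 4 * C₀ * t / ((q : ℝ) ^ 3 * (Q + 1)) := by
      field_simp
      ring
    rw [e1, div_le_div_iff₀ (by positivity) (by positivity)]
    have h4 : 38400 * Real.pi ^ 2 * C₀ * t ≤ q * Q := by
      have h5 : 0 < 38400 * Real.pi ^ 2 * C₀ := by positivity
      have h6 := mul_le_mul_of_nonneg_left ht2 h5.le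
      have e2 : 38400 * Real.pi ^ 2 * C₀ * (1 / (38400 * Real.pi ^ 2 * C₀) * (q * Q)) = q * Q := by
        field_simp
      linarith
    have h7 : 75 * Real.pi ^ 4 * C₀ * t * (512 * (q : ℝ) ^ 2) =
        Real.pi ^ 2 * (q : ℝ) ^ 2 * (38400 * Real.pi ^ 2 * C₀ * t) := by ring
    rw [h7]
    calc Real.pi ^ 2 * (q : ℝ) ^ 2 * (38400 * Real.pi ^ 2 * C₀ * t) ≤
        Real.pi ^ 2 * (q : ℝ) ^ 2 * (q * Q) := mul_le_mul_of_nonneg_left h4 (by positivity)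
      _ ≤ Real.pi ^ 2 * (q : ℝ) ^ 2 * (q * (Q + 1)) := by
          apply mul_le_mul_of_nonneg_left _ (by positivity)
          apply mul_le_mul_of_nonneg_left _ hqR.le
          linarith
      _ = _ := by ring
  have h8 : min (Real.pi ^ 2 / 2048) (1 / (38400 * Real.pi ^ 2 * C₀)) / (q : ℝ) ^ 2 ≤
      Real.pi ^ 2 / 2048 / (q : ℝ) ^ 2 :=
    div_le_div_of_nonneg_right (min_le_left _ _) (by positivity)
  refine h8.trans ?_
  have h9 : Real.pi ^ 2 / 2048 / (q : ℝ) ^ 2 =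
      1 / 4 * (Real.pi ^ 2 / (256 * (q : ℝ) ^ 2) - Real.pi ^ 2 / (512 * (q : ℝ) ^ 2)) := by
    field_simp
    norm_num
  rw [h9]
  apply mul_le_mul_of_nonneg_left _ (by norm_num)
  linarith

end BIL
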