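import Pool.Agent.BIL.Defs

/-!
# [BIL-L1a] the area of a neighbourhood of a segment
-/

set_option autoImplicit false

open MeasureTheory Set Filter Topology

namespace BIL

/-- [L1a] Let `L = ‖b - a‖`, `N = ⌈L / ε⌉₊ + 1`, and `x_j = a + (j / N) (b - a)` for `j ≤ N`. Every point of the
segment is at distance at most `L / N ≤ ε` from some `x_j`, so every point at distance at most `ε` from the segment (the
infimum is attained, the segment is compact) is in one of the `N + 1` closed balls with centres `x_j` and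
radius `2 ε`. The sum of the areas is `(N + 1) π (2 ε)² ≤ (L / ε + 3) 4 π ε² ≤ 4 π (L + 3) ε`. -/
theorem vol_seg (a b : ℂ) {ε : ℝ} (h0 : 0 < ε) (h1 : ε ≤ 1) :
    volume {x : ℂ | Metric.infDist x (segment ℝ a b) ≤ ε} ≤
      ENNReal.ofReal (4 * Real.pi * (‖b - a‖ + 3) * ε) := by
  set L : ℝ := ‖b - a‖ with hL
  have hL0 : 0 ≤ L := norm_nonneg _
  set N : ℕ := ⌈L / ε⌉₊ + 1 with hN
  have hN0 : (0 : ℝ) < N := by rw [hN]; positivity
  have hNle : L / ε ≤ N := by
    rw [hN]
    push_cast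
    linarith [Nat.le_ceil (L / ε)]
  have hNup : (N : ℝ) + 1 ≤ L / ε + 3 := by
    rw [hN]
    push_cast
    linarith [Nat.ceil_lt_add_one (div_nonneg hL0 h0.le)]
  have hLN : L / N ≤ ε := by
    rw [div_le_iff₀ hN0]
    rw [div_le_iff₀ h0] at hNle
    linarith
  have hsub : {x : ℂ | Metric.infDist x (segment ℝ a b) ≤ ε} ⊆
      ⋃ j ∈ Finset.range (N + 1), Metric.closedBall (a + ((j : ℝ) / N) • (b - a)) (2 * ε) := by
    intro x hx
    have hc : IsCompact (segment ℝ a b) := by
      rw [segment_eq_image']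
      exact isCompact_Icc.image (by fun_prop)
    obtain ⟨y, hy, hyx⟩ := hc.exists_infDist_eq_dist ⟨a, left_mem_segment ℝ a b⟩ x
    rw [segment_eq_image'] at hy
    obtain ⟨s, hs, rfl⟩ := hy
    have hxs : dist x (a + s • (b - a)) ≤ ε := by
      rw [← hyx]
      exact hx
    simp only [mem_iUnion]
    have hsN : 0 ≤ s * N := mul_nonneg hs.1 hN0.le
    refine ⟨⌊s * N⌋₊, ?_, ?_⟩
    · rw [Finset.mem_range, Nat.lt_succ_iff]
      have h2 : s * N ≤ N := by nlinarith [hs.2]
      have := Nat.floor_le_floor h2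
      rwa [Nat.floor_natCast] at this
    · rw [Metric.mem_closedBall]
      have h3 : dist (a + s • (b - a)) (a + ((⌊s * N⌋₊ : ℝ) / N) • (b - a)) ≤ ε := by
        rw [dist_add_left, dist_eq_norm, ← sub_smul, norm_smul, ← hL, Real.norm_eq_abs]
        have h4 : |s - (⌊s * N⌋₊ : ℝ) / N| ≤ 1 / N := by
          have h5 := Nat.floor_le hsN
          have h6 := Nat.lt_floor_add_one (s * N)
          have h7 : s - (⌊s * N⌋₊ : ℝ) / N = (s * N - ⌊s * N⌋₊) / N := by
            field_simp
          rw [h7, abs_div, abs_of_pos hN0, abs_of_nonneg (sub_nonneg.2 h5)]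
          gcongr
          linarith
        calc |s - (⌊s * N⌋₊ : ℝ) / N| * L ≤ 1 / N * L := mul_le_mul_of_nonneg_right h4 hL0
          _ = L / N := by ring
          _ ≤ ε := hLN
      calc dist x (a + ((⌊s * N⌋₊ : ℝ) / N) • (b - a)) ≤ _ := dist_triangle _ _ _
        _ ≤ ε + ε := add_le_add hxs h3
        _ = 2 * ε := by ring
  refine (measure_mono hsub).trans ((measure_biUnion_finset_le _ _).trans ?_)
  have hball : ∀ c : ℂ, volume (Metric.closedBall c (2 * ε)) =
      ENNReal.ofReal (4 * Real.pi * ε ^ 2) := by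
    intro c
    rw [Complex.volume_closedBall, ← ENNReal.ofReal_pow (by positivity)]
    have hpi : ((NNReal.pi : NNReal) : ENNReal) = ENNReal.ofReal Real.pi := by
      rw [← NNReal.coe_real_pi, ENNReal.ofReal_coe_nnreal]
    rw [hpi, ← ENNReal.ofReal_mul (by positivity)]
    congr 1
    ring
  simp only [hball]
  rw [Finset.sum_const, Finset.card_range, nsmul_eq_mul, ← ENNReal.ofReal_natCast,
    ← ENNReal.ofReal_mul (by positivity)]
  refine ENNReal.ofReal_le_ofReal ?_
  push_cast
  have h8 : ((N : ℝ) + 1) * (4 * Real.pi * ε ^ 2) ≤ (L / ε + 3) * (4 * Real.pi * ε ^ 2) :=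
    mul_le_mul_of_nonneg_right hNup (by positivity)
  refine h8.trans ?_
  have h9 : (L / ε + 3) * (4 * Real.pi * ε ^ 2) = 4 * Real.pi * (L * ε + 3 * ε ^ 2) := by
    field_simp
  rw [h9]
  have h10 : L * ε + 3 * ε ^ 2 ≤ (L + 3) * ε := by nlinarith
  calc 4 * Real.pi * (L * ε + 3 * ε ^ 2) ≤ 4 * Real.pi * ((L + 3) * ε) :=
        mul_le_mul_of_nonneg_left h10 (by positivity)
    _ = 4 * Real.pi * (L + 3) * ε := by ring


end BIL
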