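import Pool.Agent.BIL.L1b
import Pool.Agent.BIL.L1c

/-!
# [BIL-L1e] the measure of a neighbourhood of the boundary
-/

set_option autoImplicit false

open MeasureTheory Set Filter Topology

namespace BIL

/-- [L1e] `liou P S ≤ (volume (P ×ˢ univ))⁻¹ * volume S` for `S = {x | ...} ×ˢ univ`, whose volume is
`volume {x | ...} * 2 π`. Use [L1b], [L1c] (`ProbabilityTheory.cond_apply` or `Measure.smul_apply`,
`Measure.restrict_apply_le`; `AddCircle.measure_univ`). -/
theorem liou_frontier {n : ℕ} {P : Set ℂ} {a b : Fin n → ℂ} (hP : IsPolygon P a b) :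
    ∃ C > 0, ∀ ε : ℝ, 0 < ε → ε ≤ 1 →
      liou P {z : ℂ × Ang | Metric.infDist z.1 (frontier P) ≤ ε} ≤ ENNReal.ofReal (C * ε) := by
  obtain ⟨C, hC, hCε⟩ := vol_frontier hP
  obtain ⟨_, _, h3, h4⟩ := vol_ne hP
  have hK : 0 < ((volume : Measure (ℂ × Ang)) (P ×ˢ univ))⁻¹.toReal :=
    ENNReal.toReal_pos (ENNReal.inv_ne_zero.2 h4) (ENNReal.inv_ne_top.2 h3)
  refine ⟨((volume : Measure (ℂ × Ang)) (P ×ˢ univ))⁻¹.toReal * (C * (2 * Real.pi)),
    by have := Real.two_pi_pos; positivity, fun ε h0 h1 => ?_⟩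
  have hset : {z : ℂ × Ang | Metric.infDist z.1 (frontier P) ≤ ε}
      = {x : ℂ | Metric.infDist x (frontier P) ≤ ε} ×ˢ (univ : Set Ang) := by
    ext z
    simp
  have hvol : (volume : Measure (ℂ × Ang)) ({x : ℂ | Metric.infDist x (frontier P) ≤ ε} ×ˢ (univ : Set Ang))
      ≤ ENNReal.ofReal (C * ε) * ENNReal.ofReal (2 * Real.pi) := by
    rw [Measure.volume_eq_prod, Measure.prod_prod, AddCircle.measure_univ]
    exact mul_le_mul_left (hCε ε h0 h1) _
  unfold liou
  rw [hset, ProbabilityTheory.cond, Measure.smul_apply, smul_eq_mul]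
  calc ((volume : Measure (ℂ × Ang)) (P ×ˢ univ))⁻¹ * ((volume : Measure (ℂ × Ang)).restrict (P ×ˢ univ))
        ({x : ℂ | Metric.infDist x (frontier P) ≤ ε} ×ˢ (univ : Set Ang))
      ≤ ((volume : Measure (ℂ × Ang)) (P ×ˢ univ))⁻¹ *
        (ENNReal.ofReal (C * ε) * ENNReal.ofReal (2 * Real.pi)) :=
        mul_le_mul_right ((Measure.restrict_apply_le _ _).trans hvol) _
    _ = ENNReal.ofReal (((volume : Measure (ℂ × Ang)) (P ×ˢ univ))⁻¹.toReal) *
        (ENNReal.ofReal (C * ε) * ENNReal.ofReal (2 * Real.pi)) := by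
        rw [ENNReal.ofReal_toReal (ENNReal.inv_ne_top.2 h3)]
    _ = _ := by
        rw [← ENNReal.ofReal_mul (by positivity), ← ENNReal.ofReal_mul hK.le]
        congr 1
        ring

end BIL
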