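import Pool.Agent.BIL.Defs

/-!
# [BIL-L2a] one step of an orbit
-/

set_option autoImplicit false

open MeasureTheory Set Filter Topology

namespace BIL

/-- [L2a] If there is no time `τ ∈ (s, t]` with `(γ τ).1` on the boundary then the directions agree (`free`) and the left side is `0`.
Otherwise there is exactly one such time `τ`. For `s < u < τ` there is no boundary time in `(s, u]`, so
`(γ u).2 = (γ s).2` and `(γ u).1 = (γ s).1 + (u - s) * dir (γ s).2`; with `refl` at `τ` (take `u` close to `τ`)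
`(γ τ).2 = 2 • ang (b i - a i) - (γ s).2`, and `(γ t).2 = (γ τ).2` by `free` on `(τ, t]`. So the left side is at most `η`.
Letting `u → τ` (continuity of the position, `‖dir θ‖ = 1`), `dist (γ τ).1 (γ s).1 ≤ τ - s ≤ t - s`, so
`infDist (γ s).1 (frontier P) ≤ t - s` (`Metric.infDist_le_dist_of_mem`). -/
theorem orbit_step {n : ℕ} {P : Set ℂ} {a b : Fin n → ℂ} {γ : ℝ → ℂ × Ang} (hγ : IsOrbit P a b γ)
    {s t : ℝ} (hst : s < t) {f : Ang → ℝ} {η : ℝ} (hη : 0 ≤ η)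
    (hf : ∀ i θ, |f ((2 : ℕ) • ang (b i - a i) - θ) - f θ| ≤ η)
    (hone : ∀ τ ∈ Ioc s t, ∀ τ' ∈ Ioc s t, (γ τ).1 ∈ frontier P → (γ τ').1 ∈ frontier P → τ = τ') :
    |f (γ t).2 - f (γ s).2| ≤
      {z : ℂ × Ang | Metric.infDist z.1 (frontier P) ≤ t - s}.indicator (fun _ => η) (γ s) := by
  by_cases hno : ∀ τ ∈ Ioc s t, (γ τ).1 ∉ frontier P
  · rw [(hγ.free s t hst.le hno).1, sub_self, abs_zero]
    exact Set.indicator_nonneg (fun _ _ => hη) _
  push Not at hno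
  obtain ⟨τ, hτ, hτP⟩ := hno
  have hbefore : ∀ u, s < u → u < τ → (γ u).2 = (γ s).2 ∧
      (γ u).1 = (γ s).1 + (u - s) * dir (γ s).2 := by
    intro u hu1 hu2
    refine hγ.free s u hu1.le ?_
    intro v hv hvP
    have := hone v ⟨hv.1, (hv.2.trans hu2.le).trans hτ.2⟩ τ hτ hvP hτP
    rw [this] at hv
    exact absurd hv.2 (not_le.2 hu2)
  have hafter : (γ t).2 = (γ τ).2 := by
    refine (hγ.free τ t hτ.2 ?_).1
    intro v hv hvP
    have := hone v ⟨hτ.1.trans hv.1, hv.2⟩ τ hτ hvP hτP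
    rw [this] at hv
    exact lt_irrefl _ hv.1
  obtain ⟨i, -, -, ε, hε, hr⟩ := hγ.refl τ hτP
  obtain ⟨u, hu1, hu2⟩ : ∃ u, max s (τ - ε) < u ∧ u < τ := exists_between (max_lt hτ.1 (by linarith))
  have hτ2 : (γ τ).2 = (2 : ℕ) • ang (b i - a i) - (γ s).2 := by
    rw [hr u ⟨lt_of_le_of_lt (le_max_right _ _) hu1, hu2⟩,
      (hbefore u (lt_of_le_of_lt (le_max_left _ _) hu1) hu2).1]
  have hpos : (γ τ).1 = (γ s).1 + (τ - s) * dir (γ s).2 := by
    have h1 : Tendsto (fun u : ℝ => (γ u).1) (𝓝[<] τ) (𝓝 (γ τ).1) :=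
      (hγ.cont.tendsto τ).mono_left nhdsWithin_le_nhds
    have h2 : Tendsto (fun u : ℝ => (γ s).1 + ((u : ℂ) - s) * dir (γ s).2) (𝓝[<] τ)
        (𝓝 ((γ s).1 + ((τ : ℂ) - s) * dir (γ s).2)) := by
      have h3 : Continuous (fun u : ℝ => (γ s).1 + ((u : ℂ) - s) * dir (γ s).2) := by fun_prop
      exact (h3.tendsto τ).mono_left nhdsWithin_le_nhds
    refine tendsto_nhds_unique h1 (h2.congr' ?_)
    have h4 : Ioo s τ ∈ 𝓝[<] τ := Ioo_mem_nhdsLT hτ.1
    filter_upwards [h4] with u hu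
    exact (hbefore u hu.1 hu.2).2.symm
  have hdir : ‖dir (γ s).2‖ = 1 := by
    unfold dir
    exact Circle.norm_coe _
  have hmem : γ s ∈ {z : ℂ × Ang | Metric.infDist z.1 (frontier P) ≤ t - s} := by
    show Metric.infDist (γ s).1 (frontier P) ≤ t - s
    refine (Metric.infDist_le_dist_of_mem hτP).trans ?_
    rw [dist_comm, dist_eq_norm, hpos, add_sub_cancel_left, norm_mul, hdir, mul_one,
      ← Complex.ofReal_sub, Complex.norm_real, Real.norm_eq_abs, abs_of_pos (sub_pos.2 hτ.1)]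
    linarith [hτ.2]
  rw [Set.indicator_of_mem hmem, hafter, hτ2]
  exact hf i _

end BIL
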