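import Pool.Agent.BIL.L2a

/-!
# [BIL-L2b] the change of a function of the direction along an orbit
-/

set_option autoImplicit false

open MeasureTheory Set Filter Topology

namespace BIL

/-- [L2b] The set of the boundary times in `[0, t]` is finite (`finite`), so there is `δ > 0` such that two different
ones have distance at least `δ`. For `K ≥ 1` with `t / K < δ` every interval `(k t / K, (k + 1) t / K]` contains at
most one of them; apply `orbit_step` to each of them and sum (the telescoping sum: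
`Finset.sum_range_sub`, `Finset.abs_sum_le_sum_abs`). -/
theorem orbit_sum {n : ℕ} {P : Set ℂ} {a b : Fin n → ℂ} {γ : ℝ → ℂ × Ang} (hγ : IsOrbit P a b γ)
    {t : ℝ} (ht : 0 < t) {f : Ang → ℝ} {η : ℝ} (hη : 0 ≤ η)
    (hf : ∀ i θ, |f ((2 : ℕ) • ang (b i - a i) - θ) - f θ| ≤ η) :
    ∀ᶠ K : ℕ in atTop, |f (γ t).2 - f (γ 0).2| ≤ ∑ k ∈ Finset.range K,
      {z : ℂ × Ang | Metric.infDist z.1 (frontier P) ≤ t / K}.indicator (fun _ => η)
        (γ (k * t / K)) := by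
  have hfin := hγ.finite 0 t
  -- a gap between the boundary times
  obtain ⟨δ, hδ, hgap⟩ : ∃ δ > 0, ∀ τ ∈ Icc 0 t, ∀ τ' ∈ Icc 0 t, (γ τ).1 ∈ frontier P →
      (γ τ').1 ∈ frontier P → τ < τ' → δ ≤ τ' - τ := by
    have h1 : ({p : ℝ × ℝ | (p.1 ∈ Icc 0 t ∧ (γ p.1).1 ∈ frontier P) ∧
        (p.2 ∈ Icc 0 t ∧ (γ p.2).1 ∈ frontier P)}).Finite := (hfin.prod hfin).subset (fun p hp => hp)
    have h2 : ({x : ℝ | ∃ p : ℝ × ℝ, ((p.1 ∈ Icc 0 t ∧ (γ p.1).1 ∈ frontier P) ∧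
        (p.2 ∈ Icc 0 t ∧ (γ p.2).1 ∈ frontier P)) ∧ p.1 < p.2 ∧ x = p.2 - p.1}).Finite := by
      refine (h1.image (fun p => p.2 - p.1)).subset ?_
      rintro x ⟨p, hp, -, rfl⟩
      exact ⟨p, hp, rfl⟩
    rcases Set.eq_empty_or_nonempty {x : ℝ | ∃ p : ℝ × ℝ, ((p.1 ∈ Icc 0 t ∧ (γ p.1).1 ∈ frontier P) ∧
        (p.2 ∈ Icc 0 t ∧ (γ p.2).1 ∈ frontier P)) ∧ p.1 < p.2 ∧ x = p.2 - p.1} with h3 | h3
    · refine ⟨1, one_pos, ?_⟩
      intro τ hτ τ' hτ' hP hP' hlt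
      exfalso
      have : τ' - τ ∈ {x : ℝ | ∃ p : ℝ × ℝ, ((p.1 ∈ Icc 0 t ∧ (γ p.1).1 ∈ frontier P) ∧
        (p.2 ∈ Icc 0 t ∧ (γ p.2).1 ∈ frontier P)) ∧ p.1 < p.2 ∧ x = p.2 - p.1} :=
        ⟨(τ, τ'), ⟨⟨hτ, hP⟩, ⟨hτ', hP'⟩⟩, hlt, rfl⟩
      rw [h3] at this
      exact this
    · obtain ⟨x, hx, hmin⟩ := h2.exists_minimal h3
      obtain ⟨p, hp, hlt, rfl⟩ := hx
      refine ⟨p.2 - p.1, sub_pos.2 hlt, ?_⟩
      intro τ hτ τ' hτ' hP hP' hlt'
      by_contra hcon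
      have h4 := hmin ⟨(τ, τ'), ⟨⟨hτ, hP⟩, ⟨hτ', hP'⟩⟩, hlt', rfl⟩ (not_le.1 hcon).le
      exact hcon h4
  filter_upwards [eventually_gt_atTop ⌈t / δ⌉₊] with K hK
  have hK0 : 0 < K := lt_of_le_of_lt (Nat.zero_le _) hK
  have hKr : (0 : ℝ) < K := by exact_mod_cast hK0
  have hKt : t / K < δ := by
    have h1 : t / δ < K := lt_of_le_of_lt (Nat.le_ceil _) (by exact_mod_cast hK)
    rw [div_lt_iff₀ hKr]
    rw [div_lt_iff₀ hδ] at h1
    linarith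
  have htK : 0 < t / K := div_pos ht hKr
  have hstep : ∀ k ∈ Finset.range K, |f (γ ((k + 1 : ℕ) * t / K)).2 - f (γ (k * t / K)).2| ≤
      {z : ℂ × Ang | Metric.infDist z.1 (frontier P) ≤ t / K}.indicator (fun _ => η)
        (γ (k * t / K)) := by
    intro k hk
    have hk' : ((k + 1 : ℕ) : ℝ) ≤ K := by exact_mod_cast Finset.mem_range.1 hk
    have hsub : ((k + 1 : ℕ) : ℝ) * t / K - k * t / K = t / K := by
      push_cast
      ring
    have hlt : (k : ℝ) * t / K < ((k + 1 : ℕ) : ℝ) * t / K := by linarith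
    have hlow : (0 : ℝ) ≤ k * t / K := by positivity
    have hup : ((k + 1 : ℕ) : ℝ) * t / K ≤ t := by
      rw [div_le_iff₀ hKr]
      nlinarith
    have h1 := orbit_step hγ hlt hη hf (fun τ hτ τ' hτ' hP hP' => ?_)
    · rwa [hsub] at h1
    · have m1 : τ ∈ Icc 0 t := ⟨hlow.trans hτ.1.le, hτ.2.trans hup⟩
      have m2 : τ' ∈ Icc 0 t := ⟨hlow.trans hτ'.1.le, hτ'.2.trans hup⟩
      rcases lt_trichotomy τ τ' with h | h | h
      · have := hgap τ m1 τ' m2 hP hP' h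
        linarith [hτ.1, hτ'.2]
      · exact h
      · have := hgap τ' m2 τ m1 hP' hP h
        linarith [hτ'.1, hτ.2]
  calc |f (γ t).2 - f (γ 0).2|
      = |∑ k ∈ Finset.range K, (f (γ ((k + 1 : ℕ) * t / K)).2 - f (γ (k * t / K)).2)| := by
        rw [Finset.sum_range_sub (fun k : ℕ => f (γ ((k : ℝ) * t / K)).2)]
        have e1 : (K : ℝ) * t / K = t := by field_simp
        have e2 : ((0 : ℕ) : ℝ) * t / K = 0 := by simp
        rw [e1, e2]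
    _ ≤ ∑ k ∈ Finset.range K, |f (γ ((k + 1 : ℕ) * t / K)).2 - f (γ (k * t / K)).2| :=
        Finset.abs_sum_le_sum_abs _ _
    _ ≤ _ := Finset.sum_le_sum hstep

end BIL
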