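import Pool.Agent.BIL.L1e
import Pool.Agent.BIL.L2b

/-!
# [BIL-L3] functions of the direction that are nearly invariant under the reflections
-/

set_option autoImplicit false

open MeasureTheory Set Filter Topology

namespace BIL

/-- [L3] Let `C` be the constant of `liou_frontier`. For `K ≥ 1` let `G_K z = ∑ k ∈ range K, indicator D_K (ofReal η) (φ (k t / K) z)`
with `D_K = {z | infDist z.1 (frontier P) ≤ t / K}` (closed, so measurable; `Metric.continuous_infDist_pt`). For almost every `z` the curve `t ↦ φ t z` is an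
orbit and `φ 0 z = z`, so by `orbit_sum` `ofReal |f (φ t z).2 - f z.2| ≤ G_K z` for all large `K`, hence
`≤ liminf G_K z` (`Filter.le_liminf_of_le`). By Fatou (`lintegral_liminf_le`; the `G_K` are measurable as `φ t` is:
`(hφ.mp t).measurable`) the integral is at most `liminf ∫⁻ G_K`. And
`∫⁻ G_K = ∑ k, ofReal η * liou P ((φ (k t / K))⁻¹' D_K) = K * ofReal η * liou P D_K ≤ K * η * (C * (t / K)) = C t η` as soon as
`t / K ≤ 1` (`lintegral_finset_sum`, `lintegral_indicator`, `MeasurePreserving.measure_preimage`; a liminf is at most a bound which holds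
eventually). -/
theorem near_inv {n : ℕ} {P : Set ℂ} {a b : Fin n → ℂ} (hP : IsPolygon P a b) :
    ∃ C > 0, ∀ φ, IsBilliardFlow P a b φ → ∀ (f : Ang → ℝ) (η : ℝ), 0 ≤ η →
      (∀ i θ, |f ((2 : ℕ) • ang (b i - a i) - θ) - f θ| ≤ η) → ∀ t : ℝ, 0 < t →
      ∫⁻ z, ENNReal.ofReal |f (φ t z).2 - f z.2| ∂(liou P) ≤ ENNReal.ofReal (C * t * η) := by
  obtain ⟨C, hC, hCb⟩ := liou_frontier hP
  refine ⟨C, hC, ?_⟩
  intro φ hφ f η hη hf t ht
  classical
  -- the sets
  set D : ℕ → Set (ℂ × Ang) := fun K => {z | Metric.infDist z.1 (frontier P) ≤ t / K} with hD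
  have hDm : ∀ K, MeasurableSet (D K) := by
    intro K
    have hcl : IsClosed (D K) :=
      isClosed_le ((Metric.continuous_infDist_pt _).comp continuous_fst) continuous_const
    exact hcl.measurableSet
  set G : ℕ → ℂ × Ang → ENNReal := fun K z => ∑ k ∈ Finset.range K,
    (D K).indicator (fun _ => ENNReal.ofReal η) (φ (k * t / K) z) with hG
  have hGm : ∀ K, Measurable (G K) := by
    intro K
    refine Finset.measurable_fun_sum _ fun k _ => ?_
    exact (measurable_const.indicator (hDm K)).comp (hφ.mp _).measurable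
  have hle : ∀ᵐ z ∂(liou P), ENNReal.ofReal |f (φ t z).2 - f z.2| ≤ liminf (fun K => G K z) atTop := by
    filter_upwards [hφ.orbit, hφ.zero] with z hz hz0
    have h1 := orbit_sum hz ht hη hf
    refine le_liminf_of_le (by isBoundedDefault) ?_
    filter_upwards [h1] with K hK
    have hz0' : (φ 0 z).2 = z.2 := by rw [hz0]
    rw [hz0'] at hK
    refine (ENNReal.ofReal_le_ofReal hK).trans ?_
    rw [ENNReal.ofReal_sum_of_nonneg (fun k _ => Set.indicator_nonneg (fun _ _ => hη) _)]
    refine Finset.sum_le_sum fun k _ => ?_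
    by_cases hm : φ (k * t / K) z ∈ D K
    · rw [Set.indicator_of_mem hm, Set.indicator_of_mem (show φ (k * t / K) z ∈
        {z : ℂ × Ang | Metric.infDist z.1 (frontier P) ≤ t / K} from hm)]
    · rw [Set.indicator_of_notMem (show φ (k * t / K) z ∉
        {z : ℂ × Ang | Metric.infDist z.1 (frontier P) ≤ t / K} from hm), ENNReal.ofReal_zero]
      exact bot_le
  have hfatou : ∫⁻ z, liminf (fun K => G K z) atTop ∂(liou P) ≤
      liminf (fun K => ∫⁻ z, G K z ∂(liou P)) atTop := lintegral_liminf_le hGm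
  have hint : ∀ K : ℕ, 0 < K → t / K ≤ 1 → ∫⁻ z, G K z ∂(liou P) ≤ ENNReal.ofReal (C * t * η) := by
    intro K hK hK1
    have h0 : (0 : ℝ) < K := Nat.cast_pos.2 hK
    have h1 : ∀ k : ℕ, ∫⁻ z, (D K).indicator (fun _ => ENNReal.ofReal η) (φ (k * t / K) z) ∂(liou P)
        ≤ ENNReal.ofReal η * ENNReal.ofReal (C * (t / K)) := by
      intro k
      have h2 : ∀ z, (D K).indicator (fun _ => ENNReal.ofReal η) (φ (k * t / K) z)
          = (φ (k * t / K) ⁻¹' D K).indicator (fun _ => ENNReal.ofReal η) z := fun z => rfl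
      rw [lintegral_congr h2, lintegral_indicator ((hφ.mp _).measurable (hDm K)),
        setLIntegral_const, (hφ.mp _).measure_preimage (hDm K).nullMeasurableSet]
      exact mul_le_mul_right (hCb (t / K) (div_pos ht h0) hK1) _
    rw [hG]
    show ∫⁻ z, ∑ k ∈ Finset.range K,
      (D K).indicator (fun _ => ENNReal.ofReal η) (φ (k * t / K) z) ∂(liou P) ≤ _
    have h3 : ∀ k ∈ Finset.range K, Measurable (fun z : ℂ × Ang =>
        (D K).indicator (fun _ => ENNReal.ofReal η) (φ (k * t / K) z)) := fun k _ =>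
      (measurable_const.indicator (hDm K)).comp (hφ.mp _).measurable
    rw [lintegral_finsetSum (Finset.range K) h3]
    refine (Finset.sum_le_sum fun k _ => h1 k).trans ?_
    rw [Finset.sum_const, Finset.card_range, nsmul_eq_mul, ← ENNReal.ofReal_mul hη,
      ← ENNReal.ofReal_natCast, ← ENNReal.ofReal_mul h0.le]
    apply ENNReal.ofReal_le_ofReal
    apply le_of_eq
    field_simp
  calc ∫⁻ z, ENNReal.ofReal |f (φ t z).2 - f z.2| ∂(liou P)
      ≤ ∫⁻ z, liminf (fun K => G K z) atTop ∂(liou P) := lintegral_mono_ae hle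
    _ ≤ liminf (fun K => ∫⁻ z, G K z ∂(liou P)) atTop := hfatou
    _ ≤ ENNReal.ofReal (C * t * η) := by
        refine liminf_le_of_frequently_le' ?_
        refine Eventually.frequently ?_
        obtain ⟨K0, hK0⟩ := exists_nat_ge t
        filter_upwards [eventually_ge_atTop (max K0 1)] with K hK
        have hK1 : 0 < K := lt_of_lt_of_le one_pos ((le_max_right _ _).trans hK)
        have h0 : (0 : ℝ) < K := Nat.cast_pos.2 hK1
        refine hint K hK1 ?_
        rw [div_le_one h0]
        exact hK0.trans (by exact_mod_cast (le_max_left _ _).trans hK)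

end BIL
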