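import Pool.Agent.BIL.Defs

/-!
# [BIL-L4a] the functions cosm m c: formulas
-/

set_option autoImplicit false

open MeasureTheory Set Filter Topology

namespace BIL

theorem l4a_dir (x : ℝ) : (dir (x : Ang)).re = Real.cos x := by
  unfold dir
  rw [AddCircle.toCircle_apply_mk, div_self Real.two_pi_pos.ne', one_mul, Circle.coe_exp,
    Complex.exp_ofReal_mul_I_re]

/-- [L4a] `AddCircle.toCircle_apply_mk`, `Circle.coe_exp`, `Complex.exp_mul_I` (or `Complex.exp_ofReal_mul_I_re`). -/
theorem cosm_coe (m : ℕ) (c x : ℝ) : cosm m (c : Ang) (x : Ang) = Real.cos (m * (x - c)) := by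
  unfold cosm
  have h : m • ((x : Ang) - (c : Ang)) = ((m * (x - c) : ℝ) : Ang) := by
    rw [← AddCircle.coe_sub, ← AddCircle.coe_nsmul, nsmul_eq_mul]
  rw [h, l4a_dir]

/-- [L4b] -/
theorem cosm_cont (m : ℕ) (c : Ang) : Continuous (cosm m c) := by
  unfold cosm dir
  have h0 : Continuous (fun θ : Ang => m • (θ - c)) := (continuous_id.sub continuous_const).nsmul m
  have h : Continuous (fun θ : Ang => AddCircle.toCircle (m • (θ - c))) :=
    AddCircle.continuous_toCircle.comp h0
  exact Complex.continuous_re.comp (continuous_subtype_val.comp h)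

/-- [L4c] -/
theorem abs_cosm_le (m : ℕ) (c θ : Ang) : |cosm m c θ| ≤ 1 := by
  unfold cosm dir
  refine (Complex.abs_re_le_norm _).trans ?_
  rw [Circle.norm_coe]

/-- [L4d] `|cos x - cos y| ≤ |x - y|` and the norm of `AddCircle`: `‖θ‖` is the minimum of `|x|` over the representatives `x` of
`θ`. Write `u = m • (θ - c)`, `v = m • (θ' - c)`; `(dir u).re - (dir v).re`, representatives `x` of `v` and `x + y` of `u`, where `y` is the representative of
`u - v` with `|y| = ‖u - v‖` (`AddCircle.norm_eq`, or `AddCircle.exists_norm_eq`-type lemmas). -/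
theorem dir_lip (u v : Ang) : |(dir u).re - (dir v).re| ≤ ‖u - v‖ := by
  obtain ⟨x, rfl⟩ := QuotientAddGroup.mk_surjective u
  obtain ⟨y, rfl⟩ := QuotientAddGroup.mk_surjective v
  change |(dir (x : Ang)).re - (dir (y : Ang)).re| ≤ ‖(x : Ang) - (y : Ang)‖
  rw [← AddCircle.coe_sub, AddCircle.norm_eq, l4a_dir, l4a_dir]
  set k : ℤ := round ((2 * Real.pi)⁻¹ * (x - y)) with hk
  have h1 : Real.cos y = Real.cos (y + k * (2 * Real.pi)) := (Real.cos_add_int_mul_two_pi y k).symm
  rw [h1]
  have h2 := Real.abs_cos_sub_cos_le x (y + k * (2 * Real.pi))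
  have h3 : x - y - k * (2 * Real.pi) = x - (y + k * (2 * Real.pi)) := by ring
  rw [h3]
  exact h2

end BIL
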