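import Pool.Agent.BIL.L4a

/-!
# [BIL-L4b] the functions cosm m c: Lipschitz, reflections
-/

set_option autoImplicit false

open MeasureTheory Set Filter Topology

namespace BIL

theorem L4b_grp {A : Type} [AddCommGroup A] (m : ℕ) (b t c : A) :
    m • ((2 : ℕ) • b - t - c) = (2 * m) • (b - c) - m • (t - c) := by
  rw [mul_nsmul, ← nsmul_sub]
  congr 1
  abel

theorem L4b_two {A : Type} [AddCommGroup A] (m : ℕ) (b : A) : (2 * m) • b = m • b + m • b := by
  rw [two_mul, add_nsmul]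

theorem L4b_neg (u : Ang) : (dir (-u)).re = (dir u).re := by
  unfold dir
  rw [AddCircle.toCircle_neg, Circle.coe_inv_eq_conj, Complex.conj_re]

theorem L4b_norm (u : Ang) : (dir u).re ^ 2 + (dir u).im ^ 2 = 1 := by
  have h1 : Complex.normSq (dir u) = 1 := Circle.normSq_coe _
  rw [Complex.normSq_apply] at h1
  linarith

theorem L4b_add (u : Ang) : (dir (u + u)).re = (dir u).re ^ 2 - (dir u).im ^ 2 := by
  unfold dir
  rw [AddCircle.toCircle_add, Circle.coe_mul, Complex.mul_re]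
  ring


/-- [L4e] From `dir_lip` and `norm_nsmul_le`. -/
theorem cosm_lip (m : ℕ) (c : Ang) : LipschitzWith m (cosm m c) := by
  refine LipschitzWith.of_dist_le_mul fun θ θ' => ?_
  rw [Real.dist_eq]
  unfold cosm
  refine (dir_lip _ _).trans ?_
  have h1 : m • (θ - c) - m • (θ' - c) = m • (θ - θ') := by rw [← nsmul_sub]; congr 1; abel
  rw [h1, dist_eq_norm]
  exact norm_nsmul_le

/-- [L4f] `m • (2 • β - θ - c) = (2 * m) • (β - c) - m • (θ - c)` and `(dir (-u)).re = (dir u).re`, `dir_lip`. -/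
theorem cosm_refl (m : ℕ) (c β θ : Ang) :
    |cosm m c ((2 : ℕ) • β - θ) - cosm m c θ| ≤ ‖(2 * m) • (β - c)‖ := by
  unfold cosm
  have h1 : m • ((2 : ℕ) • β - θ - c) = (2 * m) • (β - c) - m • (θ - c) := L4b_grp m β θ c
  rw [h1, ← L4b_neg (m • (θ - c))]
  refine (dir_lip _ _).trans (le_of_eq ?_)
  congr 1
  abel

/-- [L4g] `cos² = (1 + cos 2 ·) / 2`. -/
theorem cosm_sq (m : ℕ) (c θ : Ang) : cosm m c θ ^ 2 = (1 + cosm (2 * m) c θ) / 2 := by
  unfold cosm
  have h1 : (2 * m) • (θ - c) = m • (θ - c) + m • (θ - c) := L4b_two m _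
  rw [h1, L4b_add]
  have h2 := L4b_norm (m • (θ - c))
  linarith

end BIL
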