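import Pool.Agent.BIL.L4b
import Pool.Agent.BIL.L1c

/-!
# [BIL-L4c] integrals of cosm m c
-/

set_option autoImplicit false

open MeasureTheory Set Filter Topology

namespace BIL

/-- [L4h] Rotation invariance: the map `(x, θ) ↦ (x, θ + d)` preserves the volume of `ℂ × Ang` and the set
`P ×ˢ univ`, hence `liou P`. (`MeasurePreserving.prod`, `measurePreserving_add_right`, `MeasurePreserving.restrict_preimage`;
or compute both sides: `∫ g z.2 ∂(liou P) = (2 π)⁻¹ * ∫ g` by `integral_prod`-type lemmas, `Measure.prod_restrict`,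
and `integral_add_right_eq_self`.) -/
theorem liou_rot {n : ℕ} {P : Set ℂ} {a b : Fin n → ℂ} (hP : IsPolygon P a b) (g : Ang → ℝ)
    (hg : Continuous g) (d : Ang) :
    ∫ z, g (z.2 + d) ∂(liou P) = ∫ z, g z.2 ∂(liou P) := by
  have hPm : MeasurableSet P := hP.compact.isClosed.measurableSet
  have hset : MeasurableSet (P ×ˢ (univ : Set Ang)) := hPm.prod MeasurableSet.univ
  have hT : MeasurePreserving (Prod.map id (fun θ : Ang => θ + d))
      (volume : Measure (ℂ × Ang)) (volume : Measure (ℂ × Ang)) := by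
    rw [Measure.volume_eq_prod]
    exact (MeasurePreserving.id (volume : Measure ℂ)).prod
      (measurePreserving_add_right (volume : Measure Ang) d)
  have hT' := hT.restrict_preimage hset
  have hpre : (Prod.map id (fun θ : Ang => θ + d)) ⁻¹' (P ×ˢ (univ : Set Ang)) = P ×ˢ univ := by
    ext z
    simp
  rw [hpre] at hT'
  have hint : ∫ z, g (z.2 + d) ∂((volume : Measure (ℂ × Ang)).restrict (P ×ˢ univ))
      = ∫ z, g z.2 ∂((volume : Measure (ℂ × Ang)).restrict (P ×ˢ univ)) := by
    have h1 := integral_map (μ := (volume : Measure (ℂ × Ang)).restrict (P ×ˢ univ))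
      (φ := Prod.map id (fun θ : Ang => θ + d)) (f := fun z : ℂ × Ang => g z.2)
      hT'.measurable.aemeasurable
      (by rw [hT'.map_eq]; exact (hg.comp continuous_snd).aestronglyMeasurable)
    rw [hT'.map_eq] at h1
    exact h1.symm
  unfold liou
  rw [ProbabilityTheory.cond, integral_smul_measure, integral_smul_measure, hint]

/-- [L4i] With `d = (π / m : ℝ)`: `cosm m c (θ + d) = - cosm m c θ`; so the integral equals its negative. -/
theorem cosm_int {n : ℕ} {P : Set ℂ} {a b : Fin n → ℂ} (hP : IsPolygon P a b) {m : ℕ} (hm : 0 < m)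
    (c : Ang) : ∫ z, cosm m c z.2 ∂(liou P) = 0 := by
  have hm0 : (m : ℝ) ≠ 0 := (Nat.cast_pos.2 hm).ne'
  have h1 := liou_rot hP (cosm m c) (cosm_cont m c) ((Real.pi / m : ℝ) : Ang)
  have h2 : ∀ z : ℂ × Ang, cosm m c (z.2 + ((Real.pi / m : ℝ) : Ang)) = - cosm m c z.2 := by
    intro z
    obtain ⟨x, hx⟩ := QuotientAddGroup.mk_surjective z.2
    obtain ⟨y, hy⟩ := QuotientAddGroup.mk_surjective c
    rw [← hx, ← hy]
    have h3 : ((x : ℝ) : Ang) + ((Real.pi / m : ℝ) : Ang) = ((x + Real.pi / m : ℝ) : Ang) :=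
      (AddCircle.coe_add _ _ _).symm
    have h4 : cosm m (y : Ang) ((x : Ang) + ((Real.pi / m : ℝ) : Ang)) = - cosm m (y : Ang) (x : Ang) := by
      rw [h3, cosm_coe, cosm_coe]
      have h5 : (m : ℝ) * (x + Real.pi / m - y) = m * (x - y) + Real.pi := by
        field_simp
        ring
      rw [h5, Real.cos_add_pi]
    exact h4
  rw [integral_congr_ae (Eventually.of_forall h2), integral_neg] at h1
  linarith

/-- [L4j] From `cosm_sq`, `cosm_int` for `2 * m` and `liou_prob`. -/
theorem cosm_int_sq {n : ℕ} {P : Set ℂ} {a b : Fin n → ℂ} (hP : IsPolygon P a b) {m : ℕ}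
    (hm : 0 < m) (c : Ang) : ∫ z, cosm m c z.2 ^ 2 ∂(liou P) = 1 / 2 := by
  have hprob := liou_prob hP
  have h1 : ∀ z : ℂ × Ang, cosm m c z.2 ^ 2 = 1 / 2 + (1 / 2) * cosm (2 * m) c z.2 := by
    intro z
    rw [cosm_sq]
    ring
  have h2 : Integrable (fun z : ℂ × Ang => (1 / 2 : ℝ) * cosm (2 * m) c z.2) (liou P) := by
    refine Integrable.const_mul ?_ _
    refine Integrable.of_bound ((cosm_cont (2 * m) c).comp continuous_snd).aestronglyMeasurable 1 ?_
    exact Eventually.of_forall fun z => abs_cosm_le _ _ _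
  rw [integral_congr_ae (Eventually.of_forall h1), integral_add (integrable_const _) h2,
    integral_const_mul, cosm_int hP (by omega) c, integral_const]
  simp

end BIL
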