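import Pool.Agent.BIL.L3
import Pool.Agent.BIL.L4c

/-!
# [BIL-L5] lower bound for the correlations of `cosm m c`
-/

set_option autoImplicit false

open MeasureTheory Set Filter Topology

namespace BIL

/-- [L5] `C` from `near_inv`. Let `f = cosm m c`, `f_t z = f (φ t z).2`, `f_0 z = f z.2`. By `cosm_int` the correlation is `∫ f_t f_0`. As `|f_0| ≤ 1`,
`f_t f_0 ≥ f_0 ^ 2 - |f_t - f_0|`, all functions are bounded and measurable (so integrable, `liou_prob`), so
`corr ≥ 1 / 2 - ∫ |f_t - f_0|` (`cosm_int_sq`), and `∫ |f_t - f_0| ≤ C t η` by `near_inv`, `cosm_refl`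
(`ofReal_integral_eq_lintegral_ofReal` or `integral_eq_lintegral_of_nonneg_ae`, `ENNReal.toReal_le_of_le_ofReal`). -/
theorem corr_ge {n : ℕ} {P : Set ℂ} {a b : Fin n → ℂ} (hP : IsPolygon P a b) :
    ∃ C > 0, ∀ φ, IsBilliardFlow P a b φ → ∀ (m : ℕ) (c : Ang) (η : ℝ), 0 < m → 0 ≤ η →
      (∀ i, ‖(2 * m) • (ang (b i - a i) - c)‖ ≤ η) → ∀ t : ℝ, 0 < t →
      1 / 2 - C * t * η ≤ corr P φ (cosm m c) t := by
  obtain ⟨C, hC, hCn⟩ := near_inv hP
  refine ⟨C, hC, fun φ hφ m c η hm hη hη2 t ht => ?_⟩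
  have := liou_prob hP
  have hfc := cosm_cont m c
  have hm1 : Measurable fun z : ℂ × Ang => cosm m c z.2 := hfc.measurable.comp measurable_snd
  have hm2 : Measurable fun z : ℂ × Ang => cosm m c (φ t z).2 :=
    hfc.measurable.comp (measurable_snd.comp (hφ.mp t).measurable)
  have hb : ∀ θ, |cosm m c θ| ≤ 1 := abs_cosm_le m c
  have hi : ∀ (F : ℂ × Ang → ℝ), Measurable F → (∃ B : ℝ, ∀ z, |F z| ≤ B) →
      Integrable F (liou P) := by
    intro F hF hB
    obtain ⟨B, hB⟩ := hB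
    exact Integrable.of_bound hF.aestronglyMeasurable B (ae_of_all _ fun z => by
      rw [Real.norm_eq_abs]; exact hB z)
  have i1 : Integrable (fun z : ℂ × Ang => cosm m c (φ t z).2 * cosm m c z.2) (liou P) := by
    refine hi _ (hm2.mul hm1) ⟨1, fun z => ?_⟩
    rw [abs_mul]
    exact mul_le_one₀ (hb _) (abs_nonneg _) (hb _)
  have i2 : Integrable (fun z : ℂ × Ang => cosm m c z.2 ^ 2) (liou P) := by
    refine hi _ (hm1.pow_const 2) ⟨1, fun z => ?_⟩
    rw [abs_pow]
    exact pow_le_one₀ (abs_nonneg _) (hb _)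
  have i3 : Integrable (fun z : ℂ × Ang => |cosm m c (φ t z).2 - cosm m c z.2|) (liou P) := by
    refine hi _ (hm2.sub hm1).abs ⟨2, fun z => ?_⟩
    rw [abs_abs]
    refine (abs_sub _ _).trans ?_
    linarith [hb (φ t z).2, hb z.2]
  have hlow : ∫ z, (cosm m c z.2 ^ 2 - |cosm m c (φ t z).2 - cosm m c z.2|) ∂(liou P) ≤
      ∫ z, cosm m c (φ t z).2 * cosm m c z.2 ∂(liou P) := by
    refine integral_mono (i2.sub i3) i1 fun z => ?_
    have h1 : |(cosm m c (φ t z).2 - cosm m c z.2) * cosm m c z.2| ≤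
        |cosm m c (φ t z).2 - cosm m c z.2| := by
      rw [abs_mul]
      exact mul_le_of_le_one_right (abs_nonneg _) (hb _)
    have h2 := (abs_le.1 h1).1
    simp only
    nlinarith
  rw [integral_sub i2 i3, cosm_int_sq hP hm c] at hlow
  have hup : ∫ z, |cosm m c (φ t z).2 - cosm m c z.2| ∂(liou P) ≤ C * t * η := by
    have h1 := hCn φ hφ (cosm m c) η hη
      (fun i θ => (cosm_refl m c (ang (b i - a i)) θ).trans (hη2 i)) t ht
    rw [← ofReal_integral_eq_lintegral_ofReal i3 (ae_of_all _ fun z => abs_nonneg _)] at h1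
    exact (ENNReal.ofReal_le_ofReal_iff (by positivity)).1 h1
  unfold corr
  rw [cosm_int hP hm c]
  linarith


end BIL
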