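import Pool.Agent.BIL.Defs

/-!
# [BIL-L6] simultaneous approximation
-/

set_option autoImplicit false

open MeasureTheory Set Filter Topology

namespace BIL

theorem L6_norm_coe (x : ℝ) : ‖(x : Ang)‖ ≤ |x| := QuotientAddGroup.norm_mk_le_norm

/-- the representative in `[0, 2π)` -/
noncomputable def L6_rep (u : Ang) : ℝ := (AddCircle.equivIco (2 * Real.pi) 0 u : ℝ)

theorem L6_rep_mem (u : Ang) : 0 ≤ L6_rep u ∧ L6_rep u < 2 * Real.pi := by
  have h := (AddCircle.equivIco (2 * Real.pi) 0 u).2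
  exact ⟨h.1, by have := h.2; unfold L6_rep; linarith⟩

theorem L6_rep_coe (u : Ang) : ((L6_rep u : ℝ) : Ang) = u := AddCircle.coe_equivIco

/-- [L6] Dirichlet's theorem. Pigeonhole: for `j ∈ {0, ..., Q ^ k}` let `x_{i,j} ∈ [0, 2π)` be the representative of `j • ξ i`
(`AddCircle.equivIco`) and put `j` into the box `i ↦ ⌊Q x_{i,j} / (2π)⌋ ∈ {0, ..., Q - 1}` (`Fin k → Fin Q` has `Q ^ k` elements;
`Fintype.exists_ne_map_eq_of_card_lt`). Two numbers `j < j'` are in the same box; `m = j' - j` satisfies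
`‖m • ξ i‖ = ‖j' • ξ i - j • ξ i‖ ≤ |x_{i,j'} - x_{i,j}| ≤ 2π / Q`. (For `k = 0`: `m = 1`.) -/
theorem dirichlet {k : ℕ} (ξ : Fin k → Ang) {Q : ℕ} (hQ : 0 < Q) :
    ∃ m : ℕ, 0 < m ∧ m ≤ Q ^ k ∧ ∀ i, ‖m • ξ i‖ ≤ 2 * Real.pi / Q := by
  have hpi : 0 < 2 * Real.pi := Real.two_pi_pos
  have hQ' : (0 : ℝ) < Q := by exact_mod_cast hQ
  have hlt : ∀ (j : ℕ) (i : Fin k), ⌊Q * L6_rep (j • ξ i) / (2 * Real.pi)⌋₊ < Q := by
    intro j i
    rw [Nat.floor_lt' hQ.ne', div_lt_iff₀ hpi]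
    exact mul_lt_mul_of_pos_left (L6_rep_mem _).2 hQ'
  let f : Fin (Q ^ k + 1) → (Fin k → Fin Q) := fun j i =>
    ⟨⌊Q * L6_rep ((j : ℕ) • ξ i) / (2 * Real.pi)⌋₊, hlt j i⟩
  have hcard : Fintype.card (Fin k → Fin Q) < Fintype.card (Fin (Q ^ k + 1)) := by
    rw [Fintype.card_fun, Fintype.card_fin, Fintype.card_fin, Fintype.card_fin]
    exact Nat.lt_succ_self _
  obtain ⟨j, j', hne, hjj⟩ := Fintype.exists_ne_map_eq_of_card_lt f hcard
  have key : ∀ j j' : Fin (Q ^ k + 1), j < j' → f j = f j' →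
      ∃ m : ℕ, 0 < m ∧ m ≤ Q ^ k ∧ ∀ i, ‖m • ξ i‖ ≤ 2 * Real.pi / Q := by
    intro j j' hlt' hff
    have h1 : (j : ℕ) < j' := hlt'
    have h2 := j'.2
    refine ⟨(j' : ℕ) - j, by omega, by omega, fun i => ?_⟩
    have h3 : ((j' : ℕ) - j) • ξ i = (j' : ℕ) • ξ i - (j : ℕ) • ξ i := by
      rw [eq_sub_iff_add_eq, ← add_nsmul, Nat.sub_add_cancel h1.le]
    rw [h3, ← L6_rep_coe ((j' : ℕ) • ξ i), ← L6_rep_coe ((j : ℕ) • ξ i), ← AddCircle.coe_sub]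
    refine (L6_norm_coe _).trans ?_
    have h4 : ⌊Q * L6_rep ((j : ℕ) • ξ i) / (2 * Real.pi)⌋₊ =
        ⌊Q * L6_rep ((j' : ℕ) • ξ i) / (2 * Real.pi)⌋₊ :=
      congrArg Fin.val (congrFun hff i)
    set x := L6_rep ((j : ℕ) • ξ i) with hx
    set y := L6_rep ((j' : ℕ) • ξ i) with hy
    have hx0 : 0 ≤ x := (L6_rep_mem _).1
    have hy0 : 0 ≤ y := (L6_rep_mem _).1
    have a1 := Nat.floor_le (show 0 ≤ Q * x / (2 * Real.pi) by positivity)
    have a2 := Nat.lt_floor_add_one (Q * x / (2 * Real.pi))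
    have a3 := Nat.floor_le (show 0 ≤ Q * y / (2 * Real.pi) by positivity)
    have a4 := Nat.lt_floor_add_one (Q * y / (2 * Real.pi))
    rw [h4] at a1 a2
    rw [le_div_iff₀ hpi] at a1 a3
    rw [div_lt_iff₀ hpi] at a2 a4
    rw [le_div_iff₀ hQ']
    have h5 : |y - x| * Q = |y * Q - x * Q| := by
      rw [← sub_mul, abs_mul, abs_of_pos hQ']
    rw [h5, abs_le]
    constructor <;> nlinarith
  rcases lt_or_gt_of_ne hne with h | h
  · exact key j j' h hjj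
  · exact key j' j h hjj.symm


end BIL
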