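import Pool.Agent.BIL.L4c

/-!
# [BIL-L8a] the quadratic form corr
-/

set_option autoImplicit false

open MeasureTheory Set Filter Topology

namespace BIL

theorem L8a_int {n : ℕ} {P : Set ℂ} {a b : Fin n → ℂ} (hP : IsPolygon P a b)
    {φ : ℝ → ℂ × Ang → ℂ × Ang} (hφ : IsBilliardFlow P a b φ) {g h : Ang → ℝ} (hg : Continuous g)
    (hh : Continuous h) (t : ℝ) :
    Integrable (fun z => g (φ t z).2 * h z.2) (liou P) ∧ Integrable (fun z => g z.2) (liou P) := by
  have := liou_prob hP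
  have hbd : ∀ g : Ang → ℝ, Continuous g → ∃ B, ∀ θ, |g θ| ≤ B := by
    intro g hg
    obtain ⟨B, hB⟩ := (isCompact_range hg).isBounded.exists_norm_le
    exact ⟨B, fun θ => hB _ ⟨θ, rfl⟩⟩
  obtain ⟨B, hB⟩ := hbd g hg
  obtain ⟨B', hB'⟩ := hbd h hh
  refine ⟨?_, ?_⟩
  · refine Integrable.of_bound (((hg.measurable.comp (measurable_snd.comp (hφ.mp t).measurable)).mul
      (hh.measurable.comp measurable_snd)).aestronglyMeasurable) (B * B') (ae_of_all _ fun z => ?_)
    rw [norm_mul]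
    exact mul_le_mul (hB _) (hB' _) (norm_nonneg _) ((abs_nonneg _).trans (hB 0))
  · exact Integrable.of_bound (hg.measurable.comp measurable_snd).aestronglyMeasurable B
      (ae_of_all _ fun z => hB _)

/-- [L8a] Perturbation: `|g z.2 g (φ t z).2 - h z.2 h (φ t z).2| ≤ 2 r` and the two means differ by at most `r` and are at most `1` in absolute value. -/
theorem corr_pert {n : ℕ} {P : Set ℂ} {a b : Fin n → ℂ} (hP : IsPolygon P a b)
    {φ : ℝ → ℂ × Ang → ℂ × Ang} (hφ : IsBilliardFlow P a b φ) {g h : Ang → ℝ} (hg : Continuous g)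
    (hh : Continuous h) (hg1 : ∀ θ, |g θ| ≤ 1) (hh1 : ∀ θ, |h θ| ≤ 1) {r : ℝ}
    (hr : ∀ θ, |g θ - h θ| ≤ r) (t : ℝ) : |corr P φ g t - corr P φ h t| ≤ 4 * r := by
  have := liou_prob hP
  obtain ⟨i1, i2⟩ := L8a_int hP hφ hg hg t
  obtain ⟨i3, i4⟩ := L8a_int hP hφ hh hh t
  have hr0 : 0 ≤ r := (abs_nonneg _).trans (hr 0)
  have h1 : |∫ z, (g (φ t z).2 * g z.2 - h (φ t z).2 * h z.2) ∂(liou P)| ≤ 2 * r := by
    have h2 := norm_integral_le_of_norm_le_const (μ := liou P) (C := 2 * r)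
      (f := fun z => g (φ t z).2 * g z.2 - h (φ t z).2 * h z.2) (ae_of_all _ fun z => by
        have e : g (φ t z).2 * g z.2 - h (φ t z).2 * h z.2 =
          g (φ t z).2 * (g z.2 - h z.2) + (g (φ t z).2 - h (φ t z).2) * h z.2 := by ring
        rw [e]
        refine (norm_add_le _ _).trans ?_
        rw [norm_mul, norm_mul]
        have a1 : ‖g (φ t z).2‖ * ‖g z.2 - h z.2‖ ≤ 1 * r :=
          mul_le_mul (hg1 _) (hr _) (norm_nonneg _) zero_le_one
        have a2 : ‖g (φ t z).2 - h (φ t z).2‖ * ‖h z.2‖ ≤ r * 1 :=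
          mul_le_mul (hr _) (hh1 _) (norm_nonneg _) hr0
        linarith)
    rw [probReal_univ, mul_one] at h2
    exact h2
  have h3 : |∫ z, (g z.2 - h z.2) ∂(liou P)| ≤ r := by
    have h2 := norm_integral_le_of_norm_le_const (μ := liou P) (C := r)
      (f := fun z : ℂ × Ang => g z.2 - h z.2) (ae_of_all _ fun z => hr _)
    rw [probReal_univ, mul_one] at h2
    exact h2
  have h4 : |∫ z, g z.2 ∂(liou P)| ≤ 1 := by
    have h2 := norm_integral_le_of_norm_le_const (μ := liou P) (C := 1)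
      (f := fun z : ℂ × Ang => g z.2) (ae_of_all _ fun z => hg1 _)
    rw [probReal_univ, mul_one] at h2
    exact h2
  have h5 : |∫ z, h z.2 ∂(liou P)| ≤ 1 := by
    have h2 := norm_integral_le_of_norm_le_const (μ := liou P) (C := 1)
      (f := fun z : ℂ × Ang => h z.2) (ae_of_all _ fun z => hh1 _)
    rw [probReal_univ, mul_one] at h2
    exact h2
  rw [integral_sub i1 i3] at h1
  rw [integral_sub i2 i4] at h3
  unfold corr
  set X := ∫ z, g (φ t z).2 * g z.2 ∂(liou P)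
  set Y := ∫ z, h (φ t z).2 * h z.2 ∂(liou P)
  set G := ∫ z, g z.2 ∂(liou P)
  set H := ∫ z, h z.2 ∂(liou P)
  have h6 : |G ^ 2 - H ^ 2| ≤ 2 * r := by
    have e : G ^ 2 - H ^ 2 = (G - H) * (G + H) := by ring
    rw [e, abs_mul]
    have h7 : |G + H| ≤ 2 := (abs_add_le _ _).trans (by linarith)
    have := mul_le_mul h3 h7 (abs_nonneg _) hr0
    linarith
  have e : X - G ^ 2 - (Y - H ^ 2) = (X - Y) - (G ^ 2 - H ^ 2) := by ring
  rw [e]
  refine (abs_sub _ _).trans ?_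
  linarith

/-- [L8b] The parallelogram law for the quadratic form `corr P φ · t`:
`corr (g + h) + corr (g - h) - 2 corr g = 2 corr h`. All functions are bounded and continuous, so integrable. -/
theorem corr_par {n : ℕ} {P : Set ℂ} {a b : Fin n → ℂ} (hP : IsPolygon P a b)
    {φ : ℝ → ℂ × Ang → ℂ × Ang} (hφ : IsBilliardFlow P a b φ) {g h : Ang → ℝ} (hg : Continuous g)
    (hh : Continuous h) (t : ℝ) :
    corr P φ (fun θ => g θ + h θ) t + corr P φ (fun θ => g θ - h θ) t - 2 * corr P φ g t =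
      2 * corr P φ h t := by
  have := liou_prob hP
  obtain ⟨i1, i2⟩ := L8a_int hP hφ hg hg t
  obtain ⟨i3, i4⟩ := L8a_int hP hφ hh hh t
  obtain ⟨i5, -⟩ := L8a_int hP hφ hg hh t
  obtain ⟨i6, -⟩ := L8a_int hP hφ hh hg t
  unfold corr
  have e1 : ∫ z, (g (φ t z).2 + h (φ t z).2) * (g z.2 + h z.2) ∂(liou P) =
      ∫ z, g (φ t z).2 * g z.2 ∂(liou P) + ∫ z, g (φ t z).2 * h z.2 ∂(liou P) +
        (∫ z, h (φ t z).2 * g z.2 ∂(liou P) + ∫ z, h (φ t z).2 * h z.2 ∂(liou P)) := by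
    rw [← integral_add i1 i5, ← integral_add i6 i3,
      ← integral_add (f := fun z : ℂ × Ang => g (φ t z).2 * g z.2 + g (φ t z).2 * h z.2)
        (g := fun z : ℂ × Ang => h (φ t z).2 * g z.2 + h (φ t z).2 * h z.2)
        (i1.add i5) (i6.add i3)]
    refine integral_congr_ae (ae_of_all _ fun z => ?_)
    simp only
    ring
  have e2 : ∫ z, (g (φ t z).2 - h (φ t z).2) * (g z.2 - h z.2) ∂(liou P) =
      ∫ z, g (φ t z).2 * g z.2 ∂(liou P) - ∫ z, g (φ t z).2 * h z.2 ∂(liou P) -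
        (∫ z, h (φ t z).2 * g z.2 ∂(liou P) - ∫ z, h (φ t z).2 * h z.2 ∂(liou P)) := by
    rw [← integral_sub i1 i5, ← integral_sub i6 i3,
      ← integral_sub (f := fun z : ℂ × Ang => g (φ t z).2 * g z.2 - g (φ t z).2 * h z.2)
        (g := fun z : ℂ × Ang => h (φ t z).2 * g z.2 - h (φ t z).2 * h z.2)
        (i1.sub i5) (i6.sub i3)]
    refine integral_congr_ae (ae_of_all _ fun z => ?_)
    simp only
    ring
  have e3 : ∫ z, (g z.2 + h z.2) ∂(liou P) =
      ∫ z, g z.2 ∂(liou P) + ∫ z, h z.2 ∂(liou P) := integral_add i2 i4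
  have e4 : ∫ z, (g z.2 - h z.2) ∂(liou P) =
      ∫ z, g z.2 ∂(liou P) - ∫ z, h z.2 ∂(liou P) := integral_sub i2 i4
  rw [e1, e2, e3, e4]
  ring

/-- [L8c] From `corr_par` with `h = e • cosm m c` (`corr (e • h) = e ^ 2 * corr h`): one of the three numbers
`corr g`, `corr (g + e cosm)`, `corr (g - e cosm)` has absolute value at least `e ^ 2 / 8`, because
`e ^ 2 / 2 ≤ 2 e ^ 2 corr (cosm) ≤ |corr (g + ..)| + |corr (g - ..)| + 2 |corr g|`. -/
theorem corr_choice {n : ℕ} {P : Set ℂ} {a b : Fin n → ℂ} (hP : IsPolygon P a b)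
    {φ : ℝ → ℂ × Ang → ℂ × Ang} (hφ : IsBilliardFlow P a b φ) {g : Ang → ℝ} (hg : Continuous g)
    {m : ℕ} {c : Ang} {t e : ℝ} (h : 1 / 4 ≤ corr P φ (cosm m c) t) :
    ∃ d : ℝ, |d| ≤ |e| ∧ e ^ 2 / 8 ≤ |corr P φ (fun θ => g θ + d * cosm m c θ) t| := by
  have hc : Continuous (cosm m c) := cosm_cont m c
  by_contra hno
  push Not at hno
  have h0 := hno 0 (by simp)
  have h1 := hno e le_rfl
  have h2 := hno (-e) (by rw [abs_neg])
  have hpar := corr_par hP hφ hg (h := fun θ => e * cosm m c θ) (continuous_const.mul hc) t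
  have e0 : (fun θ => g θ + 0 * cosm m c θ) = g := by
    funext θ
    ring
  have e2 : (fun θ => g θ + -e * cosm m c θ) = fun θ => g θ - e * cosm m c θ := by
    funext θ
    ring
  rw [e0] at h0
  rw [e2] at h2
  have e3 : corr P φ (fun θ => e * cosm m c θ) t = e ^ 2 * corr P φ (cosm m c) t := by
    unfold corr
    have a1 : ∫ z, e * cosm m c (φ t z).2 * (e * cosm m c z.2) ∂(liou P) =
        e ^ 2 * ∫ z, cosm m c (φ t z).2 * cosm m c z.2 ∂(liou P) := by
      rw [← integral_const_mul]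
      refine integral_congr_ae (ae_of_all _ fun z => ?_)
      simp only
      ring
    have a2 : ∫ z, e * cosm m c z.2 ∂(liou P) = e * ∫ z, cosm m c z.2 ∂(liou P) :=
      integral_const_mul _ _
    rw [a1, a2]
    ring
  rw [e3] at hpar
  have h3 := mul_le_mul_of_nonneg_left h (sq_nonneg e)
  have b0 := (abs_lt.1 h0)
  have b1 := (abs_lt.1 h1)
  have b2 := (abs_lt.1 h2)
  linarith [b0.1, b1.2, b2.2]

end BIL
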