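import Pool.Agent.BIL.L4a

/-!
# [BIL-L8b] smooth series
-/

set_option autoImplicit false

open MeasureTheory Set Filter Topology
open scoped ContDiff

namespace BIL

theorem l8b_deriv (k m : ℕ) (d c x : ℝ) :
    |iteratedDeriv k (fun y : ℝ => d * Real.cos (m * (y - c))) x| ≤ |d| * (m : ℝ) ^ k := by
  have h1 : iteratedDeriv k (fun y : ℝ => d * Real.cos (m * (y - c))) x
      = d * iteratedDeriv k (fun y : ℝ => Real.cos (m * (y - c))) x :=
    iteratedDeriv_const_mul_field d (fun y : ℝ => Real.cos (m * (y - c)))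
  have h2 := iteratedDeriv_comp_sub_const k (fun y : ℝ => Real.cos (m * y)) c
  have h3 := iteratedDeriv_comp_const_mul (n := k) (f := Real.cos) Real.contDiff_cos (m : ℝ)
  rw [h1, h2, h3, abs_mul]
  refine mul_le_mul_of_nonneg_left ?_ (abs_nonneg _)
  show |(m : ℝ) ^ k * iteratedDeriv k Real.cos (m * (x - c))| ≤ _
  rw [abs_mul, abs_of_nonneg (pow_nonneg (Nat.cast_nonneg m) k)]
  exact mul_le_of_le_one_right (pow_nonneg (Nat.cast_nonneg m) k)
    (Real.abs_iteratedDeriv_cos_le_one k _)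

theorem l8b_bound (k m j : ℕ) (hj : j ≤ m) :
    Real.exp (-(m : ℝ)) * (m : ℝ) ^ k ≤ 2 ^ k * (k.factorial : ℝ) * Real.exp (-(1 / 2 : ℝ)) ^ j := by
  have h1 := Real.pow_div_factorial_le_exp (x := (m : ℝ) / 2) (by positivity) k
  have hk : (0 : ℝ) < k.factorial := Nat.cast_pos.2 k.factorial_pos
  rw [div_le_iff₀ hk, div_pow, div_le_iff₀ (by positivity)] at h1
  have h2 : Real.exp (-(m : ℝ)) * Real.exp ((m : ℝ) / 2) ≤ Real.exp (-(1 / 2 : ℝ)) ^ j := by
    rw [← Real.exp_add, ← Real.exp_nat_mul]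
    apply Real.exp_le_exp.2
    have h3 : (j : ℝ) ≤ m := Nat.cast_le.2 hj
    linarith
  have hE : 0 < Real.exp (-(m : ℝ)) := Real.exp_pos _
  calc Real.exp (-(m : ℝ)) * (m : ℝ) ^ k
      ≤ Real.exp (-(m : ℝ)) * (Real.exp ((m : ℝ) / 2) * k.factorial * 2 ^ k) :=
        mul_le_mul_of_nonneg_left h1 hE.le
    _ = (Real.exp (-(m : ℝ)) * Real.exp ((m : ℝ) / 2)) * (2 ^ k * (k.factorial : ℝ)) := by ring
    _ ≤ Real.exp (-(1 / 2 : ℝ)) ^ j * (2 ^ k * (k.factorial : ℝ)) :=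
        mul_le_mul_of_nonneg_right h2 (by positivity)
    _ = _ := by ring

/-- [L8d] A series `∑ d_j cos (m_j (x - c))` with `|d_j| ≤ exp (- m_j)`, `m_j ≥ j` is smooth: `contDiff_tsum` with the bounds
`m_j ^ N exp (- m_j)` for the `N`-th derivative (summable: `m ^ N exp (-m / 2)` is bounded and `exp (- m_j / 2) ≤ exp (- j / 2)`).
Every `c : Ang` is the class of a real number. -/
theorem series_smooth (c : Ang) (m : ℕ → ℕ) (d : ℕ → ℝ) (hm : ∀ j, j ≤ m j)
    (hd : ∀ j, |d j| ≤ Real.exp (-(m j : ℝ))) :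
    ContDiff ℝ ∞ (fun x : ℝ => ∑' j, d j * cosm (m j) c (x : Ang)) := by
  obtain ⟨c0, rfl⟩ : ∃ c0 : ℝ, (c0 : Ang) = c := QuotientAddGroup.mk_surjective c
  have h0 : (fun x : ℝ => ∑' j, d j * cosm (m j) (c0 : Ang) (x : Ang))
      = fun x : ℝ => ∑' j, d j * Real.cos (m j * (x - c0)) := by
    funext x
    exact tsum_congr fun j => by rw [cosm_coe]
  rw [h0]
  refine contDiff_tsum (N := ⊤) (v := fun k j => 2 ^ k * (k.factorial : ℝ) *
    Real.exp (-(1 / 2 : ℝ)) ^ j) (fun j => ?_) (fun k _ => ?_) (fun k j x _ => ?_)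
  · exact contDiff_const.mul (Real.contDiff_cos.comp
      (contDiff_const.mul (contDiff_id.sub contDiff_const)))
  · refine (summable_geometric_of_lt_one (Real.exp_pos _).le ?_).mul_left _
    rw [Real.exp_lt_one_iff]
    norm_num
  · rw [norm_iteratedFDeriv_eq_norm_iteratedDeriv, Real.norm_eq_abs]
    refine (l8b_deriv k (m j) (d j) c0 x).trans ?_
    refine (mul_le_mul_of_nonneg_right (hd j) (by positivity)).trans ?_
    exact l8b_bound k (m j) j (hm j)

end BIL
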