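import Pool.Agent.BIL.L8a
import Pool.Agent.BIL.L8b

/-!
# [BIL-L8c] gliding hump
-/

set_option autoImplicit false

open MeasureTheory Set Filter Topology
open scoped ContDiff

namespace BIL

theorem l8c_step {n : ℕ} {P : Set ℂ} {a b : Fin n → ℂ} (hP : IsPolygon P a b)
    {φ : ℝ → ℂ × Ang → ℂ × Ang} (hφ : IsBilliardFlow P a b φ) (ρ : ℝ → ℝ) (c : Ang)
    (H : ∀ (N : ℕ) (T : ℝ), ∃ m : ℕ, N ≤ m ∧ ∃ t : ℝ, T ≤ t ∧ 1 / 4 ≤ corr P φ (cosm m c) t ∧
      ρ t < Real.exp (-(2 * (m : ℝ))) / 16) (N : ℕ) (T : ℝ) (g : {g : Ang → ℝ // Continuous g}) :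
    ∃ (m : ℕ) (t d : ℝ), N ≤ m ∧ T ≤ t ∧ ρ t < Real.exp (-(2 * (m : ℝ))) / 16 ∧
      |d| ≤ Real.exp (-(m : ℝ)) ∧
      Real.exp (-(2 * (m : ℝ))) / 8 ≤ |corr P φ (fun θ => g.1 θ + d * cosm m c θ) t| := by
  obtain ⟨m, hm, t, ht, h1, h2⟩ := H N T
  obtain ⟨d, hd, h3⟩ := corr_choice hP hφ g.2 (e := Real.exp (-(m : ℝ))) h1
  refine ⟨m, t, d, hm, ht, h2, ?_, ?_⟩
  · rwa [abs_of_pos (Real.exp_pos _)] at hd
  · have h4 : Real.exp (-(m : ℝ)) ^ 2 = Real.exp (-(2 * (m : ℝ))) := by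
      rw [← Real.exp_nat_mul]
      congr 1
      push_cast
      ring
    rwa [h4] at h3

theorem l8c_exp : Real.exp (-10) ≤ 1 / 1024 := by
  have h1 : (2 : ℝ) ≤ Real.exp 1 := by
    have := Real.add_one_le_exp (1 : ℝ)
    linarith
  have h2 : (1024 : ℝ) ≤ Real.exp 10 := by
    have h3 : Real.exp 10 = Real.exp 1 ^ 10 := by
      rw [← Real.exp_nat_mul]
      norm_num
    rw [h3]
    calc (1024 : ℝ) = 2 ^ 10 := by norm_num
      _ ≤ Real.exp 1 ^ 10 := pow_le_pow_left₀ (by norm_num) h1 10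
  rw [Real.exp_neg, ← one_div]
  exact one_div_le_one_div_of_le (by norm_num) h2

/-- [L8e] The gliding hump.

Choose recursively `m_j`, `t_j`, `d_j` such that `m_{j+1} ≥ 3 m_j + 10`, `m_0 ≥ 10`, `t_j ≥ j`, `1 / 4 ≤ corr (cosm m_j c) t_j`,
`ρ t_j < exp (- 2 m_j) / 16`, `|d_j| ≤ exp (- m_j)` and `exp (- 2 m_j) / 8 ≤ |corr g_j t_j|` for
`g_j = ∑ i ≤ j, d_i cosm m_i c` (`corr_choice` with `g = g_{j-1}`, `e = exp (- m_j)`). Let `g = ∑' d_i cosm m_i c`. As
`m_i ≥ 10 + 10 i`, `|g| ≤ ∑ exp (- m_i) ≤ 1`, and `|g - g_j| ≤ ∑_{i > j} exp (- m_i) ≤ 2 exp (- m_{j+1}) ≤ 2 exp (-10) exp (-3 m_j)`,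
so by `corr_pert` `|corr g t_j| ≥ exp (- 2 m_j) / 8 - 8 exp (-10) exp (-3 m_j) ≥ exp (-2 m_j) / 16 > ρ t_j`. Smooth by `series_smooth`;
`g` as a function on `Ang` is continuous (uniform limit, `continuous_tsum`). -/
theorem hump {n : ℕ} {P : Set ℂ} {a b : Fin n → ℂ} (hP : IsPolygon P a b)
    {φ : ℝ → ℂ × Ang → ℂ × Ang} (hφ : IsBilliardFlow P a b φ) (ρ : ℝ → ℝ) (c : Ang)
    (H : ∀ (N : ℕ) (T : ℝ), ∃ m : ℕ, N ≤ m ∧ ∃ t : ℝ, T ≤ t ∧ 1 / 4 ≤ corr P φ (cosm m c) t ∧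
      ρ t < Real.exp (-(2 * (m : ℝ))) / 16) :
    ∃ g : Ang → ℝ, ContDiff ℝ ∞ (fun x : ℝ => g (x : Ang)) ∧
      ∀ T : ℝ, ∃ t : ℝ, T ≤ t ∧ ρ t < |corr P φ g t| := by
  classical
  have hst := l8c_step hP hφ ρ c H
  choose M TT D hN hT hρ hd hc using hst
  let stp : ℕ → ℕ × {g : Ang → ℝ // Continuous g} → ℕ × {g : Ang → ℝ // Continuous g} :=
    fun j s => (3 * M s.1 j s.2 + 10, ⟨fun θ => s.2.1 θ + D s.1 j s.2 * cosm (M s.1 j s.2) c θ,
      s.2.2.add (continuous_const.mul (cosm_cont _ c))⟩)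
  let s : ℕ → ℕ × {g : Ang → ℝ // Continuous g} := fun j =>
    Nat.rec (10, ⟨fun _ => 0, continuous_const⟩) stp j
  have hs0 : s 0 = (10, ⟨fun _ => 0, continuous_const⟩) := rfl
  have hs1 : ∀ j, s (j + 1) = stp j (s j) := fun j => rfl
  set m : ℕ → ℕ := fun j => M (s j).1 j (s j).2 with hm
  set t : ℕ → ℝ := fun j => TT (s j).1 j (s j).2 with ht
  set d : ℕ → ℝ := fun j => D (s j).1 j (s j).2 with hd'
  have hm0 : 10 ≤ m 0 := hN 10 _ _
  have hm1 : ∀ j, 3 * m j + 10 ≤ m (j + 1) := fun j => hN (s (j + 1)).1 _ _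
  have hmj : ∀ j, 10 + 10 * j ≤ m j := by
    intro j
    induction j with
    | zero => simpa using hm0
    | succ j ih =>
      have := hm1 j
      omega
  have hmk : ∀ j k, m j + 10 * k ≤ m (j + k) := by
    intro j k
    induction k with
    | zero => simp
    | succ k ih =>
      have h1 := hm1 (j + k)
      have h2 : j + (k + 1) = j + k + 1 := by ring
      rw [h2]
      omega
  have hdj : ∀ j, |d j| ≤ Real.exp (-(m j : ℝ)) := fun j => hd _ _ _
  have htj : ∀ j : ℕ, (j : ℝ) ≤ t j := fun j => hT _ _ _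
  have hρj : ∀ j, ρ (t j) < Real.exp (-(2 * (m j : ℝ))) / 16 := fun j => hρ _ _ _
  have hsum : ∀ j θ, (s j).2.1 θ = ∑ i ∈ Finset.range j, d i * cosm (m i) c θ := by
    intro j θ
    induction j with
    | zero => rw [hs0]; simp
    | succ j ih => rw [Finset.sum_range_succ, ← ih, hs1]
  have hcj : ∀ j, Real.exp (-(2 * (m j : ℝ))) / 8 ≤
      |corr P φ (fun θ => ∑ i ∈ Finset.range (j + 1), d i * cosm (m i) c θ) (t j)| := by
    intro j
    have h1 := hc (s j).1 j (s j).2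
    have h2 : (fun θ => (s j).2.1 θ + D (s j).1 j (s j).2 * cosm (M (s j).1 j (s j).2) c θ)
        = fun θ => ∑ i ∈ Finset.range (j + 1), d i * cosm (m i) c θ := by
      funext θ
      rw [Finset.sum_range_succ, ← hsum j θ]
    rw [h2] at h1
    exact h1
  -- bounds
  set q : ℝ := Real.exp (-10) with hq
  have hq0 : 0 < q := Real.exp_pos _
  have hq1 : q ≤ 1 / 1024 := l8c_exp
  have hgeo : ∀ j k, Real.exp (-(m (j + k) : ℝ)) ≤ Real.exp (-(m j : ℝ)) * q ^ k := by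
    intro j k
    rw [hq, ← Real.exp_nat_mul, ← Real.exp_add]
    apply Real.exp_le_exp.2
    have h1 : ((m j : ℝ)) + 10 * k ≤ m (j + k) := by exact_mod_cast hmk j k
    linarith
  have hterm : ∀ i θ, |d i * cosm (m i) c θ| ≤ Real.exp (-(m i : ℝ)) := by
    intro i θ
    rw [abs_mul]
    calc |d i| * |cosm (m i) c θ| ≤ Real.exp (-(m i : ℝ)) * 1 :=
          mul_le_mul (hdj i) (abs_cosm_le _ _ _) (abs_nonneg _) (Real.exp_pos _).le
      _ = _ := mul_one _
  have hgs : Summable fun k : ℕ => q ^ k := summable_geometric_of_lt_one hq0.le (by linarith)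
  have hgt : ∑' k : ℕ, q ^ k ≤ 2 := by
    rw [tsum_geometric_of_lt_one hq0.le (by linarith)]
    rw [inv_le_comm₀ (by linarith) (by norm_num)]
    linarith
  have htail : ∀ j θ, Summable (fun k => d (j + k) * cosm (m (j + k)) c θ) ∧
      |∑' k, d (j + k) * cosm (m (j + k)) c θ| ≤ 2 * Real.exp (-(m j : ℝ)) := by
    intro j θ
    have hb : ∀ k, ‖d (j + k) * cosm (m (j + k)) c θ‖ ≤ Real.exp (-(m j : ℝ)) * q ^ k := by
      intro k
      rw [Real.norm_eq_abs]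
      exact (hterm _ θ).trans (hgeo j k)
    have hs2 : Summable fun k : ℕ => Real.exp (-(m j : ℝ)) * q ^ k := hgs.mul_left _
    refine ⟨Summable.of_norm_bounded hs2 hb, ?_⟩
    have h1 := tsum_of_norm_bounded hs2.hasSum hb
    rw [Real.norm_eq_abs] at h1
    refine h1.trans ?_
    rw [tsum_mul_left, mul_comm]
    exact mul_le_mul_of_nonneg_right hgt (Real.exp_pos _).le
  set g : Ang → ℝ := fun θ => ∑' i, d i * cosm (m i) c θ with hg
  have hsm : ∀ θ, Summable fun i => d i * cosm (m i) c θ := by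
    intro θ
    have h1 := (htail 0 θ).1
    simpa using h1
  have hsplit : ∀ j θ, g θ - ∑ i ∈ Finset.range (j + 1), d i * cosm (m i) c θ
      = ∑' k, d (j + 1 + k) * cosm (m (j + 1 + k)) c θ := by
    intro j θ
    have h1 := (hsm θ).sum_add_tsum_nat_add (j + 1)
    rw [hg]
    show (∑' i, d i * cosm (m i) c θ) - _ = _
    rw [← h1]
    rw [add_sub_cancel_left]
    exact tsum_congr fun k => by rw [add_comm k (j + 1)]
  have hexp1 : ∀ j, Real.exp (-(m j : ℝ)) ≤ q := by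
    intro j
    apply Real.exp_le_exp.2
    have h1 : (10 : ℝ) + 10 * j ≤ m j := by exact_mod_cast hmj j
    have h2 : (0 : ℝ) ≤ j := Nat.cast_nonneg _
    linarith
  have hgb : ∀ θ, |g θ| ≤ 1 := by
    intro θ
    have h1 := (htail 0 θ).2
    have h2 : (∑' k, d (0 + k) * cosm (m (0 + k)) c θ) = g θ := by
      rw [hg]
      exact tsum_congr fun k => by rw [zero_add]
    rw [h2] at h1
    have := hexp1 0
    linarith
  have hgjb : ∀ j θ, |∑ i ∈ Finset.range (j + 1), d i * cosm (m i) c θ| ≤ 1 := by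
    intro j θ
    have h1 := (htail (j + 1) θ).2
    rw [← hsplit j θ] at h1
    have h2 := (htail 0 θ).2
    have h3 : (∑' k, d (0 + k) * cosm (m (0 + k)) c θ) = g θ := by
      rw [hg]
      exact tsum_congr fun k => by rw [zero_add]
    rw [h3] at h2
    have h4 := hexp1 0
    have h5 := hexp1 (j + 1)
    have h6 := abs_le.1 h1
    have h7 := abs_le.1 h2
    rw [abs_le]
    constructor <;> linarith [h6.1, h6.2, h7.1, h7.2]
  have hgc : Continuous g := by
    refine continuous_tsum (fun i => continuous_const.mul (cosm_cont _ c))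
      (u := fun i => Real.exp (-(m 0 : ℝ)) * q ^ i) (hgs.mul_left _) ?_
    intro i θ
    rw [Real.norm_eq_abs]
    have h1 := (hterm i θ).trans (by simpa using hgeo 0 i)
    exact h1
  have hgjc : ∀ j, Continuous fun θ => ∑ i ∈ Finset.range (j + 1), d i * cosm (m i) c θ := fun j =>
    continuous_finset_sum _ fun i _ => continuous_const.mul (cosm_cont _ c)
  refine ⟨g, ?_, ?_⟩
  · exact series_smooth c m d (fun j => by have := hmj j; omega) hdj
  · intro T
    obtain ⟨j, hj⟩ := exists_nat_ge T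
    refine ⟨t j, hj.trans (htj j), ?_⟩
    have h1 := corr_pert hP hφ hgc (hgjc j) hgb (hgjb j)
      (r := 2 * Real.exp (-(m (j + 1) : ℝ))) (fun θ => by
        rw [hsplit j θ]
        exact (htail (j + 1) θ).2) (t j)
    have h2 := hcj j
    have h3 := hρj j
    have h4 : Real.exp (-(m (j + 1) : ℝ)) ≤ q * Real.exp (-(2 * (m j : ℝ))) := by
      rw [hq, ← Real.exp_add]
      apply Real.exp_le_exp.2
      have h5 : (3 * (m j : ℝ)) + 10 ≤ m (j + 1) := by exact_mod_cast hm1 j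
      have h6 : (0 : ℝ) ≤ m j := Nat.cast_nonneg _
      linarith
    have hE : 0 < Real.exp (-(2 * (m j : ℝ))) := Real.exp_pos _
    have h7 : q * Real.exp (-(2 * (m j : ℝ))) ≤ 1 / 1024 * Real.exp (-(2 * (m j : ℝ))) :=
      mul_le_mul_of_nonneg_right hq1 hE.le
    have h8 := abs_sub_abs_le_abs_sub
      (corr P φ (fun θ => ∑ i ∈ Finset.range (j + 1), d i * cosm (m i) c θ) (t j))
      (corr P φ g (t j))
    rw [abs_sub_comm] at h8
    linarith

end BIL
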