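import Pool.Agent.BIL.Defs

/-!
# [BIL-L9a] rational directions are dense
-/

set_option autoImplicit false

open MeasureTheory Set Filter Topology

namespace BIL

/-- the angle of `r e^{i t π}`, `t` rational, has finite order -/
theorem L9a_ord {r : ℝ} (hr : 0 < r) (t : ℚ) :
    IsOfFinAddOrder (ang ((r : ℂ) * Complex.exp (((t * Real.pi : ℝ) : ℂ) * Complex.I))) := by
  have h1 : ang ((r : ℂ) * Complex.exp (((t * Real.pi : ℝ) : ℂ) * Complex.I))
      = ((t * Real.pi : ℝ) : Ang) := by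
    have h2 := Complex.arg_mul_cos_add_sin_mul_I_coe_angle hr ((t * Real.pi : ℝ) : Real.Angle)
    rw [Real.Angle.cos_coe, Real.Angle.sin_coe, Complex.ofReal_cos, Complex.ofReal_sin,
      ← Complex.exp_mul_I] at h2
    exact h2
  rw [h1, isOfFinAddOrder_iff_nsmul_eq_zero]
  refine ⟨2 * t.den, by have := t.pos; omega, ?_⟩
  rw [← AddCircle.coe_nsmul, AddCircle.coe_eq_zero_iff]
  refine ⟨t.num, ?_⟩
  have h3 : (t : ℝ) * t.den = t.num := by exact_mod_cast Rat.mul_den_eq_num t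
  rw [zsmul_eq_mul, nsmul_eq_mul]
  push_cast
  calc (t.num : ℝ) * (2 * Real.pi) = (t * t.den) * (2 * Real.pi) := by rw [h3]
    _ = _ := by ring


/-- [L9a] The angles of finite order are dense and `w ↦ ang w` has the inverse `(r, θ) ↦ r e^{iθ}`: for `q ≠ A` write `q - A = r e^{ix}` with `r = ‖q - A‖`, `x = arg (q - A)`;
choose `x'` close to `x` with `x' / π` rational and `q' = A + r e^{ix'}`; for `q = A` first move `q` a little. There are infinitely many choices, so `Z` can be avoided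
(e.g. multiply `r` by a number close to `1`). `ang (r e^{ix'}) = x'` mod `2π` (`Complex.arg_mul_cos_add_sin_mul_I_coe_angle` or
`Complex.arg_exp_mul_I`), of finite order because `x' / (2π)` is rational. -/
theorem dense_one (A Z q : ℂ) {ε : ℝ} (hε : 0 < ε) :
    ∃ q' : ℂ, ‖q' - q‖ < ε ∧ q' ≠ A ∧ q' ≠ Z ∧ IsOfFinAddOrder (ang (q' - A)) := by
  have hF : Continuous fun s : ℝ × ℝ => A + (s.1 : ℂ) * Complex.exp (s.2 * Complex.I) := by fun_prop
  have hq : A + ((‖q - A‖ : ℝ) : ℂ) * Complex.exp ((Complex.arg (q - A) : ℝ) * Complex.I) = q := by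
    rw [Complex.norm_mul_exp_arg_mul_I]
    ring
  obtain ⟨δ, hδ, hball⟩ := Metric.continuous_iff.1 hF (‖q - A‖, Complex.arg (q - A)) ε hε
  -- the angle
  obtain ⟨t, ht1, ht2⟩ := exists_rat_btwn (show (Complex.arg (q - A) - δ) / Real.pi
    < (Complex.arg (q - A) + δ) / Real.pi from
    div_lt_div_of_pos_right (by linarith) Real.pi_pos)
  rw [div_lt_iff₀ Real.pi_pos] at ht1
  rw [lt_div_iff₀ Real.pi_pos] at ht2
  -- the radius
  obtain ⟨r, hr0, hr1, hr2⟩ : ∃ r : ℝ, ‖q - A‖ < r ∧ r < ‖q - A‖ + δ ∧ r ≠ ‖Z - A‖ := by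
    by_cases h : ‖q - A‖ + δ / 2 = ‖Z - A‖
    · exact ⟨‖q - A‖ + δ / 3, by linarith, by linarith, by intro h2; linarith⟩
    · exact ⟨‖q - A‖ + δ / 2, by linarith, by linarith, h⟩
  have hrpos : 0 < r := lt_of_le_of_lt (norm_nonneg _) hr0
  have hdist := hball (r, t * Real.pi) (by
    rw [Prod.dist_eq, max_lt_iff, Real.dist_eq, Real.dist_eq, abs_lt, abs_lt]
    refine ⟨⟨?_, ?_⟩, ?_, ?_⟩ <;> simp only <;> linarith)
  simp only [hq] at hdist
  rw [dist_eq_norm] at hdist
  have hnorm : ‖(A + (r : ℂ) * Complex.exp (((t * Real.pi : ℝ) : ℂ) * Complex.I)) - A‖ = r := by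
    rw [add_sub_cancel_left, norm_mul, Complex.norm_exp_ofReal_mul_I, mul_one, Complex.norm_real,
      Real.norm_of_nonneg hrpos.le]
  refine ⟨_, hdist, ?_, ?_, ?_⟩
  · intro h
    rw [h, sub_self, norm_zero] at hnorm
    exact hrpos.ne hnorm
  · intro h
    rw [h] at hnorm
    exact hr2 hnorm.symm
  · rw [add_sub_cancel_left]
    exact L9a_ord hrpos t

end BIL
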