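import Pool.Agent.BIL.Defs

/-!
# [BIL-L9b] two rational directions
-/

set_option autoImplicit false

open MeasureTheory Set Filter Topology

namespace BIL

/-- the angle of `r e^{i t π}`, `t` rational, has finite order -/
theorem L9b_ord {r : ℝ} (hr : 0 < r) (t : ℚ) :
    IsOfFinAddOrder (ang ((r : ℂ) * Complex.exp (((t * Real.pi : ℝ) : ℂ) * Complex.I))) := by
  have h1 : ang ((r : ℂ) * Complex.exp (((t * Real.pi : ℝ) : ℂ) * Complex.I))
      = ((t * Real.pi : ℝ) : Ang) := by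
    have h2 := Complex.arg_mul_cos_add_sin_mul_I_coe_angle hr ((t * Real.pi : ℝ) : Real.Angle)
    rw [Real.Angle.cos_coe, Real.Angle.sin_coe, Complex.ofReal_cos, Complex.ofReal_sin,
      ← Complex.exp_mul_I] at h2
    exact h2
  rw [h1, isOfFinAddOrder_iff_nsmul_eq_zero]
  refine ⟨2 * t.den, by have := t.pos; omega, ?_⟩
  rw [← AddCircle.coe_nsmul, AddCircle.coe_eq_zero_iff]
  refine ⟨t.num, ?_⟩
  have h3 : (t : ℝ) * t.den = t.num := by exact_mod_cast Rat.mul_den_eq_num t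
  rw [zsmul_eq_mul, nsmul_eq_mul]
  push_cast
  calc (t.num : ℝ) * (2 * Real.pi) = (t * t.den) * (2 * Real.pi) := by rw [h3]
    _ = _ := by ring

/-- `Im (conj a * b)` -/
noncomputable def L9b_cr (a b : ℂ) : ℝ := a.re * b.im - a.im * b.re

theorem L9b_cramer (u v D : ℂ) (h : L9b_cr v u ≠ 0) :
    ((L9b_cr v D / L9b_cr v u : ℝ) : ℂ) * u + ((L9b_cr u D / L9b_cr u v : ℝ) : ℂ) * v = D := by
  have h1 : L9b_cr u v = - L9b_cr v u := by unfold L9b_cr; ring
  rw [h1, div_neg]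
  apply Complex.ext
  · rw [Complex.add_re, Complex.re_ofReal_mul, Complex.re_ofReal_mul]
    field_simp
    unfold L9b_cr
    ring
  · rw [Complex.add_im, Complex.im_ofReal_mul, Complex.im_ofReal_mul]
    field_simp
    unfold L9b_cr
    ring

theorem L9b_cr_add (a b c : ℂ) (s r : ℝ) :
    L9b_cr a ((s : ℂ) * b + (r : ℂ) * c) = s * L9b_cr a b + r * L9b_cr a c := by
  unfold L9b_cr
  rw [Complex.add_re, Complex.re_ofReal_mul, Complex.re_ofReal_mul, Complex.add_im,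
    Complex.im_ofReal_mul, Complex.im_ofReal_mul]
  ring

theorem L9b_cr_self (a : ℂ) : L9b_cr a a = 0 := by unfold L9b_cr; ring

theorem L9b_cr_left (a b : ℂ) (s : ℝ) : L9b_cr ((s : ℂ) * a) b = s * L9b_cr a b := by
  unfold L9b_cr
  rw [Complex.re_ofReal_mul, Complex.im_ofReal_mul]
  ring

/-- a point near `q` off the line -/
theorem L9b_move {A D : ℂ} (hD : D ≠ 0) (q : ℂ) {ε : ℝ} (hε : 0 < ε) :
    ∃ q1 : ℂ, ‖q1 - q‖ < ε ∧ L9b_cr (q1 - A) D ≠ 0 := by
  by_cases h0 : L9b_cr (q - A) D = 0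
  · have hpos : 0 < ‖D‖ := norm_pos_iff.2 hD
    have hs : 0 < ε / (2 * ‖D‖) := by positivity
    refine ⟨q + ((ε / (2 * ‖D‖) : ℝ) : ℂ) * (Complex.I * D), ?_, ?_⟩
    · rw [add_sub_cancel_left, norm_mul, norm_mul, Complex.norm_I, one_mul, Complex.norm_real,
        Real.norm_of_nonneg hs.le, div_mul_eq_mul_div, div_lt_iff₀ (by positivity)]
      nlinarith [mul_pos hε hpos]
    · have h1 : L9b_cr (q + ((ε / (2 * ‖D‖) : ℝ) : ℂ) * (Complex.I * D) - A) D
          = L9b_cr (q - A) D - (ε / (2 * ‖D‖)) * (D.re ^ 2 + D.im ^ 2) := by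
        unfold L9b_cr
        simp only [Complex.sub_re, Complex.sub_im, Complex.add_re, Complex.add_im,
          Complex.re_ofReal_mul, Complex.im_ofReal_mul, Complex.I_mul_re, Complex.I_mul_im]
        ring
      rw [h1, h0, zero_sub, neg_ne_zero]
      have h2 : D.re ^ 2 + D.im ^ 2 ≠ 0 := by
        intro h3
        apply hD
        have h4 : D.re = 0 := by nlinarith [sq_nonneg D.re, sq_nonneg D.im]
        have h5 : D.im = 0 := by nlinarith [sq_nonneg D.re, sq_nonneg D.im]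
        exact Complex.ext h4 h5
      exact mul_ne_zero hs.ne' h2
  · exact ⟨q, by rwa [sub_self, norm_zero], h0⟩

/-- a rational multiple of `π` near `x` -/
theorem L9b_rat (x : ℝ) {δ : ℝ} (hδ : 0 < δ) : ∃ t : ℚ, |t * Real.pi - x| < δ := by
  obtain ⟨t, ht1, ht2⟩ := exists_rat_btwn (show (x - δ) / Real.pi < (x + δ) / Real.pi from
    div_lt_div_of_pos_right (by linarith) Real.pi_pos)
  rw [div_lt_iff₀ Real.pi_pos] at ht1
  rw [lt_div_iff₀ Real.pi_pos] at ht2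
  exact ⟨t, abs_lt.2 ⟨by linarith, by linarith⟩⟩


/-- [L9b] First move `q` off the line through `A` and `B` (so `Im (conj (q - A) * (B - q)) ≠ 0`). With `u₀ = e^{i x₀}`, `v₀ = e^{i y₀}`, `q - A = s₀ u₀`, `B - q = r₀ v₀`, `s₀, r₀ > 0`.
For `x` near `x₀` and `y` near `y₀` the system `s e^{ix} + r e^{iy} = B - A` has the solution
`s = Im (conj v * (B - A)) / Im (conj v * u)`, `r = Im (conj u * (B - A)) / Im (conj u * v)` (Cramer), which depends continuously on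
`x`, `y` (`Im (conj v₀ * u₀) ≠ 0`) and is `s₀`, `r₀` at `x₀`, `y₀`; so for `x`, `y` close enough `s, r > 0` and `q' = A + s e^{ix}` is close to
`q`, `B - q' = r e^{iy}`. Choose `x / π`, `y / π` rational. -/
theorem dense_two {A B : ℂ} (hAB : A ≠ B) (q : ℂ) {ε : ℝ} (hε : 0 < ε) :
    ∃ q' : ℂ, ‖q' - q‖ < ε ∧ q' ≠ A ∧ q' ≠ B ∧ IsOfFinAddOrder (ang (q' - A)) ∧
      IsOfFinAddOrder (ang (B - q')) := by
  have hD : B - A ≠ 0 := sub_ne_zero.2 hAB.symm
  obtain ⟨q1, hq1, hcr⟩ := L9b_move (A := A) hD q (half_pos hε)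
  -- polar coordinates
  have hu0 : ((‖q1 - A‖ : ℝ) : ℂ) * Complex.exp ((Complex.arg (q1 - A) : ℝ) * Complex.I) = q1 - A :=
    Complex.norm_mul_exp_arg_mul_I _
  have hv0 : ((‖B - q1‖ : ℝ) : ℂ) * Complex.exp ((Complex.arg (B - q1) : ℝ) * Complex.I) = B - q1 :=
    Complex.norm_mul_exp_arg_mul_I _
  generalize hx0 : Complex.arg (q1 - A) = x0 at hu0
  generalize hy0 : Complex.arg (B - q1) = y0 at hv0
  generalize hs0 : ‖q1 - A‖ = s0 at hu0
  generalize hr0 : ‖B - q1‖ = r0 at hv0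
  have hsum : B - A = (s0 : ℂ) * Complex.exp ((x0 : ℂ) * Complex.I) + (r0 : ℂ) * Complex.exp ((y0 : ℂ) * Complex.I) := by
    rw [hu0, hv0]
    ring
  have hcr' : s0 * (r0 * L9b_cr (Complex.exp ((x0 : ℂ) * Complex.I)) (Complex.exp ((y0 : ℂ) * Complex.I))) ≠ 0 := by
    rw [← hu0, L9b_cr_left, hsum, L9b_cr_add, L9b_cr_self, mul_zero, zero_add] at hcr
    exact hcr
  have hs0' : s0 ≠ 0 := left_ne_zero_of_mul hcr'
  have hr0' : r0 ≠ 0 := left_ne_zero_of_mul (right_ne_zero_of_mul hcr')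
  have hc : L9b_cr (Complex.exp ((x0 : ℂ) * Complex.I)) (Complex.exp ((y0 : ℂ) * Complex.I)) ≠ 0 :=
    right_ne_zero_of_mul (right_ne_zero_of_mul hcr')
  have hc' : L9b_cr (Complex.exp ((y0 : ℂ) * Complex.I)) (Complex.exp ((x0 : ℂ) * Complex.I)) ≠ 0 := by
    intro h
    apply hc
    have h1 : ∀ a b, L9b_cr a b = - L9b_cr b a := fun a b => by unfold L9b_cr; ring
    rw [h1, h, neg_zero]
  have hs0p : 0 < s0 := lt_of_le_of_ne (by rw [← hs0]; exact norm_nonneg _) hs0'.symm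
  have hr0p : 0 < r0 := lt_of_le_of_ne (by rw [← hr0]; exact norm_nonneg _) hr0'.symm
  -- the solutions of the linear system
  let e : ℝ → ℂ := fun x => Complex.exp ((x : ℂ) * Complex.I)
  have hec : Continuous e := by fun_prop
  have hcrc : ∀ f g : ℝ × ℝ → ℂ, Continuous f → Continuous g → Continuous fun z => L9b_cr (f z) (g z) := by
    intro f g hf hg
    unfold L9b_cr
    exact ((Complex.continuous_re.comp hf).mul (Complex.continuous_im.comp hg)).sub
      ((Complex.continuous_im.comp hf).mul (Complex.continuous_re.comp hg))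
  let fs : ℝ × ℝ → ℝ := fun z => L9b_cr (e z.2) (B - A) / L9b_cr (e z.2) (e z.1)
  let fr : ℝ × ℝ → ℝ := fun z => L9b_cr (e z.1) (B - A) / L9b_cr (e z.1) (e z.2)
  have hfs0 : fs (x0, y0) = s0 := by
    show L9b_cr (e y0) (B - A) / L9b_cr (e y0) (e x0) = s0
    rw [hsum, L9b_cr_add, L9b_cr_self, mul_zero, add_zero]
    exact mul_div_cancel_right₀ s0 hc'
  have hfr0 : fr (x0, y0) = r0 := by
    show L9b_cr (e x0) (B - A) / L9b_cr (e x0) (e y0) = r0
    rw [hsum, L9b_cr_add, L9b_cr_self, mul_zero, zero_add]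
    exact mul_div_cancel_right₀ r0 hc
  have hfsc : ContinuousAt fs (x0, y0) :=
    ContinuousAt.div (hcrc _ _ (hec.comp continuous_snd) continuous_const).continuousAt
      (hcrc _ _ (hec.comp continuous_snd) (hec.comp continuous_fst)).continuousAt hc'
  have hfrc : ContinuousAt fr (x0, y0) :=
    ContinuousAt.div (hcrc _ _ (hec.comp continuous_fst) continuous_const).continuousAt
      (hcrc _ _ (hec.comp continuous_fst) (hec.comp continuous_snd)).continuousAt hc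
  have hev1 : ∀ᶠ z in 𝓝 (x0, y0), 0 < fs z := hfsc.eventually (lt_mem_nhds (by rw [hfs0]; exact hs0p))
  have hev2 : ∀ᶠ z in 𝓝 (x0, y0), 0 < fr z := hfrc.eventually (lt_mem_nhds (by rw [hfr0]; exact hr0p))
  have hev3 : ∀ᶠ z : ℝ × ℝ in 𝓝 (x0, y0), L9b_cr (e z.2) (e z.1) ≠ 0 :=
    (hcrc _ _ (hec.comp continuous_snd) (hec.comp continuous_fst)).continuousAt.eventually_ne hc'
  have hpt : ContinuousAt (fun z : ℝ × ℝ => ‖A + ((fs z : ℝ) : ℂ) * e z.1 - q1‖) (x0, y0) :=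
    ((continuousAt_const.add ((Complex.continuous_ofReal.continuousAt.comp hfsc).mul
      (hec.comp continuous_fst).continuousAt)).sub continuousAt_const).norm
  have hev4 : ∀ᶠ z : ℝ × ℝ in 𝓝 (x0, y0), ‖A + ((fs z : ℝ) : ℂ) * e z.1 - q1‖ < ε / 2 := by
    refine hpt.eventually (gt_mem_nhds ?_)
    show ‖A + ((fs (x0, y0) : ℝ) : ℂ) * e x0 - q1‖ < ε / 2
    rw [hfs0]
    show ‖A + (s0 : ℂ) * Complex.exp ((x0 : ℂ) * Complex.I) - q1‖ < ε / 2
    rw [hu0, add_sub_cancel, sub_self, norm_zero]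
    exact half_pos hε
  obtain ⟨δ, hδ, hball⟩ := Metric.eventually_nhds_iff_ball.1 (hev1.and (hev2.and (hev3.and hev4)))
  obtain ⟨t1, ht1⟩ := L9b_rat x0 hδ
  obtain ⟨t2, ht2⟩ := L9b_rat y0 hδ
  obtain ⟨h1, h2, h3, h4⟩ := hball (t1 * Real.pi, t2 * Real.pi) (by
    rw [Metric.mem_ball, Prod.dist_eq, max_lt_iff, Real.dist_eq, Real.dist_eq]
    exact ⟨ht1, ht2⟩)
  have h5 := L9b_cramer (e (t1 * Real.pi)) (e (t2 * Real.pi)) (B - A) h3
  have h6 : ((fs (t1 * Real.pi, t2 * Real.pi) : ℝ) : ℂ) * e (t1 * Real.pi)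
      + ((fr (t1 * Real.pi, t2 * Real.pi) : ℝ) : ℂ) * e (t2 * Real.pi) = B - A := h5
  have hen : ∀ x, e x ≠ 0 := fun x => Complex.exp_ne_zero _
  have h7 : B - (A + ((fs (t1 * Real.pi, t2 * Real.pi) : ℝ) : ℂ) * e (t1 * Real.pi))
      = ((fr (t1 * Real.pi, t2 * Real.pi) : ℝ) : ℂ) * e (t2 * Real.pi) := by
    linear_combination -h6
  refine ⟨A + ((fs (t1 * Real.pi, t2 * Real.pi) : ℝ) : ℂ) * e (t1 * Real.pi), ?_, ?_, ?_, ?_, ?_⟩
  · calc ‖A + ((fs (t1 * Real.pi, t2 * Real.pi) : ℝ) : ℂ) * e (t1 * Real.pi) - q‖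
        = ‖(A + ((fs (t1 * Real.pi, t2 * Real.pi) : ℝ) : ℂ) * e (t1 * Real.pi) - q1) + (q1 - q)‖ := by
          congr 1
          ring
      _ ≤ _ := norm_add_le _ _
      _ < ε := by
          have h8 : ‖A + ((fs (t1 * Real.pi, t2 * Real.pi) : ℝ) : ℂ) * e (t1 * Real.pi) - q1‖ < ε / 2 := h4
          linarith
  · intro h
    have h8 := add_eq_left.1 h
    exact mul_ne_zero (Complex.ofReal_ne_zero.2 h1.ne') (hen _) h8
  · intro h
    rw [h, sub_self] at h7
    exact mul_ne_zero (Complex.ofReal_ne_zero.2 h2.ne') (hen _) h7.symm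
  · rw [add_sub_cancel_left]
    exact L9b_ord h1 t1
  · rw [h7]
    exact L9b_ord h2 t2

end BIL
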