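import Pool.Agent.BIL.L9a
import Pool.Agent.BIL.L9b

/-!
# [BIL-L9c] polygons with rational directions are dense
-/

set_option autoImplicit false

open MeasureTheory Set Filter Topology

namespace BIL

theorem L9c_seq (P : ℕ → ℂ) {ε : ℝ} (hε : 0 < ε) :
    ∃ g : ℕ → ℂ, g 0 = P 0 ∧ ∀ n, ‖g (n + 1) - P (n + 1)‖ < ε ∧ g (n + 1) ≠ g n ∧
      g (n + 1) ≠ P 0 ∧ IsOfFinAddOrder (ang (g (n + 1) - g n)) := by
  choose f hf using fun (z : ℂ) (n : ℕ) => dense_one z (P 0) (P (n + 1)) hε
  exact ⟨fun n => Nat.rec (P 0) (fun n z => f z n) n, rfl, fun n => hf _ n⟩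

/-- [L9c] The vertices `0, ..., k + 1` are chosen one after another with `dense_one` (`p' 0 = p 0`, `A` the previous vertex, `Z = p' 0`, which gives
`p' (k + 1) ≠ p' 0`), the last vertex `k + 2` with `dense_two` for `A = p' (k + 1)`, `B = p' 0`. For the recursion it may be
easier to work with a sequence `ℕ → ℂ` and to restrict it to `Fin (k + 3)` at the end; `i + 1` in `Fin (k + 3)` is the next vertex, and `0` after the last. -/
theorem dense_poly {k : ℕ} (p : Fin (k + 3) → ℂ) {ε : ℝ} (hε : 0 < ε) :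
    ∃ p' : Fin (k + 3) → ℂ, (∀ i, ‖p' i - p i‖ < ε) ∧ (∀ i, p' (i + 1) ≠ p' i) ∧
      ∀ i, IsOfFinAddOrder (ang (p' (i + 1) - p' i)) := by
  obtain ⟨g, hg0, hg⟩ := L9c_seq (fun n => if h : n < k + 3 then p ⟨n, h⟩ else 0) hε
  have hP : ∀ i : Fin (k + 3), (fun n => if h : n < k + 3 then p ⟨n, h⟩ else 0) (i : ℕ) = p i :=
    fun i => dif_pos i.2
  have hAB : g (k + 1) ≠ g 0 := by
    rw [hg0]
    exact (hg k).2.2.1
  obtain ⟨q, hq1, hq2, hq3, hq4, hq5⟩ := dense_two hAB (p (Fin.last (k + 2))) hε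
  have hnext : ∀ i : Fin (k + 3), (i : ℕ) ≤ k + 1 → ((i + 1 : Fin (k + 3)) : ℕ) = (i : ℕ) + 1 := by
    intro i hi
    rw [Fin.val_add_one, if_neg]
    intro h
    rw [h, Fin.val_last] at hi
    omega
  have hlast : ∀ i : Fin (k + 3), (i : ℕ) = k + 2 → ((i + 1 : Fin (k + 3)) : ℕ) = 0 := by
    intro i hi
    rw [Fin.val_add_one, if_pos (Fin.ext hi)]
  refine ⟨fun i => if (i : ℕ) = k + 2 then q else g i, fun i => ?_, fun i => ?_, fun i => ?_⟩
  · by_cases hi : (i : ℕ) = k + 2
    · have hi' : i = Fin.last (k + 2) := Fin.ext hi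
      dsimp only
      rw [if_pos hi, hi']
      exact hq1
    · dsimp only
      rw [if_neg hi, ← hP i]
      rcases Nat.eq_zero_or_pos (i : ℕ) with h0 | h0
      · rw [h0, hg0, sub_self, norm_zero]
        exact hε
      · obtain ⟨n, hn⟩ := Nat.exists_eq_succ_of_ne_zero h0.ne'
        rw [hn]
        exact (hg n).1
  · dsimp only
    have hi3 := i.2
    rcases Nat.lt_or_ge (i : ℕ) (k + 1) with h1 | h1
    · rw [hnext i h1.le, if_neg (by omega), if_neg (by omega)]
      exact (hg i).2.1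
    · rcases Nat.lt_or_ge (i : ℕ) (k + 2) with h2 | h2
      · rw [hnext i (by omega), if_pos (by omega), if_neg (by omega)]
        have h3 : (i : ℕ) = k + 1 := by omega
        rw [h3]
        exact hq2
      · rw [hlast i (by omega), if_neg (by omega), if_pos (by omega)]
        exact hq3.symm
  · dsimp only
    have hi3 := i.2
    rcases Nat.lt_or_ge (i : ℕ) (k + 1) with h1 | h1
    · rw [hnext i h1.le, if_neg (by omega), if_neg (by omega)]
      exact (hg i).2.2.2
    · rcases Nat.lt_or_ge (i : ℕ) (k + 2) with h2 | h2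
      · rw [hnext i (by omega), if_pos (by omega), if_neg (by omega)]
        have h3 : (i : ℕ) = k + 1 := by omega
        rw [h3]
        exact hq4
      · rw [hlast i (by omega), if_neg (by omega), if_pos (by omega)]
        exact hq5

end BIL
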