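import Pool.Agent.BIL.L9c

/-!
# [BIL-L9d] a residual set of polygons
-/

set_option autoImplicit false

open MeasureTheory Set Filter Topology

namespace BIL

/-- [L9d] `Complex.continuousAt_arg_coe_angle` (`Real.Angle` is `AddCircle (2 π)`). -/
theorem ang_cont {w : ℂ} (hw : w ≠ 0) : ContinuousAt ang w := by
  exact Complex.continuousAt_arg_coe_angle hw

/-- [L9e] For `N : ℕ` let `U N` be the set of the `p` such that `p (i + 1) ≠ p i` for all `i` and for some `m ≥ N` all the norms are `< σ m`. It is open (`ang_cont`, finitely many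
conditions) and dense: `dense_poly` gives `p'` near `p`, and if `M > 0` is a common multiple of the orders then `m = M * (N + 1)` works, the norms are `0`. The intersection over `N` is residual
(`residual_of_dense_open`, `eventually_countable_forall`). -/
theorem resid {k : ℕ} (σ : ℕ → ℝ) (hσ : ∀ m, 0 < σ m) :
    ∀ᶠ p in residual (Fin (k + 3) → ℂ), ∀ N : ℕ, ∃ m : ℕ, N ≤ m ∧
      ∀ i, ‖(2 * m) • (ang (p (i + 1) - p i) - ang (p 1 - p 0))‖ < σ m := by
  rw [eventually_countable_forall]
  intro N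
  have hopen : IsOpen {p : Fin (k + 3) → ℂ | (∀ i, p (i + 1) ≠ p i) ∧ ∃ m : ℕ, N ≤ m ∧
      ∀ i, ‖(2 * m) • (ang (p (i + 1) - p i) - ang (p 1 - p 0))‖ < σ m} := by
    rw [isOpen_iff_eventually]
    rintro p ⟨hne, m, hm, hlt⟩
    have h1 : ∀ᶠ p' : Fin (k + 3) → ℂ in 𝓝 p, ∀ i, p' (i + 1) ≠ p' i := by
      rw [eventually_all]
      intro i
      have h0 : ContinuousAt (fun p' : Fin (k + 3) → ℂ => p' (i + 1) - p' i) p :=
        ((continuous_apply (i + 1)).sub (continuous_apply i)).continuousAt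
      exact (h0.eventually_ne (sub_ne_zero.2 (hne i))).mono fun p' h => sub_ne_zero.1 h
    have hc : ∀ i, ContinuousAt (fun p' : Fin (k + 3) → ℂ => ang (p' (i + 1) - p' i)) p := by
      intro i
      refine ContinuousAt.comp (f := fun p' : Fin (k + 3) → ℂ => p' (i + 1) - p' i)
        (ang_cont (sub_ne_zero.2 (hne i))) ?_
      exact ((continuous_apply (i + 1)).sub (continuous_apply i)).continuousAt
    have hc0 : ContinuousAt (fun p' : Fin (k + 3) → ℂ => ang (p' 1 - p' 0)) p := by
      have h2 := hc 0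
      rwa [zero_add] at h2
    have h2 : ∀ᶠ p' : Fin (k + 3) → ℂ in 𝓝 p, ∀ i,
        ‖(2 * m) • (ang (p' (i + 1) - p' i) - ang (p' 1 - p' 0))‖ < σ m := by
      rw [eventually_all]
      intro i
      exact (((hc i).sub hc0).const_smul (2 * m)).norm.eventually (gt_mem_nhds (hlt i))
    filter_upwards [h1, h2] with p' h1' h2'
    exact ⟨h1', m, hm, h2'⟩
  have hdense : Dense {p : Fin (k + 3) → ℂ | (∀ i, p (i + 1) ≠ p i) ∧ ∃ m : ℕ, N ≤ m ∧
      ∀ i, ‖(2 * m) • (ang (p (i + 1) - p i) - ang (p 1 - p 0))‖ < σ m} := by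
    rw [Metric.dense_iff]
    intro p ε hε
    obtain ⟨p', h1, h2, h3⟩ := dense_poly p hε
    refine ⟨p', ?_, h2, ?_⟩
    · rw [Metric.mem_ball, dist_pi_lt_iff hε]
      intro i
      rw [dist_eq_norm]
      exact h1 i
    · have hM : 0 < ∏ i, addOrderOf (ang (p' (i + 1) - p' i)) :=
        Finset.prod_pos fun i _ => (h3 i).addOrderOf_pos
      refine ⟨(∏ i, addOrderOf (ang (p' (i + 1) - p' i))) * (N + 1), ?_, fun i => ?_⟩
      · calc N ≤ 1 * (N + 1) := by omega
          _ ≤ _ := Nat.mul_le_mul_right _ hM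
      · have hz : ∀ i, (2 * ((∏ i, addOrderOf (ang (p' (i + 1) - p' i))) * (N + 1))) •
            ang (p' (i + 1) - p' i) = 0 := by
          intro i
          rw [← addOrderOf_dvd_iff_nsmul_eq_zero]
          exact Dvd.dvd.mul_left (Dvd.dvd.mul_right (Finset.dvd_prod_of_mem
            (fun i => addOrderOf (ang (p' (i + 1) - p' i))) (Finset.mem_univ i)) _) _
        have hz0 := hz 0
        rw [zero_add] at hz0
        rw [nsmul_sub, hz i, hz0, sub_zero, norm_zero]
        exact hσ _
  filter_upwards [residual_of_dense_open hopen hdense] with p hp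
  exact hp.2

end BIL
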