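import Pool.Agent.BIL.L5
import Pool.Agent.BIL.L6
import Pool.Agent.BIL.L8c
import Pool.Agent.BIL.L9d

/-!
# [BIL-Main] assembly
-/

set_option autoImplicit false

open MeasureTheory Set Filter Topology
open scoped ContDiff

namespace BIL

theorem part_A {k : ℕ} {P : Set ℂ} {a b : Fin (k + 1) → ℂ} (hP : IsPolygon P a b) :
    ∃ C > 0, ∀ φ, IsBilliardFlow P a b φ → ∀ t : ℝ, 1 ≤ t → ∃ m : ℕ, 0 < m ∧ (m : ℝ) ≤ C * t ^ k ∧
      ∀ s : ℝ, 0 < s → s ≤ t → 1 / 4 ≤ corr P φ (cosm m (ang (b 0 - a 0))) s := by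
  obtain ⟨C, hC, h⟩ := corr_ge hP
  refine ⟨(8 * Real.pi * C + 1) ^ k, by positivity, ?_⟩
  intro φ hφ t ht
  have hpi := Real.pi_pos
  have hx : 0 < 8 * Real.pi * C * t := by positivity
  have hQ : 0 < ⌈8 * Real.pi * C * t⌉₊ := Nat.ceil_pos.2 hx
  obtain ⟨m, hm0, hm, hξ⟩ := dirichlet (k := k)
    (fun i => (2 : ℕ) • (ang (b i.succ - a i.succ) - ang (b 0 - a 0))) hQ
  have hQ' : 8 * Real.pi * C * t ≤ (⌈8 * Real.pi * C * t⌉₊ : ℝ) := Nat.le_ceil _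
  have hQ0 : (0 : ℝ) < (⌈8 * Real.pi * C * t⌉₊ : ℝ) := by exact_mod_cast hQ
  refine ⟨m, hm0, ?_, ?_⟩
  · have h1 : (m : ℝ) ≤ (⌈8 * Real.pi * C * t⌉₊ : ℝ) ^ k := by exact_mod_cast hm
    have h2 : (⌈8 * Real.pi * C * t⌉₊ : ℝ) ≤ (8 * Real.pi * C + 1) * t := by
      have := (Nat.ceil_lt_add_one hx.le).le
      nlinarith
    calc (m : ℝ) ≤ (⌈8 * Real.pi * C * t⌉₊ : ℝ) ^ k := h1
      _ ≤ ((8 * Real.pi * C + 1) * t) ^ k := pow_le_pow_left₀ hQ0.le h2 k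
      _ = (8 * Real.pi * C + 1) ^ k * t ^ k := mul_pow _ _ _
  · intro s hs hst
    have h1 := h φ hφ m (ang (b 0 - a 0)) (2 * Real.pi / (⌈8 * Real.pi * C * t⌉₊ : ℝ)) hm0
      (by positivity) (fun i => ?_) s hs
    · refine le_trans ?_ h1
      have h2 : C * s * (2 * Real.pi / (⌈8 * Real.pi * C * t⌉₊ : ℝ)) ≤ 1 / 4 := by
        rw [mul_div_assoc', div_le_iff₀ hQ0]
        have h3 : C * s * (2 * Real.pi) ≤ C * t * (2 * Real.pi) := by
          have : C * s ≤ C * t := mul_le_mul_of_nonneg_left hst hC.le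
          exact mul_le_mul_of_nonneg_right this (by positivity)
        nlinarith
      linarith
    · rcases Fin.eq_zero_or_eq_succ i with rfl | ⟨j, rfl⟩
      · rw [sub_self, smul_zero, norm_zero]
        positivity
      · have := hξ j
        rwa [← mul_smul, mul_comm m 2] at this

theorem corr_smul (P : Set ℂ) (φ : ℝ → ℂ × Ang → ℂ × Ang) (g : Ang → ℝ) (e t : ℝ) :
    corr P φ (fun θ => e * g θ) t = e ^ 2 * corr P φ g t := by
  unfold corr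
  have h1 : ∀ z : ℂ × Ang, e * g (φ t z).2 * (e * g z.2) = e ^ 2 * (g (φ t z).2 * g z.2) := by
    intro z
    ring
  simp only [h1]
  rw [integral_const_mul, integral_const_mul]
  ring

theorem part_A' {k : ℕ} {P : Set ℂ} {a b : Fin (k + 1) → ℂ} (hP : IsPolygon P a b) :
    ∃ C > 0, ∀ φ, IsBilliardFlow P a b φ → ∀ t : ℝ, 1 ≤ t → ∃ g : Ang → ℝ, LipschitzWith 1 g ∧
      ∀ s : ℝ, 0 < s → s ≤ t → C / t ^ (2 * k) ≤ corr P φ g s := by
  obtain ⟨C, hC, h⟩ := part_A hP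
  refine ⟨1 / (4 * C ^ 2), by positivity, ?_⟩
  intro φ hφ t ht
  obtain ⟨m, hm0, hm, h1⟩ := h φ hφ t ht
  have hm' : (0 : ℝ) < m := by exact_mod_cast hm0
  refine ⟨fun θ => (m : ℝ)⁻¹ * cosm m (ang (b 0 - a 0)) θ, ?_, ?_⟩
  · have h2 := cosm_lip m (ang (b 0 - a 0))
    rw [lipschitzWith_iff_dist_le_mul] at h2 ⊢
    intro x y
    have h3 := h2 x y
    rw [Real.dist_eq, ← mul_sub, abs_mul, abs_of_pos (inv_pos.2 hm'), ← Real.dist_eq]
    rw [NNReal.coe_one, one_mul]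
    rw [NNReal.coe_natCast] at h3
    calc (m : ℝ)⁻¹ * dist (cosm m (ang (b 0 - a 0)) x) (cosm m (ang (b 0 - a 0)) y)
        ≤ (m : ℝ)⁻¹ * (m * dist x y) := mul_le_mul_of_nonneg_left h3 (by positivity)
      _ = dist x y := by rw [← mul_assoc, inv_mul_cancel₀ hm'.ne', one_mul]
  · intro s hs hst
    rw [corr_smul]
    have h2 := h1 s hs hst
    have ht0 : 0 < t := by linarith
    have h3 : (m : ℝ) ^ 2 ≤ C ^ 2 * t ^ (2 * k) := by
      calc (m : ℝ) ^ 2 ≤ (C * t ^ k) ^ 2 := pow_le_pow_left₀ hm'.le hm 2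
        _ = C ^ 2 * t ^ (2 * k) := by ring
    calc 1 / (4 * C ^ 2) / t ^ (2 * k) = (C ^ 2 * t ^ (2 * k))⁻¹ * (1 / 4) := by
          field_simp
      _ ≤ ((m : ℝ) ^ 2)⁻¹ * (1 / 4) := by
          apply mul_le_mul_of_nonneg_right _ (by norm_num)
          exact inv_anti₀ (by positivity) h3
      _ ≤ ((m : ℝ)⁻¹) ^ 2 * corr P φ (cosm m (ang (b 0 - a 0))) s := by
          rw [inv_pow]
          exact mul_le_mul_of_nonneg_left h2 (by positivity)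

theorem part_B (k : ℕ) (ρ : ℝ → ℝ) (hρ : Tendsto ρ atTop (𝓝 0)) :
    ∀ᶠ p in residual (Fin (k + 3) → ℂ), ∀ P : Set ℂ, IsPolygon P p (fun i => p (i + 1)) →
      ∀ φ, IsBilliardFlow P p (fun i => p (i + 1)) φ →
      ∃ g : Ang → ℝ, ContDiff ℝ ∞ (fun x : ℝ => g (x : Ang)) ∧
        ∀ T : ℝ, ∃ t : ℝ, T ≤ t ∧ ρ t < |corr P φ g t| := by
  have hτ : ∀ m : ℕ, ∃ t : ℝ, (m : ℝ) + 1 ≤ t ∧ ρ t < Real.exp (-(2 * (m : ℝ))) / 16 := by
    intro m
    have h1 : ∀ᶠ t in atTop, ρ t < Real.exp (-(2 * (m : ℝ))) / 16 :=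
      (tendsto_order.1 hρ).2 _ (by positivity)
    obtain ⟨t, h2, h3⟩ := ((eventually_ge_atTop ((m : ℝ) + 1)).and h1).exists
    exact ⟨t, h2, h3⟩
  choose τ hτ1 hτ2 using hτ
  have hτ0 : ∀ m, 0 < τ m := fun m => lt_of_lt_of_le (by positivity) (hτ1 m)
  filter_upwards [resid (k := k) (fun m => 1 / (((m : ℝ) + 1) * τ m))
    (fun m => by have := hτ0 m; positivity)] with p hp P hP φ hφ
  obtain ⟨C, hC, h⟩ := corr_ge hP
  refine hump hP hφ ρ (ang (p 1 - p 0)) ?_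
  intro N T
  obtain ⟨m, hm, hm2⟩ := hp (max (max N 1) (max ⌈4 * C⌉₊ ⌈T⌉₊))
  have hmN : N ≤ m := le_trans (le_trans (le_max_left _ _) (le_max_left _ _)) hm
  have hm1 : 1 ≤ m := le_trans (le_trans (le_max_right _ _) (le_max_left _ _)) hm
  have hmC : 4 * C ≤ (m : ℝ) := by
    have h1 : ⌈4 * C⌉₊ ≤ m := le_trans (le_trans (le_max_left _ _) (le_max_right _ _)) hm
    exact le_trans (Nat.le_ceil _) (by exact_mod_cast h1)
  have hmT : T ≤ (m : ℝ) := by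
    have h1 : ⌈T⌉₊ ≤ m := le_trans (le_trans (le_max_right _ _) (le_max_right _ _)) hm
    exact le_trans (Nat.le_ceil _) (by exact_mod_cast h1)
  refine ⟨m, hmN, τ m, by linarith [hτ1 m], ?_, hτ2 m⟩
  have hτm := hτ0 m
  have h1 := h φ hφ m (ang (p 1 - p 0)) (1 / (((m : ℝ) + 1) * τ m)) hm1 (by positivity)
    (fun i => (hm2 i).le) (τ m) hτm
  refine le_trans ?_ h1
  have h2 : C * τ m * (1 / (((m : ℝ) + 1) * τ m)) = C / ((m : ℝ) + 1) := by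
    field_simp
  rw [h2]
  have h3 : C / ((m : ℝ) + 1) ≤ 1 / 4 := by
    rw [div_le_iff₀ (by positivity)]
    linarith
  linarith

end BIL
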