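import Pool.Agent.BIL.E5b

/-!
# [BIL-Main2] assembly of the second theorem
-/

set_option autoImplicit false

open MeasureTheory Set Filter Topology

namespace BIL

theorem part_C {n : ℕ} {P : Set ℂ} {a b : Fin n → ℂ} (hP : IsPolygon P a b) (c β : Ang)
    (hs : ∀ i, (4 : ℕ) • (ang (b i - a i) - c) = 0 ∨ (2 : ℕ) • (ang (b i - a i) - β) = 0) :
    ∃ C > 0, ∀ φ, IsBilliardFlow P a b φ → ∀ T₀ : ℝ, ∃ T : ℝ, T₀ ≤ T ∧ 0 < T ∧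
      ∃ g : Ang → ℝ, LipschitzWith 1 g ∧ ∀ s : ℝ, 0 < s → s ≤ T → C / T ≤ corr P φ g s := by
  obtain ⟨C, hC, h⟩ := part_C0 hP c β hs
  refine ⟨C ^ 2, by positivity, ?_⟩
  intro φ hφ T₀
  obtain ⟨q, hq0, hqQ, g, hg, hg2⟩ := h φ hφ (⌈T₀ / C⌉₊ + 1) (Nat.succ_pos _)
  have hq1 : (1 : ℝ) ≤ q := by exact_mod_cast hq0
  have hQ1 : (q : ℝ) ≤ ((⌈T₀ / C⌉₊ + 1 : ℕ) : ℝ) := by exact_mod_cast hqQ
  have hQ2 : T₀ / C ≤ ((⌈T₀ / C⌉₊ + 1 : ℕ) : ℝ) := by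
    push_cast
    linarith [Nat.le_ceil (T₀ / C)]
  set Q : ℝ := ((⌈T₀ / C⌉₊ + 1 : ℕ) : ℝ) with hQ
  have hQ0 : 0 < Q := by linarith
  refine ⟨C * (q * Q), ?_, by positivity, g, hg, ?_⟩
  · rw [div_le_iff₀ hC] at hQ2
    have h1 : Q ≤ q * Q := le_mul_of_one_le_left hQ0.le hq1
    have h2 : C * Q ≤ C * (q * Q) := mul_le_mul_of_nonneg_left h1 hC.le
    linarith
  · intro s hs1 hs2
    refine le_trans ?_ (hg2 s hs1 hs2)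
    rw [div_le_div_iff₀ (by positivity) (by positivity)]
    have h1 : (q : ℝ) ^ 2 ≤ q * Q := by nlinarith
    nlinarith [mul_le_mul_of_nonneg_left h1 (by positivity : (0 : ℝ) ≤ C ^ 2)]

end BIL
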