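import Pool.Agent.BIL.Main

/-!
# [BIL-Main3] the speed limit in terms of the rank of the directions
-/

set_option autoImplicit false

open MeasureTheory Set Filter Topology

namespace BIL

theorem main3_closure {r : ℕ} (ξ : Fin r → Ang) {x : Ang} (h : x ∈ AddSubgroup.closure (range ξ)) :
    ∃ z : Fin r → ℤ, x = ∑ j, z j • ξ j := by
  have h1 : x ∈ Submodule.span ℤ (range ξ) := by
    rw [← Submodule.mem_toAddSubgroup, Submodule.span_int_eq_addSubgroupClosure]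
    exact h
  obtain ⟨z, hz⟩ := (Submodule.mem_span_range_iff_exists_fun ℤ).1 h1
  exact ⟨z, hz.symm⟩

/-- A common multiple and a common bound for the coefficients. -/
theorem main3_common {n r : ℕ} (β : Fin n → Ang) (ξ : Fin r → Ang)
    (hξ : ∀ i, ∃ d : ℕ, 0 < d ∧ d • β i ∈ AddSubgroup.closure (range ξ)) :
    ∃ (D : ℕ) (M : ℝ), 0 < D ∧ 0 < M ∧ ∀ i, ∃ z : Fin r → ℤ, D • β i = ∑ j, z j • ξ j ∧
      ∑ j, |(z j : ℝ)| ≤ M := by
  choose d hd hd2 using hξ
  have hD : 0 < ∏ i, d i := Finset.prod_pos fun i _ => hd i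
  have h1 : ∀ i, ∃ z : Fin r → ℤ, (∏ i, d i) • β i = ∑ j, z j • ξ j := by
    intro i
    apply main3_closure
    obtain ⟨e, he⟩ : d i ∣ ∏ i, d i := Finset.dvd_prod_of_mem _ (Finset.mem_univ i)
    rw [he, mul_comm (d i) e, mul_smul]
    exact AddSubgroup.nsmul_mem _ (hd2 i) e
  choose z hz using h1
  refine ⟨∏ i, d i, 1 + ∑ i, ∑ j, |(z i j : ℝ)|, hD, by positivity, ?_⟩
  intro i
  refine ⟨z i, hz i, ?_⟩
  have h2 : ∑ j, |(z i j : ℝ)| ≤ ∑ i, ∑ j, |(z i j : ℝ)| :=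
    Finset.single_le_sum (f := fun i => ∑ j, |(z i j : ℝ)|)
      (fun i _ => Finset.sum_nonneg fun j _ => abs_nonneg _) (Finset.mem_univ i)
  linarith

theorem part_A2 {n r : ℕ} {P : Set ℂ} {a b : Fin n → ℂ} (hP : IsPolygon P a b) (c : Ang)
    (ξ : Fin r → Ang)
    (hξ : ∀ i, ∃ d : ℕ, 0 < d ∧ d • (ang (b i - a i) - c) ∈ AddSubgroup.closure (range ξ)) :
    ∃ C > 0, ∀ φ, IsBilliardFlow P a b φ → ∀ t : ℝ, 1 ≤ t → ∃ g : Ang → ℝ, LipschitzWith 1 g ∧
      ∀ s : ℝ, 0 < s → s ≤ t → C / t ^ (2 * r) ≤ corr P φ g s := by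
  obtain ⟨C, hC, h⟩ := corr_ge hP
  obtain ⟨D, M, hD, hM, hz⟩ := main3_common (fun i => ang (b i - a i) - c) ξ hξ
  have hpi := Real.pi_pos
  have hDr : (1 : ℝ) ≤ D := by exact_mod_cast hD
  set B : ℝ := D * (16 * Real.pi * M * C + 1) ^ r with hB
  have hB0 : 0 < B := by positivity
  refine ⟨1 / (4 * B ^ 2), by positivity, ?_⟩
  intro φ hφ t ht
  have hx : 0 < 16 * Real.pi * M * C * t := by positivity
  have hQ : 0 < ⌈16 * Real.pi * M * C * t⌉₊ := Nat.ceil_pos.2 hx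
  obtain ⟨m, hm0, hm, hm2⟩ := dirichlet ξ hQ
  have hQ' : 16 * Real.pi * M * C * t ≤ (⌈16 * Real.pi * M * C * t⌉₊ : ℝ) := Nat.le_ceil _
  have hQ0 : (0 : ℝ) < (⌈16 * Real.pi * M * C * t⌉₊ : ℝ) := by exact_mod_cast hQ
  have hQ2 : (⌈16 * Real.pi * M * C * t⌉₊ : ℝ) ≤ (16 * Real.pi * M * C + 1) * t := by
    have := (Nat.ceil_lt_add_one hx.le).le
    nlinarith
  set Q : ℝ := (⌈16 * Real.pi * M * C * t⌉₊ : ℝ) with hQdef
  have hk0 : 0 < m * D := Nat.mul_pos hm0 hD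
  have hk : ((m * D : ℕ) : ℝ) ≤ B * t ^ r := by
    have h1 : (m : ℝ) ≤ Q ^ r := by rw [hQdef]; exact_mod_cast hm
    have h2 : Q ^ r ≤ (16 * Real.pi * M * C + 1) ^ r * t ^ r := by
      rw [← mul_pow]
      exact pow_le_pow_left₀ hQ0.le hQ2 r
    push_cast
    calc (m : ℝ) * D ≤ ((16 * Real.pi * M * C + 1) ^ r * t ^ r) * D :=
          mul_le_mul_of_nonneg_right (h1.trans h2) (by positivity)
      _ = B * t ^ r := by rw [hB]; ring
  have hcorr : ∀ s : ℝ, 0 < s → s ≤ t → 1 / 4 ≤ corr P φ (cosm (m * D) c) s := by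
    intro s hs hst
    refine le_trans ?_ (h φ hφ (m * D) c (4 * Real.pi * M / Q) hk0 (by positivity) (fun i => ?_) s hs)
    · have h2 : C * s * (4 * Real.pi * M / Q) ≤ 1 / 4 := by
        rw [mul_div_assoc', div_le_iff₀ hQ0]
        have h3 : C * s * (4 * Real.pi * M) ≤ C * t * (4 * Real.pi * M) := by
          have : C * s ≤ C * t := mul_le_mul_of_nonneg_left hst hC.le
          exact mul_le_mul_of_nonneg_right this (by positivity)
        nlinarith
      linarith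
    · obtain ⟨z, hz1, hz2⟩ := hz i
      have e1 : (2 * (m * D)) • (ang (b i - a i) - c) = (2 : ℕ) • ∑ j, z j • (m • ξ j) := by
        have e2 : (2 * (m * D)) = 2 * m * D := by ring
        rw [e2, mul_smul, hz1, mul_smul, Finset.smul_sum]
        congr 1
        refine Finset.sum_congr rfl fun j _ => ?_
        rw [smul_comm]
      rw [e1]
      calc ‖(2 : ℕ) • ∑ j, z j • (m • ξ j)‖ ≤ 2 * ‖∑ j, z j • (m • ξ j)‖ := by
            have := norm_nsmul_le (a := ∑ j, z j • (m • ξ j)) (n := 2)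
            simpa using this
        _ ≤ 2 * ∑ j, |(z j : ℝ)| * (2 * Real.pi / Q) := by
            refine mul_le_mul_of_nonneg_left ?_ (by norm_num)
            refine (norm_sum_le _ _).trans (Finset.sum_le_sum fun j _ => ?_)
            refine (norm_zsmul_le (z j) (m • ξ j)).trans ?_
            rw [Int.norm_eq_abs]
            exact mul_le_mul_of_nonneg_left (hm2 j) (abs_nonneg _)
        _ ≤ 4 * Real.pi * M / Q := by
            rw [← Finset.sum_mul]
            have : (∑ j, |(z j : ℝ)|) * (2 * Real.pi / Q) ≤ M * (2 * Real.pi / Q) :=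
              mul_le_mul_of_nonneg_right hz2 (by positivity)
            calc 2 * ((∑ j, |(z j : ℝ)|) * (2 * Real.pi / Q)) ≤ 2 * (M * (2 * Real.pi / Q)) :=
                  mul_le_mul_of_nonneg_left this (by norm_num)
              _ = 4 * Real.pi * M / Q := by ring
  have hk' : (0 : ℝ) < ((m * D : ℕ) : ℝ) := by exact_mod_cast hk0
  refine ⟨fun θ => ((m * D : ℕ) : ℝ)⁻¹ * cosm (m * D) c θ, ?_, ?_⟩
  · have h2 := cosm_lip (m * D) c
    rw [lipschitzWith_iff_dist_le_mul] at h2 ⊢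
    intro x y
    have h3 := h2 x y
    rw [Real.dist_eq, ← mul_sub, abs_mul, abs_of_pos (inv_pos.2 hk'), ← Real.dist_eq]
    rw [NNReal.coe_one, one_mul]
    rw [NNReal.coe_natCast] at h3
    calc (((m * D : ℕ) : ℝ))⁻¹ * dist (cosm (m * D) c x) (cosm (m * D) c y)
        ≤ (((m * D : ℕ) : ℝ))⁻¹ * (((m * D : ℕ) : ℝ) * dist x y) :=
          mul_le_mul_of_nonneg_left h3 (by positivity)
      _ = dist x y := by rw [← mul_assoc, inv_mul_cancel₀ hk'.ne', one_mul]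
  · intro s hs hst
    rw [corr_smul]
    have h2 := hcorr s hs hst
    have ht0 : 0 < t := by linarith
    have h3 : ((m * D : ℕ) : ℝ) ^ 2 ≤ B ^ 2 * t ^ (2 * r) := by
      calc ((m * D : ℕ) : ℝ) ^ 2 ≤ (B * t ^ r) ^ 2 := pow_le_pow_left₀ hk'.le hk 2
        _ = B ^ 2 * t ^ (2 * r) := by ring
    calc 1 / (4 * B ^ 2) / t ^ (2 * r) = (B ^ 2 * t ^ (2 * r))⁻¹ * (1 / 4) := by
          field_simp
      _ ≤ (((m * D : ℕ) : ℝ) ^ 2)⁻¹ * (1 / 4) := by
          apply mul_le_mul_of_nonneg_right _ (by norm_num)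
          exact inv_anti₀ (by positivity) h3
      _ ≤ (((m * D : ℕ) : ℝ)⁻¹) ^ 2 * corr P φ (cosm (m * D) c) s := by
          rw [inv_pow]
          exact mul_le_mul_of_nonneg_left h2 (by positivity)

end BIL
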